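import Mathlib

/-!
A system of differential inequalities without global solutions (helper305).
-/

set_option autoImplicit false

open Set Filter Topology

namespace Pool.Agent.TH305.BQ

lemma mono_of_hd {f f' : ℝ → ℝ} {p r : ℝ} (hd : ∀ t ∈ Icc p r, HasDerivAt f (f' t) t)
    (hn : ∀ t ∈ Icc p r, 0 ≤ f' t) : MonotoneOn f (Icc p r) := by
  refine monotoneOn_of_deriv_nonneg (convex_Icc _ _)
    (fun t ht => (hd t ht).continuousAt.continuousWithinAt)
    (fun t ht => (hd t (interior_subset ht)).differentiableAt.differentiableWithinAt)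
    fun t ht => ?_
  rw [(hd t (interior_subset ht)).deriv]
  exact hn t (interior_subset ht)

theorem ode_blow {k c q₀ φ₀ : ℝ} (hk : 0 < k) (hc : 0 < c) (hq : 0 < q₀) (hφ : 0 < φ₀) :
    ∃ T₁ : ℝ, ∀ (T : ℝ) (q q' φ : ℝ → ℝ), (∀ t ∈ Ico 0 T, HasDerivAt q (q' t) t) →
      (∀ t ∈ Ico 0 T, HasDerivAt φ (k * Real.sqrt (q t) * φ t) t) →
      (∀ t ∈ Ico 0 T, c * φ t ≤ q' t * q t ^ 5) → q 0 = q₀ → φ 0 = φ₀ →
      (∀ t ∈ Ico 0 T, 0 < q t) → (∀ t ∈ Ico 0 T, 0 < φ t) → T ≤ T₁ := by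
  obtain ⟨r₀, hr₀⟩ : ∃ r₀, r₀ = Real.sqrt q₀ := ⟨_, rfl⟩
  have hr₀0 : 0 < r₀ := by
    rw [hr₀]
    exact Real.sqrt_pos.2 hq
  obtain ⟨C, hC⟩ : ∃ C, C = 13 * c / (2 * k) := ⟨_, rfl⟩
  have hC0 : 0 < C := by
    rw [hC]
    positivity
  obtain ⟨c₃, hc₃⟩ : ∃ c₃, c₃ = min 1 (C / 2) := ⟨_, rfl⟩
  have hc₃0 : 0 < c₃ := by
    rw [hc₃]
    exact lt_min one_pos (by positivity)
  have hc₃1 : c₃ ≤ 1 := by
    rw [hc₃]
    exact min_le_left _ _
  have hc₃2 : c₃ ≤ C / 2 := by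
    rw [hc₃]
    exact min_le_right _ _
  obtain ⟨t₀, ht₀⟩ : ∃ t₀, t₀ = 1 / (k * r₀) := ⟨_, rfl⟩
  have ht₀0 : 0 < t₀ := by
    rw [ht₀]
    positivity
  obtain ⟨E, hE⟩ : ∃ E, E = Real.exp (-(1 / 13) * Real.log φ₀) := ⟨_, rfl⟩
  have hE0 : 0 < E := by
    rw [hE]
    exact Real.exp_pos _
  obtain ⟨T₁, hT₁⟩ : ∃ T₁, T₁ = t₀ + 13 / (k * c₃) * E := ⟨_, rfl⟩
  have hT₁0 : t₀ ≤ T₁ := by
    rw [hT₁]
    have : 0 ≤ 13 / (k * c₃) * E := by positivity
    linarith
  refine ⟨T₁, fun T q q' φ hdq hdφ hin hq0 hφ0 hqp hφp => ?_⟩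
  by_contra hcon
  push Not at hcon
  have hI : ∀ t ∈ Icc 0 T₁, t ∈ Ico 0 T := fun t ht => ⟨ht.1, ht.2.trans_lt hcon⟩
  have h0 : (0 : ℝ) ∈ Icc 0 T₁ := ⟨le_rfl, by linarith⟩
  -- `q` increases
  have hqm : MonotoneOn q (Icc 0 T₁) := by
    refine mono_of_hd (fun t ht => hdq t (hI t ht)) fun t ht => ?_
    have h1 := hin t (hI t ht)
    have h2 := hqp t (hI t ht)
    have h3 := hφp t (hI t ht)
    have h4 : 0 < q' t * q t ^ 5 := lt_of_lt_of_le (by positivity) h1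
    exact (pos_of_mul_pos_left h4 (by positivity)).le
  have hr : ∀ t ∈ Icc 0 T₁, r₀ ≤ Real.sqrt (q t) := by
    intro t ht
    rw [hr₀]
    apply Real.sqrt_le_sqrt
    have := hqm h0 ht ht.1
    rwa [hq0] at this
  have hφm : MonotoneOn φ (Icc 0 T₁) := by
    refine mono_of_hd (fun t ht => hdφ t (hI t ht)) fun t ht => ?_
    have h3 := hφp t (hI t ht)
    positivity
  have hφ1 : ∀ t ∈ Icc 0 T₁, φ₀ ≤ φ t := by
    intro t ht
    have := hφm h0 ht ht.1
    rwa [hφ0] at this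
  -- linear growth
  have hφ2 : 2 * φ₀ ≤ φ t₀ := by
    have hm : MonotoneOn (fun t => φ t - k * r₀ * φ₀ * t) (Icc 0 T₁) := by
      refine mono_of_hd (f' := fun t => k * Real.sqrt (q t) * φ t - k * r₀ * φ₀) (fun t ht => ?_)
        fun t ht => ?_
      · have h1 := (hdφ t (hI t ht)).sub ((hasDerivAt_id t).const_mul (k * r₀ * φ₀))
        exact h1.congr_deriv (by ring)
      · have h1 := hr t ht
        have h2 := hφ1 t ht
        have h3 : k * r₀ * φ₀ ≤ k * Real.sqrt (q t) * φ t := by gcongr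
        linarith
    have ht₀m : t₀ ∈ Icc 0 T₁ := ⟨ht₀0.le, hT₁0⟩
    have h1 := hm h0 ht₀m ht₀0.le
    simp only [hφ0, mul_zero, sub_zero] at h1
    have h2 : k * r₀ * φ₀ * t₀ = φ₀ := by
      rw [ht₀]
      field_simp
    linarith
  -- the power
  have hpow : ∀ t ∈ Icc 0 T₁, C * (φ t - φ₀) ≤ Real.sqrt (q t) ^ 13 := by
    have hm : MonotoneOn (fun t => Real.sqrt (q t) ^ 13 - C * φ t) (Icc 0 T₁) := by
      refine mono_of_hd (f' := fun t => 13 * Real.sqrt (q t) ^ 12 * (q' t / (2 * Real.sqrt (q t)))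
        - C * (k * Real.sqrt (q t) * φ t)) (fun t ht => ?_) fun t ht => ?_
      · have h1 := ((hdq t (hI t ht)).sqrt (hqp t (hI t ht)).ne').fun_pow 13
        have h2 := h1.sub ((hdφ t (hI t ht)).const_mul C)
        refine h2.congr_deriv ?_
        push_cast
        ring
      · have h1 := hin t (hI t ht)
        have h2 := hqp t (hI t ht)
        have h3 : 0 < Real.sqrt (q t) := Real.sqrt_pos.2 h2
        have h4 : Real.sqrt (q t) ^ 2 = q t := Real.sq_sqrt h2.le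
        have h5 : 13 * Real.sqrt (q t) ^ 12 * (q' t / (2 * Real.sqrt (q t)))
            = 13 / 2 * Real.sqrt (q t) * (q' t * q t ^ 5) := by
          have h6 : Real.sqrt (q t) ^ 12 = Real.sqrt (q t) * Real.sqrt (q t) * q t ^ 5 := by
            calc Real.sqrt (q t) ^ 12
                = Real.sqrt (q t) * Real.sqrt (q t) * (Real.sqrt (q t) ^ 2) ^ 5 := by ring
              _ = _ := by rw [h4]
          rw [h6]
          field_simp
        have h7 : C * (k * Real.sqrt (q t) * φ t) = 13 / 2 * Real.sqrt (q t) * (c * φ t) := by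
          rw [hC]
          field_simp
        rw [h5, h7]
        have h8 : 13 / 2 * Real.sqrt (q t) * (c * φ t)
            ≤ 13 / 2 * Real.sqrt (q t) * (q' t * q t ^ 5) := by gcongr
        linarith
    intro t ht
    have h1 := hm h0 ht ht.1
    simp only [hφ0] at h1
    have h2 : 0 ≤ Real.sqrt (q 0) ^ 13 := by positivity
    linarith
  -- the ratio
  have hratio : ∀ t ∈ Icc t₀ T₁, c₃ ≤ Real.sqrt (q t) * Real.exp (-(1 / 13) * Real.log (φ t)) := by
    intro t ht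
    have ht' : t ∈ Icc 0 T₁ := ⟨ht₀0.le.trans ht.1, ht.2⟩
    have h1 := hpow t ht'
    have h2 : 2 * φ₀ ≤ φ t := hφ2.trans (hφm ⟨ht₀0.le, hT₁0⟩ ht' ht.1)
    have h3 : c₃ * φ t ≤ Real.sqrt (q t) ^ 13 := by
      have h4 : C / 2 * φ t ≤ C * (φ t - φ₀) := by nlinarith
      have h5 := hφp t (hI t ht')
      have h6 : c₃ * φ t ≤ C / 2 * φ t := by gcongr
      linarith
    by_contra hlt
    push Not at hlt
    have h5 := hφp t (hI t ht')
    have h6 : (Real.sqrt (q t) * Real.exp (-(1 / 13) * Real.log (φ t))) ^ 13 < c₃ ^ 13 :=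
      pow_lt_pow_left₀ hlt (by positivity) (by norm_num)
    have h7 : c₃ ^ 13 ≤ c₃ := by
      have := pow_le_pow_of_le_one hc₃0.le hc₃1 (show 1 ≤ 13 by norm_num)
      simpa using this
    have h8 : Real.exp (-(1 / 13) * Real.log (φ t)) ^ 13 = (φ t)⁻¹ := by
      rw [← Real.exp_nat_mul]
      push_cast
      rw [show 13 * (-(1 / 13) * Real.log (φ t)) = -Real.log (φ t) by ring, Real.exp_neg,
        Real.exp_log h5]
    rw [mul_pow, h8] at h6
    have h9 : Real.sqrt (q t) ^ 13 * (φ t)⁻¹ < c₃ := h6.trans_le h7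
    rw [← div_eq_mul_inv, div_lt_iff₀ h5] at h9
    linarith
  -- the blow-up
  have hm : MonotoneOn (fun t => -Real.exp (-(1 / 13) * Real.log (φ t)) - k * c₃ / 13 * t)
      (Icc t₀ T₁) := by
    refine mono_of_hd (f' := fun t => -(Real.exp (-(1 / 13) * Real.log (φ t))
      * (-(1 / 13) * (k * Real.sqrt (q t) * φ t / φ t))) - k * c₃ / 13) (fun t ht => ?_)
      fun t ht => ?_
    · have ht' : t ∈ Icc 0 T₁ := ⟨ht₀0.le.trans ht.1, ht.2⟩
      have h1 := (((hdφ t (hI t ht')).log (hφp t (hI t ht')).ne').const_mul (-(1 / 13) : ℝ)).exp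
      have h2 := h1.fun_neg.sub ((hasDerivAt_id t).const_mul (k * c₃ / 13))
      exact h2.congr_deriv (by ring)
    · have ht' : t ∈ Icc 0 T₁ := ⟨ht₀0.le.trans ht.1, ht.2⟩
      have h1 := hratio t ht
      have h5 := hφp t (hI t ht')
      have h2 : -(Real.exp (-(1 / 13) * Real.log (φ t))
          * (-(1 / 13) * (k * Real.sqrt (q t) * φ t / φ t)))
          = k / 13 * (Real.sqrt (q t) * Real.exp (-(1 / 13) * Real.log (φ t))) := by
        field_simp
      rw [h2]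
      have h3 : k / 13 * c₃
          ≤ k / 13 * (Real.sqrt (q t) * Real.exp (-(1 / 13) * Real.log (φ t))) := by gcongr
      have h4 : k / 13 * c₃ = k * c₃ / 13 := by ring
      linarith
  have h1 := hm ⟨le_rfl, hT₁0⟩ ⟨hT₁0, le_rfl⟩ hT₁0
  simp only at h1
  have h2 : Real.exp (-(1 / 13) * Real.log (φ t₀)) ≤ E := by
    rw [hE]
    apply Real.exp_le_exp.2
    have h3 : Real.log φ₀ ≤ Real.log (φ t₀) := Real.log_le_log hφ (by linarith)
    linarith
  have h3 : k * c₃ / 13 * T₁ = k * c₃ / 13 * t₀ + E := by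
    rw [hT₁]
    field_simp
  have h4 := Real.exp_pos (-(1 / 13) * Real.log (φ T₁))
  linarith

end Pool.Agent.TH305.BQ
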