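import Pool.Agent.TH305.BQ.Grow
import Pool.Agent.TH305.BQ.Blow

/-!
The scale-invariant Boussinesq system (helper305): the maximal time of existence is bounded.
-/

set_option autoImplicit false

open MeasureTheory Set Filter Topology
open scoped ContDiff BoundedContinuousFunction

namespace Pool.Agent.TH305.BQ

variable {q w : ℝ → ℝ}

lemma low_bd {f : ℝ → ℝ} (hf : Continuous f) (hp : ∀ a ∈ Icc (0 : ℝ) (1 / 4), 0 < f a) :
    ∃ c, 0 < c ∧ ∀ a ∈ Icc (0 : ℝ) (1 / 4), c ≤ f a := by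
  obtain ⟨a, ha, hmin⟩ := isCompact_Icc.exists_isMinOn (s := Icc (0 : ℝ) (1 / 4))
    ⟨0, by norm_num, by norm_num⟩ hf.continuousOn
  exact ⟨f a, hp a ha, fun b hb => hmin hb⟩

theorem T_le (h : Dat q w) : ∃ T₁ : ℝ, ∀ (δ T : ℝ) (U : ℝ → ES), LSol h δ T U → T ≤ T₁ := by
  have hsq' : ContDiff ℝ ∞ (deriv q) := by
    have h2 : ContDiff ℝ (∞ + 1) q := h.sq
    exact ((contDiff_succ_iff_deriv (n := ∞)).1 h2).2.2
  have hc1 : Continuous (deriv (deriv q)) := hsq'.continuous_deriv (by norm_cast)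
  have hc2 : Continuous (deriv w) := h.sw.continuous_deriv (by norm_cast)
  obtain ⟨κ, hκ0, hκ⟩ := low_bd h.cq h.qp
  obtain ⟨c, hc0, hc⟩ := low_bd (f := fun a => deriv w a * -(deriv (deriv q) a + q a))
    (hc2.mul (hc1.add h.cq).neg) fun a ha => mul_pos (h.wp a ha) (h.np a ha)
  have hq0 := LSol.q0_pos h
  obtain ⟨k, hk⟩ : ∃ k, k = Real.sqrt (κ / q 0 * Real.exp (-(33 / 4)) / 2) := ⟨_, rfl⟩
  have hk0 : 0 < k := by
    rw [hk]
    apply Real.sqrt_pos.2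
    positivity
  have hkq : ∀ a ∈ Icc (0 : ℝ) (1 / 4), 2 * k ^ 2 ≤ q a / q 0 * Real.exp (-(33 / 4)) := by
    intro a ha
    rw [hk, Real.sq_sqrt (by positivity)]
    have h1 := hκ a ha
    have h2 : κ / q 0 * Real.exp (-(33 / 4)) ≤ q a / q 0 * Real.exp (-(33 / 4)) := by gcongr
    linarith
  obtain ⟨T₁, hT₁⟩ := ode_blow (k := 2 * k) (c := 1 / 32768) (q₀ := q 0) (φ₀ := c * q 0 ^ 5)
    (by positivity) (by norm_num) hq0 (by positivity)
  refine ⟨T₁, fun δ T U H => ?_⟩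
  refine hT₁ T (fun t => QQ q (U t) 0) (fun t => DD (U t) 0 * QQ q (U t) 0)
    (fun t => c * q 0 ^ 5 * Real.exp (2 * k * LSol.II q U t)) ?_ ?_ ?_ ?_ ?_ ?_ ?_
  · intro t ht
    exact H.dQ (H.mem_of_ico ht) 0
  · intro t ht
    have h1 := (((H.II_t (H.mem_of_ico ht)).const_mul (2 * k)).exp).const_mul (c * q 0 ^ 5)
    refine h1.congr_deriv ?_
    ring
  · intro t ht
    exact H.growth hk0.le hc0 hkq hc ht
  · show QQ q (U 0) 0 = q 0
    unfold QQ
    rw [H.ini1]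
    simp
  · show c * q 0 ^ 5 * Real.exp (2 * k * LSol.II q U 0) = c * q 0 ^ 5
    unfold LSol.II
    simp
  · intro t _
    exact LSol.qq_pos h (U t)
  · intro t _
    positivity

end Pool.Agent.TH305.BQ
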