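import Mathlib

/-!
Functions of two real variables: joint smoothness from partial derivatives, integrals with
parameters (helper305).
-/

set_option autoImplicit false

open MeasureTheory Set Filter Topology
open scoped ContDiff

namespace Pool.Agent.TH305.BQ

/-- A function of two variables with partial derivatives of class `C^n` is of class `C^(n+1)`. -/
theorem cd_succ {F : Type*} [NormedAddCommGroup F] [NormedSpace ℝ F] {n : ℕ} {O : Set (ℝ × ℝ)}
    (hO : IsOpen O) {g ga gt : ℝ × ℝ → F}
    (ha : ∀ z ∈ O, HasDerivAt (fun a => g (a, z.2)) (ga z) z.1)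
    (ht : ∀ z ∈ O, HasDerivAt (fun t => g (z.1, t)) (gt z) z.2)
    (hga : ContDiffOn ℝ n ga O) (hgt : ContDiffOn ℝ n gt O) : ContDiffOn ℝ (n + 1) g O := by
  have hfd : ∀ z ∈ O, HasFDerivAt g ((ContinuousLinearMap.toSpanSingleton ℝ (ga z)).coprod
      (ContinuousLinearMap.toSpanSingleton ℝ (gt z))) z := by
    intro z hz
    have hev : ∀ᶠ v in 𝓝 z, v ∈ O := hO.mem_nhds hz
    have hca : ContinuousAt ga z := (hga.continuousOn.continuousAt (hO.mem_nhds hz))
    have hct : ContinuousAt gt z := (hgt.continuousOn.continuousAt (hO.mem_nhds hz))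
    have h := hasStrictFDerivAt_uncurry_coprod (𝕜 := ℝ) (u := z)
      (f := fun a t => g (a, t))
      (f₁ := fun a t => ContinuousLinearMap.toSpanSingleton ℝ (ga (a, t)))
      (f₂ := fun a t => ContinuousLinearMap.toSpanSingleton ℝ (gt (a, t)))
      (by
        filter_upwards [hev] with v hv
        exact (ha v hv).hasFDerivAt)
      (by
        filter_upwards [hev] with v hv
        exact (ht v hv).hasFDerivAt)
      ((ContinuousLinearMap.toSpanSingletonCLE (𝕜 := ℝ) (E := F)).continuous.continuousAt.comp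
        hca)
      ((ContinuousLinearMap.toSpanSingletonCLE (𝕜 := ℝ) (E := F)).continuous.continuousAt.comp
        hct)
    exact h.hasFDerivAt
  rw [contDiffOn_succ_iff_fderiv_of_isOpen hO]
  refine ⟨fun z hz => (hfd z hz).differentiableAt.differentiableWithinAt, by simp, ?_⟩
  have e : ∀ z ∈ O, fderiv ℝ g z = (ContinuousLinearMap.toSpanSingleton ℝ (ga z)).coprod
      (ContinuousLinearMap.toSpanSingleton ℝ (gt z)) := fun z hz => (hfd z hz).fderiv
  refine ContDiffOn.congr ?_ e
  have h1 : ContDiffOn ℝ n (fun z => ContinuousLinearMap.toSpanSingleton ℝ (ga z)) O :=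
    (ContinuousLinearMap.toSpanSingletonCLE (𝕜 := ℝ) (E := F)).contDiff.comp_contDiffOn hga
  have h2 : ContDiffOn ℝ n (fun z => ContinuousLinearMap.toSpanSingleton ℝ (gt z)) O :=
    (ContinuousLinearMap.toSpanSingletonCLE (𝕜 := ℝ) (E := F)).contDiff.comp_contDiffOn hgt
  have h3 : ∀ z, (ContinuousLinearMap.toSpanSingleton ℝ (ga z)).coprod
      (ContinuousLinearMap.toSpanSingleton ℝ (gt z))
      = (ContinuousLinearMap.toSpanSingleton ℝ (ga z)).comp (ContinuousLinearMap.fst ℝ ℝ ℝ)
        + (ContinuousLinearMap.toSpanSingleton ℝ (gt z)).comp (ContinuousLinearMap.snd ℝ ℝ ℝ) := by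
    intro z
    ext <;> simp
  simp only [h3]
  exact (h1.clm_comp contDiffOn_const).add (h2.clm_comp contDiffOn_const)

end Pool.Agent.TH305.BQ
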