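import Pool.Agent.TH305.BQ.Good

/-!
The scale-invariant Boussinesq system (helper305): continuation criterion.
-/

set_option autoImplicit false

open MeasureTheory Set Filter Topology
open scoped ContDiff BoundedContinuousFunction

namespace Pool.Agent.TH305.BQ

variable {q w : ℝ → ℝ} {h : Dat q w} {δ T : ℝ} {U : ℝ → ES}

/-- Density, density gradient and vorticity. -/
noncomputable def Dat.st (h : Dat q w) (V : ES) : ES := (h.pQQ.toB V, h.pPP.toB V, V.2.2)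

lemma Dat.st_cont (h : Dat q w) : Continuous h.st :=
  (toB_cont h.pQQ).prodMk ((toB_cont h.pPP).prodMk (continuous_snd.comp continuous_snd))

lemma st1 (h : Dat q w) (V : ES) (a : ℝ) : |QQ q V a| ≤ ‖h.st V‖ := le1 (h.st V) a
lemma st2 (h : Dat q w) (V : ES) (a : ℝ) : |PP q V a| ≤ ‖h.st V‖ := le2 (h.st V) a
lemma st3 (h : Dat q w) (V : ES) (a : ℝ) : |V.2.2 a| ≤ ‖h.st V‖ := le3 (h.st V) a

lemma st_le {h : Dat q w} {V : ES} {m : ℝ} (hm : 0 ≤ m) (h1 : ∀ a, |QQ q V a| ≤ m)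
    (h2 : ∀ a, |PP q V a| ≤ m) (h3 : ∀ a, |V.2.2 a| ≤ m) : ‖h.st V‖ ≤ m :=
  es_norm_le hm h1 h2 h3

namespace LSol

lemma dQ (H : LSol h δ T U) {t : ℝ} (ht : t ∈ Ioo (-δ) T) (a : ℝ) :
    HasDerivAt (fun s => QQ q (U s) a) (DD (U t) a * QQ q (U t) a) t := by
  have h1 := (((H.d1 ht a).const_mul (1 / 2 : ℝ)).exp).const_mul (q a)
  refine h1.congr_deriv ?_
  unfold QQ F1
  ring

lemma dP (H : LSol h δ T U) {t : ℝ} (ht : t ∈ Ioo (-δ) T) (a : ℝ) :
    HasDerivAt (fun s => PP q (U s) a)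
      (-(DD (U t) a * PP q (U t) a) - ((U t).2.2 a + 4 * EE (U t) a) * QQ q (U t) a) t := by
  have h1 := (((H.d2 ht a).const_mul (q a)).const_mul (1 / 2 : ℝ)).const_add (deriv q a)
  have h2 := (((H.d1 ht a).const_mul (-(1 / 2) : ℝ)).exp)
  refine (h1.mul h2).congr_deriv ?_
  unfold QQ PP F1 F2
  have e : Real.exp (1 / 2 * (U t).1 a) = Real.exp ((U t).1 a)
      * Real.exp (-(1 / 2) * (U t).1 a) := by
    rw [← Real.exp_add]
    congr 1
    ring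
  rw [e]
  ring

/-- Bounds of the derivatives. -/
lemma der_bd (H : LSol h δ T U) {s c : ℝ} (hs : s ∈ Ico 0 T) (hc : ‖h.st (U s)‖ ≤ c) (a : ℝ) :
    |F3 q (U s) a| ≤ 2 * c + 12 * c ^ 2 ∧ |DD (U s) a * QQ q (U s) a| ≤ 2 * c + 12 * c ^ 2 ∧
    |-(DD (U s) a * PP q (U s) a) - ((U s).2.2 a + 4 * EE (U s) a) * QQ q (U s) a|
      ≤ 2 * c + 12 * c ^ 2 := by
  have hc0 : 0 ≤ c := (norm_nonneg _).trans hc
  have g := H.good hs
  have hQ := (st1 h (U s) a).trans hc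
  have hP := (st2 h (U s) a).trans hc
  have hW : ∀ a, |(U s).2.2 a| ≤ c := fun a => (st3 h (U s) a).trans hc
  have hD := g.DD_bd hW a
  have hE := g.EE_bd hW a
  have hWa := hW a
  have hc2 : 0 ≤ c ^ 2 := by positivity
  refine ⟨?_, ?_, ?_⟩
  · unfold F3
    rw [abs_neg]
    have h1 := abs_add_le (QQ q (U s) a * Real.sin (XX (U s) a))
      (PP q (U s) a * Real.cos (XX (U s) a))
    have h2 : |QQ q (U s) a * Real.sin (XX (U s) a)| ≤ c := by
      rw [abs_mul]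
      have := Real.abs_sin_le_one (XX (U s) a)
      nlinarith [abs_nonneg (QQ q (U s) a)]
    have h3 : |PP q (U s) a * Real.cos (XX (U s) a)| ≤ c := by
      rw [abs_mul]
      have := Real.abs_cos_le_one (XX (U s) a)
      nlinarith [abs_nonneg (PP q (U s) a)]
    linarith
  · rw [abs_mul]
    have := mul_le_mul hD hQ (abs_nonneg _) (by positivity)
    nlinarith
  · have h1 := abs_sub (-(DD (U s) a * PP q (U s) a))
      (((U s).2.2 a + 4 * EE (U s) a) * QQ q (U s) a)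
    rw [abs_neg, abs_mul, abs_mul] at h1
    have h2 := mul_le_mul hD hP (abs_nonneg _) (by positivity)
    have h3 : |(U s).2.2 a + 4 * EE (U s) a| ≤ 9 * c := by
      have h4 := abs_add_le ((U s).2.2 a) (4 * EE (U s) a)
      rw [abs_mul, abs_of_pos (by norm_num : (0 : ℝ) < 4)] at h4
      linarith
    have h4 := mul_le_mul h3 hQ (abs_nonneg _) (by positivity)
    nlinarith

/-- Growth in terms of a bound. -/
lemma grow (H : LSol h δ T U) {t₀ t c : ℝ} (ht₀ : 0 ≤ t₀) (htt : t₀ ≤ t) (htT : t < T)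
    (hc : ∀ s ∈ Ico t₀ t, ‖h.st (U s)‖ ≤ c) (hc0 : 0 ≤ c) :
    ‖h.st (U t)‖ ≤ ‖h.st (U t₀)‖ + (2 * c + 12 * c ^ 2) * (t - t₀) := by
  have hI : ∀ s ∈ Icc t₀ t, s ∈ Ioo (-δ) T := fun s hs =>
    ⟨by linarith [H.hδ, hs.1], hs.2.trans_lt htT⟩
  have hI' : ∀ s ∈ Ico t₀ t, s ∈ Ico 0 T := fun s hs => ⟨ht₀.trans hs.1, hs.2.trans htT⟩
  have hmv : ∀ (g g' : ℝ → ℝ) (K : ℝ), (∀ s ∈ Icc t₀ t, HasDerivAt g (g' s) s) →
      (∀ s ∈ Ico t₀ t, |g' s| ≤ K) → |g t| ≤ |g t₀| + K * (t - t₀) := by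
    intro g g' K hg hK
    have h1 := norm_image_sub_le_of_norm_deriv_le_segment' (f := g) (f' := g') (C := K)
      (fun s hs => (hg s hs).hasDerivWithinAt) hK t ⟨htt, le_rfl⟩
    rw [Real.norm_eq_abs] at h1
    have h2 := abs_sub_abs_le_abs_sub (g t) (g t₀)
    linarith
  have hK0 : 0 ≤ (2 * c + 12 * c ^ 2) * (t - t₀) := by
    have : 0 ≤ t - t₀ := by linarith
    positivity
  refine st_le (by positivity) (fun a => ?_) (fun a => ?_) fun a => ?_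
  · have h1 := hmv (fun s => QQ q (U s) a) _ (2 * c + 12 * c ^ 2)
      (fun s hs => H.dQ (hI s hs) a) fun s hs => (H.der_bd (hI' s hs) (hc s hs) a).2.1
    have h2 := st1 h (U t₀) a
    linarith
  · have h1 := hmv (fun s => PP q (U s) a) _ (2 * c + 12 * c ^ 2)
      (fun s hs => H.dP (hI s hs) a) fun s hs => (H.der_bd (hI' s hs) (hc s hs) a).2.2
    have h2 := st2 h (U t₀) a
    linarith
  · have h1 := hmv (fun s => (U s).2.2 a) _ (2 * c + 12 * c ^ 2)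
      (fun s hs => H.d3 (hI s hs) a) fun s hs => (H.der_bd (hI' s hs) (hc s hs) a).1
    have h2 := st3 h (U t₀) a
    linarith

/-- Growth on a short interval. -/
lemma grow2 (H : LSol h δ T U) {t₀ t R : ℝ} (ht₀ : 0 ≤ t₀) (htt : t₀ ≤ t) (htT : t < T)
    (hR0 : 0 ≤ R) (hR : ‖h.st (U t₀)‖ ≤ R)
    (hτ : (2 * (2 * R + 2) + 12 * (2 * R + 2) ^ 2) * (t - t₀) ≤ R + 1) :
    ∀ s ∈ Icc t₀ t, ‖h.st (U s)‖ ≤ 2 * R + 1 := by
  have hN : ContinuousOn (fun s => ‖h.st (U s)‖) (Icc t₀ t) :=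
    (h.st_cont.comp_continuousOn (H.cont.mono fun s hs =>
      ⟨by linarith [H.hδ, hs.1], hs.2.trans_lt htT⟩)).norm
  obtain ⟨c, hc⟩ : ∃ c, c = 2 * R + 2 := ⟨_, rfl⟩
  have hc0 : 0 ≤ c := by rw [hc]; positivity
  rw [← hc] at hτ
  have hstep : ∀ s ∈ Icc t₀ t, (∀ r ∈ Ico t₀ s, ‖h.st (U r)‖ ≤ c) → ‖h.st (U s)‖ ≤ 2 * R + 1 := by
    intro s hs hr
    have h1 := H.grow ht₀ hs.1 (hs.2.trans_lt htT) hr hc0
    have h2 : (2 * c + 12 * c ^ 2) * (s - t₀) ≤ (2 * c + 12 * c ^ 2) * (t - t₀) := by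
      have := hs.2
      gcongr
    linarith
  by_contra hcon
  push Not at hcon
  obtain ⟨s₁, hs₁, hs₁'⟩ := hcon
  -- the first time at which the level `c` is reached
  have hex : ∃ r ∈ Ico t₀ s₁, c < ‖h.st (U r)‖ := by
    by_contra h1
    push Not at h1
    have := hstep s₁ hs₁ h1
    linarith
  obtain ⟨r, hr, hrc⟩ := hex
  obtain ⟨Bs, hBs⟩ : ∃ Bs : Set ℝ, Bs = {s ∈ Icc t₀ t | c ≤ ‖h.st (U s)‖} := ⟨_, rfl⟩
  have hBc : IsCompact Bs := by
    rw [hBs]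
    have h1 : IsClosed {s ∈ Icc t₀ t | c ≤ ‖h.st (U s)‖} :=
      hN.preimage_isClosed_of_isClosed isClosed_Icc isClosed_Ici
    exact isCompact_Icc.of_isClosed_subset h1 fun s hs => hs.1
  have hBne : Bs.Nonempty := ⟨r, by
    rw [hBs]
    exact ⟨⟨hr.1, hr.2.le.trans hs₁.2⟩, hrc.le⟩⟩
  obtain ⟨s, hs, hmin⟩ := hBc.exists_isMinOn hBne continuousOn_id
  have hs' := hs
  rw [hBs] at hs'
  have h1 := hstep s hs'.1 (fun r' hr' => by
    by_contra h2
    push Not at h2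
    have h3 : r' ∈ Bs := by
      rw [hBs]
      exact ⟨⟨hr'.1, hr'.2.le.trans hs'.1.2⟩, h2.le⟩
    have h4 : s ≤ r' := hmin h3
    exact absurd hr'.2 (not_lt.2 h4))
  have h2 := hs'.2
  linarith

/-- If the state blows up, so do density gradient or vorticity. -/
theorem blow_st (H : LSol h δ T U) (hU : Tendsto (fun t => ‖U t‖) (𝓝[<] T) atTop) :
    Tendsto (fun t => ‖h.st (U t)‖) (𝓝[<] T) atTop := by
  rw [tendsto_atTop]
  by_contra hcon
  push Not at hcon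
  obtain ⟨R', hR'⟩ := hcon
  obtain ⟨R, hR⟩ : ∃ R, R = max R' 0 := ⟨_, rfl⟩
  have hR0 : 0 ≤ R := by rw [hR]; exact le_max_right _ _
  have hfr : ∃ᶠ t in 𝓝[<] T, ‖h.st (U t)‖ ≤ R := by
    intro h1
    apply hR'
    filter_upwards [h1] with t ht
    push Not at ht
    have h2 : R' ≤ R := by rw [hR]; exact le_max_left _ _
    exact not_lt.2 (h2.trans ht.le)
  obtain ⟨K, hK⟩ : ∃ K, K = 2 * (2 * R + 2) + 12 * (2 * R + 2) ^ 2 := ⟨_, rfl⟩
  have hK0 : 0 < K := by rw [hK]; positivity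
  obtain ⟨η, hη⟩ : ∃ η, η = min T ((R + 1) / K) := ⟨_, rfl⟩
  have hη0 : 0 < η := by
    rw [hη]
    exact lt_min H.hT (by positivity)
  have hev : ∀ᶠ t in 𝓝[<] T, t ∈ Ioo (T - η) T := Ioo_mem_nhdsLT (by linarith)
  obtain ⟨t₀, ht₀R, ht₀⟩ := (hfr.and_eventually hev).exists
  have ht₀0 : 0 ≤ t₀ := by
    have : η ≤ T := by rw [hη]; exact min_le_left _ _
    linarith [ht₀.1]
  have hbd : ∀ s ∈ Ico t₀ T, ‖h.st (U s)‖ ≤ 2 * R + 1 := by
    intro s hs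
    refine H.grow2 (t := s) ht₀0 hs.1 hs.2 hR0 ht₀R ?_ s ⟨hs.1, le_rfl⟩
    rw [← hK]
    have h1 : s - t₀ ≤ (R + 1) / K := by
      have : η ≤ (R + 1) / K := by rw [hη]; exact min_le_right _ _
      linarith [ht₀.1, hs.2]
    calc K * (s - t₀) ≤ K * ((R + 1) / K) := by gcongr
      _ = R + 1 := by field_simp
  obtain ⟨c, hc⟩ : ∃ c, c = 2 * R + 1 := ⟨_, rfl⟩
  have hc0 : 0 ≤ c := by rw [hc]; positivity
  rw [← hc] at hbd
  obtain ⟨L, hL⟩ : ∃ L, L = ‖U t₀‖ + 6 * c * T := ⟨_, rfl⟩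
  have hL0 : 0 ≤ L := by
    have := H.hT
    rw [hL]
    positivity
  have hmv : ∀ s ∈ Ico t₀ T, ∀ (g g' : ℝ → ℝ) (K : ℝ), 0 ≤ K →
      (∀ r ∈ Icc t₀ s, HasDerivAt g (g' r) r) →
      (∀ r ∈ Ico t₀ s, |g' r| ≤ K) → |g s| ≤ |g t₀| + K * T := by
    intro s hs g g' K hK hg hK'
    have h1 := norm_image_sub_le_of_norm_deriv_le_segment' (f := g) (f' := g') (C := K)
      (fun r hr => (hg r hr).hasDerivWithinAt) hK' s ⟨hs.1, le_rfl⟩
    rw [Real.norm_eq_abs] at h1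
    have h2 := abs_sub_abs_le_abs_sub (g s) (g t₀)
    have h3 : K * (s - t₀) ≤ K * T := by
      have : s - t₀ ≤ T := by linarith [hs.2]
      gcongr
    linarith
  have hI : ∀ s ∈ Ico t₀ T, ∀ r ∈ Icc t₀ s, r ∈ Ioo (-δ) T := fun s hs r hr =>
    ⟨by linarith [H.hδ, hr.1], hr.2.trans_lt hs.2⟩
  have hI' : ∀ r ∈ Ico t₀ T, r ∈ Ico 0 T := fun r hr => ⟨ht₀0.trans hr.1, hr.2⟩
  have hW : ∀ r ∈ Ico t₀ T, ∀ a, |(U r).2.2 a| ≤ c := fun r hr a => (st3 h (U r) a).trans (hbd r hr)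
  have hlam : ∀ s ∈ Ico t₀ T, ∀ a, |(U s).1 a| ≤ L := by
    intro s hs a
    have h1 := hmv s hs (fun r => (U r).1 a) _ (6 * c) (by positivity)
      (fun r hr => H.d1 (hI s hs r hr) a) (fun r hr => by
        have hr' : r ∈ Ico t₀ T := ⟨hr.1, hr.2.trans hs.2⟩
        have h2 := (H.good (hI' r hr')).DD_bd (hW r hr') a
        unfold F1
        rw [abs_mul, abs_of_pos (by norm_num : (0 : ℝ) < 2)]
        linarith)
    have h2 := le1 (U t₀) a
    rw [hL]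
    linarith
  have hmu : ∀ s ∈ Ico t₀ T, ∀ a, |(U s).2.1 a| ≤ ‖U t₀‖ + 18 * c * Real.exp L * T := by
    intro s hs a
    have h1 := hmv s hs (fun r => (U r).2.1 a) _ (18 * c * Real.exp L) (by positivity)
      (fun r hr => H.d2 (hI s hs r hr) a) (fun r hr => by
        have hr' : r ∈ Ico t₀ T := ⟨hr.1, hr.2.trans hs.2⟩
        have h2 := (H.good (hI' r hr')).EE_bd (hW r hr') a
        have h3 := hW r hr' a
        have h4 : Real.exp ((U r).1 a) ≤ Real.exp L :=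
          Real.exp_le_exp.2 ((le_abs_self _).trans (hlam r hr' a))
        have h5 : |(U r).2.2 a + 4 * EE (U r) a| ≤ 9 * c := by
          have h6 := abs_add_le ((U r).2.2 a) (4 * EE (U r) a)
          rw [abs_mul, abs_of_pos (by norm_num : (0 : ℝ) < 4)] at h6
          linarith
        unfold F2
        rw [abs_mul, abs_mul, Real.abs_exp, abs_neg, abs_of_pos (by norm_num : (0 : ℝ) < 2)]
        have h7 := mul_le_mul h5 h4 (Real.exp_pos _).le (by positivity)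
        linarith)
    have h2 := le2 (U t₀) a
    linarith
  have hfin : ∀ s ∈ Ico t₀ T, ‖U s‖ ≤ max L (max (‖U t₀‖ + 18 * c * Real.exp L * T) c) := by
    intro s hs
    refine es_norm_le (le_max_of_le_left hL0) (fun a => ?_) (fun a => ?_) fun a => ?_
    · exact (hlam s hs a).trans (le_max_left _ _)
    · exact (hmu s hs a).trans ((le_max_left _ _).trans (le_max_right _ _))
    · exact (hW s hs a).trans ((le_max_right _ _).trans (le_max_right _ _))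
  have hev2 := hU.eventually (eventually_gt_atTop
    (max L (max (‖U t₀‖ + 18 * c * Real.exp L * T) c)))
  have hev3 : ∀ᶠ t in 𝓝[<] T, t ∈ Ioo t₀ T := Ioo_mem_nhdsLT ht₀.2
  obtain ⟨s, hs1, hs2⟩ := (hev2.and hev3).exists
  exact absurd (hfin s ⟨hs2.1.le, hs2.2⟩) (not_le.2 hs1)

end LSol

end Pool.Agent.TH305.BQ
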