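import Pool.Agent.TH305.BQ.Field

/-!
The scale-invariant Boussinesq system (helper305): initial data.
-/

set_option autoImplicit false

open MeasureTheory Set Filter Topology
open scoped ContDiff

namespace Pool.Agent.TH305.BQ

/-- A cut-off function. -/
noncomputable def cut (a : ℝ) : ℝ := Real.smoothTransition (6 * (1 / 4 - a ^ 2))

lemma cut_smooth : ContDiff ℝ ∞ cut :=
  Real.smoothTransition.contDiff.comp (contDiff_const.mul (contDiff_const.sub (contDiff_id.pow 2)))

lemma cut_even (a : ℝ) : cut (-a) = cut a := by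
  unfold cut
  rw [neg_sq]

lemma cut_nn (a : ℝ) : 0 ≤ cut a := Real.smoothTransition.nonneg _

lemma cut_one {a : ℝ} (ha : a ^ 2 ≤ 1 / 12) : cut a = 1 :=
  Real.smoothTransition.one_of_one_le (by linarith)

lemma cut_zero {a : ℝ} (ha : 1 / 2 ≤ |a|) : cut a = 0 := by
  have h1 : (1 / 2 : ℝ) ^ 2 ≤ |a| ^ 2 := pow_le_pow_left₀ (by norm_num) ha 2
  rw [sq_abs] at h1
  exact Real.smoothTransition.zero_of_nonpos (by linarith)

lemma cut_anti : AntitoneOn cut (Ici 0) := by
  intro a ha b _ hab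
  unfold cut
  apply Real.smoothTransition.monotone
  have h1 : a ^ 2 ≤ b ^ 2 := pow_le_pow_left₀ ha hab 2
  linarith

lemma cut_deriv {a : ℝ} (ha : 0 ≤ a) : deriv cut a ≤ 0 := by
  rcases ha.eq_or_lt with h0 | h0
  · have h1 : cut =ᶠ[𝓝 a] fun _ => 1 := by
      have h2 : Tendsto (fun b : ℝ => b ^ 2) (𝓝 a) (𝓝 (a ^ 2)) :=
        (Continuous.tendsto (by fun_prop) a)
      filter_upwards [h2.eventually (gt_mem_nhds (show a ^ 2 < 1 / 12 by rw [← h0]; norm_num))]
        with b hb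
      exact cut_one hb.le
    rw [h1.deriv_eq]
    simp
  · have hd := (cut_smooth.differentiable (by simp) a)
    have h1 : derivWithin cut (Ici 0) a = deriv cut a :=
      hd.derivWithin ((uniqueDiffOn_Ici 0) a ha)
    rw [← h1]
    exact cut_anti.derivWithin_nonpos

/-- The density factor. -/
noncomputable def q₀ (a : ℝ) : ℝ := cut a * Real.cos (2 * a) ^ 2

/-- The vorticity. -/
noncomputable def w₀ (a : ℝ) : ℝ := cut a * Real.sin (4 * a)

lemma q₀_hd (a : ℝ) : HasDerivAt q₀ (deriv cut a * Real.cos (2 * a) ^ 2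
    + cut a * (2 * Real.cos (2 * a) * (-Real.sin (2 * a) * 2))) a := by
  have h1 : HasDerivAt cut (deriv cut a) a := (cut_smooth.differentiable (by simp) a).hasDerivAt
  have h2 : HasDerivAt (fun a : ℝ => 2 * a) 2 a := by simpa using (hasDerivAt_id a).const_mul 2
  have h3 := h1.mul (h2.cos.fun_pow 2)
  refine h3.congr_deriv ?_
  push_cast
  ring

lemma near {a : ℝ} (ha : a ∈ Icc (0 : ℝ) (1 / 4)) : ∀ᶠ b in 𝓝 a, b ^ 2 < 1 / 12 := by
  have h2 : Tendsto (fun b : ℝ => b ^ 2) (𝓝 a) (𝓝 (a ^ 2)) :=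
    (Continuous.tendsto (by fun_prop) a)
  refine h2.eventually (gt_mem_nhds ?_)
  have h3 : a ^ 2 ≤ (1 / 4) ^ 2 := pow_le_pow_left₀ ha.1 ha.2 2
  linarith

lemma cos_pos_small {x : ℝ} (h0 : 0 ≤ x) (h1 : x ≤ 1) : 1 / 2 ≤ Real.cos x := by
  have h2 := Real.one_sub_sq_div_two_le_cos (x := x)
  have h3 : x ^ 2 ≤ 1 := pow_le_one₀ h0 h1
  linarith

lemma w₀_deriv {a : ℝ} (ha : a ∈ Icc (0 : ℝ) (1 / 4)) : deriv w₀ a = 4 * Real.cos (4 * a) := by
  have h1 : w₀ =ᶠ[𝓝 a] fun b => Real.sin (4 * b) := by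
    filter_upwards [near ha] with b hb
    unfold w₀
    rw [cut_one hb.le, one_mul]
  rw [h1.deriv_eq]
  have h2 : HasDerivAt (fun a : ℝ => 4 * a) 4 a := by simpa using (hasDerivAt_id a).const_mul 4
  rw [h2.sin.deriv]
  ring

lemma q₀_deriv2 {a : ℝ} (ha : a ∈ Icc (0 : ℝ) (1 / 4)) :
    deriv (deriv q₀) a = -8 * Real.cos (4 * a) := by
  have h1 : q₀ =ᶠ[𝓝 a] fun b => Real.cos (2 * b) ^ 2 := by
    filter_upwards [near ha] with b hb
    unfold q₀
    rw [cut_one hb.le, one_mul]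
  have h3 : deriv q₀ =ᶠ[𝓝 a] fun b => -2 * Real.sin (4 * b) := by
    refine h1.deriv.trans (Eventually.of_forall fun b => ?_)
    have h2 : HasDerivAt (fun a : ℝ => 2 * a) 2 b := by simpa using (hasDerivAt_id b).const_mul 2
    show deriv (fun b => Real.cos (2 * b) ^ 2) b = -2 * Real.sin (4 * b)
    rw [(h2.cos.fun_pow 2).deriv, show 4 * b = 2 * (2 * b) by ring, Real.sin_two_mul (2 * b)]
    push_cast
    ring
  rw [h3.deriv_eq]
  have h2 : HasDerivAt (fun a : ℝ => 4 * a) 4 a := by simpa using (hasDerivAt_id a).const_mul 4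
  rw [(h2.sin.const_mul (-2)).deriv]
  ring

theorem dat : Dat q₀ w₀ where
  sq := by
    unfold q₀
    exact cut_smooth.mul ((Real.contDiff_cos.comp (contDiff_const.mul contDiff_id)).pow 2)
  sw := by
    unfold w₀
    exact cut_smooth.mul (Real.contDiff_sin.comp (contDiff_const.mul contDiff_id))
  eq a := by
    unfold q₀
    rw [cut_even, mul_neg 2 a, Real.cos_neg]
  ow a := by
    unfold w₀
    rw [cut_even, mul_neg 4 a, Real.sin_neg]
    ring
  zq a ha := by
    unfold q₀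
    rw [cut_zero ha, zero_mul]
  zw a ha := by
    unfold w₀
    rw [cut_zero ha, zero_mul]
  qn a := mul_nonneg (cut_nn a) (sq_nonneg _)
  wn a ha := mul_nonneg (cut_nn a) (Real.sin_nonneg_of_nonneg_of_le_pi (by linarith [ha.1])
    (by linarith [ha.2]))
  fn a ha := by
    rw [(q₀_hd a).deriv]
    unfold q₀
    have h1 := cut_deriv ha.1
    have h2 := cut_nn a
    have hs : 0 ≤ Real.sin a := Real.sin_nonneg_of_nonneg_of_le_pi ha.1
      (by linarith [ha.2, Real.pi_pos])
    have hc : 0 ≤ Real.cos a := Real.cos_nonneg_of_neg_pi_div_two_le_of_le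
      (by linarith [ha.1, Real.pi_pos]) (by linarith [ha.2, Real.pi_pos])
    have hc2 : 0 ≤ Real.cos (2 * a) := Real.cos_nonneg_of_neg_pi_div_two_le_of_le
      (by linarith [ha.1, Real.pi_pos]) (by linarith [ha.2, Real.pi_pos])
    have h3 : 0 ≤ -deriv cut a * Real.cos (2 * a) ^ 2 * Real.cos a :=
      mul_nonneg (mul_nonneg (by linarith) (sq_nonneg _)) hc
    have h4 : 0 ≤ cut a * Real.cos (2 * a) * Real.sin a * (1 + 6 * Real.cos a ^ 2) := by
      have : 0 ≤ 1 + 6 * Real.cos a ^ 2 := by positivity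
      positivity
    have e : -(cut a * Real.cos (2 * a) ^ 2 * Real.sin a + (deriv cut a * Real.cos (2 * a) ^ 2
        + cut a * (2 * Real.cos (2 * a) * (-Real.sin (2 * a) * 2))) * Real.cos a)
        = -deriv cut a * Real.cos (2 * a) ^ 2 * Real.cos a
          + cut a * Real.cos (2 * a) * Real.sin a * (1 + 6 * Real.cos a ^ 2) := by
      rw [Real.sin_two_mul]
      have e2 := Real.cos_two_mul a
      have e3 : cut a * Real.cos (2 * a) ^ 2 * Real.sin a
          = cut a * Real.cos (2 * a) * (2 * Real.cos a ^ 2 - 1) * Real.sin a := by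
        rw [← e2]
        ring
      rw [e3]
      ring
    rw [e]
    linarith
  qp a ha := by
    unfold q₀
    have h3 : a ^ 2 ≤ (1 / 4) ^ 2 := pow_le_pow_left₀ ha.1 ha.2 2
    rw [cut_one (by linarith), one_mul]
    have := cos_pos_small (x := 2 * a) (by linarith [ha.1]) (by linarith [ha.2])
    positivity
  wp a ha := by
    rw [w₀_deriv ha]
    have := cos_pos_small (x := 4 * a) (by linarith [ha.1]) (by linarith [ha.2])
    linarith
  np a ha := by
    rw [q₀_deriv2 ha]
    unfold q₀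
    have h3 : a ^ 2 ≤ (1 / 4) ^ 2 := pow_le_pow_left₀ ha.1 ha.2 2
    rw [cut_one (by linarith), one_mul]
    have h1 := cos_pos_small (x := 4 * a) (by linarith [ha.1]) (by linarith [ha.2])
    have h2 : Real.cos (2 * a) ^ 2 ≤ 1 := Real.cos_sq_le_one _
    linarith

end Pool.Agent.TH305.BQ
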