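import Pool.Agent.TH305.BQ.Inv
import Pool.Agent.TH305.BQ.Data
import Pool.Agent.TH126.ODE.MaxSol

/-!
The scale-invariant Boussinesq system (helper305): the solution in the original variables.
-/

set_option autoImplicit false

open MeasureTheory Set Filter Topology
open scoped ContDiff BoundedContinuousFunction

namespace Pool.Agent.TH305.BQ

variable {q w : ℝ → ℝ} {h : Dat q w} {δ T : ℝ} {U : ℝ → ES}

/-- The vorticity. -/
noncomputable def om (U : ℝ → ES) (θ t : ℝ) : ℝ := -(U t).2.2 (al U (θ, t))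

/-- The angular density. -/
noncomputable def Rh (q : ℝ → ℝ) (U : ℝ → ES) (θ t : ℝ) : ℝ := -QQ q (U t) (al U (θ, t))

/-- The angular stream function. -/
noncomputable def Ps (U : ℝ → ES) (θ t : ℝ) : ℝ := EE (U t) (al U (θ, t))

lemma exp_mul_exp_neg (x : ℝ) : Real.exp x * Real.exp (-x) = 1 := by
  rw [← Real.exp_add]
  simp

namespace LSol

lemma X_mpi (H : LSol h δ T U) {t : ℝ} (ht : t ∈ Ico 0 T) :
    XX (U t) (-(Real.pi / 4)) = -(Real.pi / 4) := by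
  rw [(H.good ht).XX_odd, (H.good ht).piv]

lemma mem_PS (H : LSol h δ T U) {t θ : ℝ} (ht : t ∈ Ico 0 T)
    (hθ : θ ∈ Icc (-(Real.pi / 4)) (Real.pi / 4)) : (θ, t) ∈ PS U δ T := by
  have hs := Good.XX_strict (U t)
  have h1 := hs (a := -1) (b := -(Real.pi / 4)) ⟨le_rfl, by norm_num⟩
    ⟨mpi4_mem.1.le, mpi4_mem.2.le⟩ mpi4_mem.1
  have h2 := hs (a := Real.pi / 4) (b := 1) ⟨pi4_mem.1.le, pi4_mem.2.le⟩ ⟨by norm_num, le_rfl⟩
    pi4_mem.2
  rw [H.X_mpi ht] at h1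
  rw [(H.good ht).piv] at h2
  exact ⟨H.mem_of_ico ht, h1.trans_le hθ.1, hθ.2.trans_lt h2⟩

lemma al_pi (H : LSol h δ T U) {t : ℝ} (ht : t ∈ Ico 0 T) :
    al U (Real.pi / 4, t) = Real.pi / 4 := al_unique pi4_mem (H.good ht).piv

lemma al_mpi (H : LSol h δ T U) {t : ℝ} (ht : t ∈ Ico 0 T) :
    al U (-(Real.pi / 4), t) = -(Real.pi / 4) := al_unique mpi4_mem (H.X_mpi ht)

lemma al_odd (H : LSol h δ T U) {t θ : ℝ} (ht : t ∈ Ico 0 T)
    (hθ : θ ∈ Icc (-(Real.pi / 4)) (Real.pi / 4)) : al U (-θ, t) = -al U (θ, t) := by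
  obtain ⟨ha, hX⟩ := al_mem (H.mem_PS ht hθ)
  refine al_unique ⟨by linarith [ha.2], by linarith [ha.1]⟩ ?_
  rw [(H.good ht).XX_odd]
  exact congrArg Neg.neg hX

lemma EE_odd (H : LSol h δ T U) {t : ℝ} (ht : t ∈ Ico 0 T) (a : ℝ) :
    EE (U t) (-a) = -EE (U t) a := by
  have := EE_rf (U t) a
  rw [(H.good ht).sym] at this
  linarith

lemma EE_pi (H : LSol h δ T U) {t : ℝ} (ht : t ∈ Ico 0 T) : EE (U t) (Real.pi / 4) = 0 := by
  unfold EE
  rw [(H.good ht).BB_pi, (H.good ht).piv, show 2 * (Real.pi / 4) = Real.pi / 2 by ring,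
    Real.cos_pi_div_two]
  ring

lemma Ps_th (H : LSol h δ T U) {z : ℝ × ℝ} (hz : z ∈ PS U δ T) :
    HasDerivAt (fun φ => Ps U φ z.2) (DD (U z.2) (al U z)) z.1 := by
  refine (H.comp_th hz (EE_hd (U z.2) (al_mem hz).1)).congr_deriv ?_
  have := exp_mul_exp_neg ((U z.2).1 (al U z))
  linear_combination DD (U z.2) (al U z) * this

lemma Rh_th (H : LSol h δ T U) {z : ℝ × ℝ} (hz : z ∈ PS U δ T) :
    HasDerivAt (fun φ => Rh q U φ z.2) (-PP q (U z.2) (al U z)) z.1 := by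
  refine (H.comp_th hz (H.Q_a (al_mem hz).1 hz.1)).fun_neg.congr_deriv ?_
  have := exp_mul_exp_neg ((U z.2).1 (al U z))
  linear_combination -PP q (U z.2) (al U z) * this

lemma om_th (H : LSol h δ T U) {z : ℝ × ℝ} (hz : z ∈ PS U δ T) :
    HasDerivAt (fun φ => om U φ z.2)
      (-(deriv (U z.2).2.2 (al U z) * Real.exp (-(U z.2).1 (al U z)))) z.1 :=
  (H.comp_th hz (H.W_a (al_mem hz).1 hz.1)).fun_neg

lemma om_tm (H : LSol h δ T U) {z : ℝ × ℝ} (hz : z ∈ PS U δ T) :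
    HasDerivAt (fun s => om U z.1 s) (-(F3 q (U z.2) (al U z) - 2 * EE (U z.2) (al U z)
      * (deriv (U z.2).2.2 (al U z) * Real.exp (-(U z.2).1 (al U z))))) z.2 :=
  (H.comp_tm hz (f := fun z : ℝ × ℝ => (U z.2).2.2 z.1) H.smW' (H.W_a (al_mem hz).1 hz.1)
    (H.d3 hz.1 (al U z))).fun_neg

lemma Rh_tm (H : LSol h δ T U) {z : ℝ × ℝ} (hz : z ∈ PS U δ T) :
    HasDerivAt (fun s => Rh q U z.1 s) (-(DD (U z.2) (al U z) * QQ q (U z.2) (al U z)
      - 2 * EE (U z.2) (al U z) * PP q (U z.2) (al U z))) z.2 := by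
  refine (H.comp_tm hz (f := fun z : ℝ × ℝ => QQ q (U z.2) z.1) H.smQ'
    (H.Q_a (al_mem hz).1 hz.1) (H.dQ hz.1 (al U z))).fun_neg.congr_deriv ?_
  have := exp_mul_exp_neg ((U z.2).1 (al U z))
  linear_combination 2 * EE (U z.2) (al U z) * PP q (U z.2) (al U z) * this

/-- The solution in the original variables. -/
theorem eul (H : LSol h δ T U) (hU : Tendsto (fun t => ‖U t‖) (𝓝[<] T) atTop) :
    ∃ (T : ℝ) (ζ R Ψ : ℝ → ℝ → ℝ), 0 < T ∧
      ContDiffOn ℝ ((⊤ : ℕ∞) : WithTop ℕ∞) (fun p : ℝ × ℝ => ζ p.1 p.2)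
        (Set.Icc (-(Real.pi / 4)) (Real.pi / 4) ×ˢ Set.Ico 0 T) ∧
      ContDiffOn ℝ ((⊤ : ℕ∞) : WithTop ℕ∞) (fun p : ℝ × ℝ => R p.1 p.2)
        (Set.Icc (-(Real.pi / 4)) (Real.pi / 4) ×ˢ Set.Ico 0 T) ∧
      (∀ t ∈ Set.Ico 0 T,
        ContDiffOn ℝ 2 (fun θ => Ψ θ t) (Set.Icc (-(Real.pi / 4)) (Real.pi / 4)) ∧
        Ψ (-(Real.pi / 4)) t = 0 ∧ Ψ (Real.pi / 4) t = 0 ∧
        (∫ θ in (-(Real.pi / 4))..(Real.pi / 4), Ψ θ t * Real.cos (2 * θ)) = 0 ∧
        (∀ θ ∈ Set.Ioo (-(Real.pi / 4)) (Real.pi / 4),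
          deriv (deriv (fun φ => Ψ φ t)) θ + 4 * Ψ θ t = ζ θ t)) ∧
      (∀ t ∈ Set.Ioo 0 T, ∀ θ ∈ Set.Ioo (-(Real.pi / 4)) (Real.pi / 4),
        deriv (fun s => ζ θ s) t + 2 * Ψ θ t * deriv (fun φ => ζ φ t) θ
            + (R θ t * Real.sin θ + deriv (fun φ => R φ t) θ * Real.cos θ) = 0 ∧
        deriv (fun s => R θ s) t + 2 * Ψ θ t * deriv (fun φ => R φ t) θ
            - deriv (fun φ => Ψ φ t) θ * R θ t = 0) ∧
      (∀ t ∈ Set.Ico 0 T,
        ζ (-(Real.pi / 4)) t = 0 ∧ ζ (Real.pi / 4) t = 0 ∧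
        R (-(Real.pi / 4)) t = 0 ∧ R (Real.pi / 4) t = 0 ∧
        derivWithin (fun φ => R φ t) (Set.Icc (-(Real.pi / 4)) (Real.pi / 4)) (-(Real.pi / 4)) = 0 ∧
        derivWithin (fun φ => R φ t) (Set.Icc (-(Real.pi / 4)) (Real.pi / 4)) (Real.pi / 4) = 0) ∧
      (∀ M : ℝ, ∃ t₀ ∈ Set.Ico 0 T, ∀ t ∈ Set.Ioo t₀ T,
        ∃ θ ∈ Set.Ioo (-(Real.pi / 4)) (Real.pi / 4),
          M < |ζ θ t| + Real.sqrt (R θ t ^ 2 + (deriv (fun φ => R φ t) θ) ^ 2)) := by
  have hpi := pi4_lo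
  have hsub : (Icc (-(Real.pi / 4)) (Real.pi / 4) ×ˢ Ico 0 T : Set (ℝ × ℝ)) ⊆ PS U δ T :=
    fun z hz => H.mem_PS hz.2 hz.1
  have hpm : Real.pi / 4 ∈ Icc (-(Real.pi / 4)) (Real.pi / 4) := ⟨by linarith, le_rfl⟩
  have hmm : -(Real.pi / 4) ∈ Icc (-(Real.pi / 4)) (Real.pi / 4) := ⟨le_rfl, by linarith⟩
  have hab : |Real.pi / 4| = Real.pi / 4 := abs_of_pos (by linarith)
  have hab' : |-(Real.pi / 4)| = Real.pi / 4 := by rw [abs_neg, hab]
  refine ⟨T, om U, Rh q U, Ps U, H.hT, ?_, ?_, ?_, ?_, ?_, ?_⟩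
  · exact ((H.comp_sm H.smW').neg).mono hsub
  · exact ((H.comp_sm H.smQ').neg).mono hsub
  · intro t ht
    refine ⟨?_, ?_, ?_, ?_, ?_⟩
    · have h1 : ContDiffOn ℝ ∞ (fun z : ℝ × ℝ => EE (U z.2) (al U z)) (PS U δ T) :=
        H.comp_sm H.smE
      have h2 : ContDiffOn ℝ ∞ (fun θ : ℝ => Ps U θ t) (Icc (-(Real.pi / 4)) (Real.pi / 4)) :=
        h1.comp (f := fun θ : ℝ => (θ, t)) (contDiff_id.prodMk contDiff_const).contDiffOn
          fun θ hθ => H.mem_PS ht hθ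
      exact_mod_cast contDiffOn_infty.1 h2 2
    · unfold Ps
      rw [H.al_mpi ht, H.EE_odd ht, H.EE_pi ht, neg_zero]
    · unfold Ps
      rw [H.al_pi ht, H.EE_pi ht]
    · have h1 : ∫ θ in (-(Real.pi / 4))..(Real.pi / 4), Ps U (-θ) t * Real.cos (2 * (-θ))
          = ∫ θ in (-(Real.pi / 4))..(Real.pi / 4), Ps U θ t * Real.cos (2 * θ) := by
        have := intervalIntegral.integral_comp_neg (a := -(Real.pi / 4)) (b := Real.pi / 4)
          (fun θ => Ps U θ t * Real.cos (2 * θ))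
        rw [neg_neg] at this
        exact this
      have h2 : ∫ θ in (-(Real.pi / 4))..(Real.pi / 4), Ps U (-θ) t * Real.cos (2 * (-θ))
          = -∫ θ in (-(Real.pi / 4))..(Real.pi / 4), Ps U θ t * Real.cos (2 * θ) := by
        rw [← intervalIntegral.integral_neg]
        refine intervalIntegral.integral_congr fun θ hθ => ?_
        rw [uIcc_of_le (by linarith)] at hθ
        have e : Ps U (-θ) t = -Ps U θ t := by
          unfold Ps
          rw [H.al_odd ht hθ, H.EE_odd ht]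
        rw [e, mul_neg 2 θ, Real.cos_neg]
        ring
      linarith
    · intro θ hθ
      have hz : (θ, t) ∈ PS U δ T := H.mem_PS ht ⟨hθ.1.le, hθ.2.le⟩
      have h1 : deriv (fun φ => Ps U φ t) =ᶠ[𝓝 θ] fun φ => DD (U t) (al U (φ, t)) := by
        filter_upwards [H.ev1 hz] with φ hφ
        exact (H.Ps_th hφ).deriv
      have h2 := H.comp_th hz (DD_hd (U t) (al_mem hz).1)
      rw [h1.deriv_eq, h2.deriv]
      have := exp_mul_exp_neg ((U t).1 (al U (θ, t)))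
      unfold Ps om
      simp only
      linear_combination (-((U t).2.2 (al U (θ, t)) + 4 * EE (U t) (al U (θ, t)))) * this
  · intro t ht θ hθ
    have ht' : t ∈ Ico 0 T := ⟨ht.1.le, ht.2⟩
    have hz : (θ, t) ∈ PS U δ T := H.mem_PS ht' ⟨hθ.1.le, hθ.2.le⟩
    have e1 := (H.om_tm hz).deriv
    have e2 := (H.om_th hz).deriv
    have e3 := (H.Rh_th hz).deriv
    have e4 := (H.Rh_tm hz).deriv
    have e5 := (H.Ps_th hz).deriv
    have e6 : XX (U t) (al U (θ, t)) = θ := (al_mem hz).2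
    simp only at e1 e2 e3 e4 e5
    rw [e1, e2, e3, e4, e5]
    constructor
    · unfold F3 Rh Ps
      rw [e6]
      ring
    · unfold Rh Ps
      ring
  · intro t ht
    have hW : ∀ a, 1 / 2 < |a| → (U t).2.2 a = 0 := (H.good ht).supp
    have hQ : ∀ a, 1 / 2 < |a| → QQ q (U t) a = 0 := fun a ha => by
      unfold QQ
      rw [h.zq a ha.le, zero_mul]
    have hP : ∀ a, 1 / 2 < |a| → PP q (U t) a = 0 := fun a ha => by
      unfold PP
      rw [h.zq a ha.le, h.zq' a ha]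
      simp
    have hu := uniqueDiffOn_Icc (show -(Real.pi / 4) < Real.pi / 4 by linarith)
    refine ⟨?_, ?_, ?_, ?_, ?_, ?_⟩
    · unfold om
      rw [H.al_mpi ht, hW _ (by rw [hab']; linarith), neg_zero]
    · unfold om
      rw [H.al_pi ht, hW _ (by rw [hab]; linarith), neg_zero]
    · unfold Rh
      rw [H.al_mpi ht, hQ _ (by rw [hab']; linarith), neg_zero]
    · unfold Rh
      rw [H.al_pi ht, hQ _ (by rw [hab]; linarith), neg_zero]
    · have h1 := (H.Rh_th (H.mem_PS ht hmm)).hasDerivWithinAt.derivWithin (hu _ hmm)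
      simp only at h1
      rw [h1, H.al_mpi ht, hP _ (by rw [hab']; linarith), neg_zero]
    · have h1 := (H.Rh_th (H.mem_PS ht hpm)).hasDerivWithinAt.derivWithin (hu _ hpm)
      simp only at h1
      rw [h1, H.al_pi ht, hP _ (by rw [hab]; linarith), neg_zero]
  · intro M
    have hb := H.blow_st hU
    have h1 : ∀ᶠ t in 𝓝[<] T, max M 0 < ‖h.st (U t)‖ := hb.eventually (eventually_gt_atTop _)
    obtain ⟨t₁, ht₁, hsub1⟩ := (mem_nhdsLT_iff_exists_Ioo_subset).1 h1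
    refine ⟨max 0 t₁, ⟨le_max_left _ _, max_lt H.hT ht₁⟩, fun t ht => ?_⟩
    have ht0 : t ∈ Ico 0 T := ⟨(le_max_left _ _).trans ht.1.le, ht.2⟩
    have h2 : max M 0 < ‖h.st (U t)‖ := hsub1 ⟨(le_max_right _ _).trans_lt ht.1, ht.2⟩
    -- a label with a large value
    have h3 : ∃ a, M < |(U t).2.2 a| ∧ |a| ≤ 1 / 2 ∨ M < |QQ q (U t) a| ∧ |a| ≤ 1 / 2
        ∨ M < |PP q (U t) a| ∧ |a| ≤ 1 / 2 := by
      by_contra hcon
      push Not at hcon
      refine absurd (st_le (le_max_right M 0) (fun a => ?_) (fun a => ?_) fun a => ?_)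
        (not_le.2 h2)
      · by_contra h4
        push Not at h4
        rcases le_or_gt |a| (1 / 2) with h5 | h5
        · exact absurd ((hcon a).2.1 ((le_max_left _ _).trans_lt h4)) (not_lt.2 h5)
        · have h6 : QQ q (U t) a = 0 := by
            unfold QQ
            rw [h.zq a h5.le, zero_mul]
          rw [h6, abs_zero] at h4
          exact absurd (le_max_right M 0) (not_le.2 h4)
      · by_contra h4
        push Not at h4
        rcases le_or_gt |a| (1 / 2) with h5 | h5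
        · exact absurd ((hcon a).2.2 ((le_max_left _ _).trans_lt h4)) (not_lt.2 h5)
        · have h6 : PP q (U t) a = 0 := by
            unfold PP
            rw [h.zq a h5.le, h.zq' a h5]
            simp
          rw [h6, abs_zero] at h4
          exact absurd (le_max_right M 0) (not_le.2 h4)
      · by_contra h4
        push Not at h4
        rcases le_or_gt |a| (1 / 2) with h5 | h5
        · exact absurd ((hcon a).1 ((le_max_left _ _).trans_lt h4)) (not_lt.2 h5)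
        · rw [(H.good ht0).supp a h5, abs_zero] at h4
          exact absurd (le_max_right M 0) (not_le.2 h4)
    obtain ⟨a, ha⟩ := h3
    have ha2 : |a| ≤ 1 / 2 := by
      rcases ha with h4 | h4 | h4 <;> exact h4.2
    have ha3 := abs_le.1 ha2
    have haI : a ∈ Ioo (-1 : ℝ) 1 := ⟨by linarith [ha3.1], by linarith [ha3.2]⟩
    have hs := Good.XX_strict (U t)
    have h5 := hs (a := a) (b := Real.pi / 4) ⟨haI.1.le, haI.2.le⟩
      ⟨pi4_mem.1.le, pi4_mem.2.le⟩ (by linarith [ha3.2])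
    have h6 := hs (a := -(Real.pi / 4)) (b := a) ⟨mpi4_mem.1.le, mpi4_mem.2.le⟩
      ⟨haI.1.le, haI.2.le⟩ (by linarith [ha3.1])
    rw [(H.good ht0).piv] at h5
    rw [H.X_mpi ht0] at h6
    refine ⟨XX (U t) a, ⟨h6, h5⟩, ?_⟩
    have hz : (XX (U t) a, t) ∈ PS U δ T := H.mem_PS ht0 ⟨h6.le, h5.le⟩
    have hal : al U (XX (U t) a, t) = a := al_unique haI rfl
    have e3 := (H.Rh_th hz).deriv
    simp only at e3
    rw [e3]
    unfold om Rh
    rw [hal, abs_neg]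
    have k1 : |QQ q (U t) a| ≤ Real.sqrt ((-QQ q (U t) a) ^ 2 + (-PP q (U t) a) ^ 2) := by
      rw [← Real.sqrt_sq_eq_abs]
      apply Real.sqrt_le_sqrt
      nlinarith [sq_nonneg (PP q (U t) a)]
    have k2 : |PP q (U t) a| ≤ Real.sqrt ((-QQ q (U t) a) ^ 2 + (-PP q (U t) a) ^ 2) := by
      rw [← Real.sqrt_sq_eq_abs]
      apply Real.sqrt_le_sqrt
      nlinarith [sq_nonneg (QQ q (U t) a)]
    have k3 := abs_nonneg ((U t).2.2 a)
    have k4 := abs_nonneg (QQ q (U t) a)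
    rcases ha with h4 | h4 | h4
    · linarith [h4.1]
    · linarith [h4.1]
    · linarith [h4.1]

end LSol

/-- A singular solution exists. -/
theorem exists_sol : ∃ (δ T : ℝ) (U : ℝ → ES), LSol dat δ T U ∧
    Tendsto (fun t => ‖U t‖) (𝓝[<] T) atTop := by
  obtain ⟨δ, U, hδ, hini, hcase⟩ := Pool.Agent.TH126.ODE.max_sol dat.field dat.field_lip dat.ini
  rcases hcase with hall | ⟨T, hT, hode, hlim⟩
  · exfalso
    obtain ⟨T₁, hT₁⟩ := T_le dat
    have h1 := hT₁ δ (max T₁ 0 + 1) U ⟨hδ, by positivity, hini, fun t ht => hall t ht.1⟩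
    have h2 := le_max_left T₁ 0
    linarith
  · exact ⟨δ, T, U, ⟨hδ, hT, hini, hode⟩, hlim⟩

end Pool.Agent.TH305.BQ
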