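import Pool.Agent.TH305.BQ.Int

/-!
The scale-invariant Boussinesq system in Lagrangian variables, as an ordinary differential equation
in a space of bounded continuous functions (helper305): the vector field is Lipschitz on balls.
-/

set_option autoImplicit false

open MeasureTheory Set Filter Topology
open scoped ContDiff BoundedContinuousFunction

namespace Pool.Agent.TH305.BQ

/-- The state space: `(λ, μ, W)`. -/
abbrev ES := (ℝ →ᵇ ℝ) × (ℝ →ᵇ ℝ) × (ℝ →ᵇ ℝ)

/-- The labels, cut at `±1`. -/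
noncomputable def cl (a : ℝ) : ℝ := max (-1) (min 1 a)

lemma cl_cont : Continuous cl := by unfold cl; fun_prop

lemma cl_mem (a : ℝ) : cl a ∈ Icc (-1 : ℝ) 1 := by
  unfold cl
  exact ⟨le_max_left _ _, max_le (by norm_num) (min_le_left _ _)⟩

lemma cl_of_mem {a : ℝ} (ha : a ∈ Icc (-1 : ℝ) 1) : cl a = a := by
  unfold cl
  rw [min_eq_right ha.2, max_eq_right ha.1]

/-- Functionals with values in the bounded continuous functions, bounded and Lipschitz on balls. -/
structure PBL (ψ : ES → ℝ → ℝ) : Prop where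
  cont : ∀ U, Continuous (ψ U)
  bl : ∀ R : ℝ, ∃ C : ℝ, 0 ≤ C ∧ ∀ U V : ES, ‖U‖ ≤ R → ‖V‖ ≤ R → ∀ a,
    |ψ U a| ≤ C ∧ |ψ U a - ψ V a| ≤ C * ‖U - V‖

namespace PBL

lemma const {f : ℝ → ℝ} (hf : Continuous f) {C : ℝ} (hC : ∀ a, |f a| ≤ C) :
    PBL (fun _ => f) where
  cont _ := hf
  bl R := by
    have h0 : 0 ≤ C := (abs_nonneg _).trans (hC 0)
    refine ⟨C, h0, fun U V _ _ a => ⟨hC a, ?_⟩⟩
    rw [sub_self, abs_zero]
    positivity

lemma ev {L : ES →L[ℝ] (ℝ →ᵇ ℝ)} (hL : ∀ U, ‖L U‖ ≤ ‖U‖) : PBL (fun U a => L U a) where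
  cont U := (L U).continuous
  bl R := by
    refine ⟨max R 1, le_trans zero_le_one (le_max_right _ _), fun U V hU _ a => ⟨?_, ?_⟩⟩
    · have h1 := (L U).norm_coe_le_norm a
      rw [Real.norm_eq_abs] at h1
      exact h1.trans ((hL U).trans (hU.trans (le_max_left _ _)))
    · have h1 := (L (U - V)).norm_coe_le_norm a
      rw [Real.norm_eq_abs, map_sub] at h1
      have h2 : |L U a - L V a| ≤ ‖U - V‖ := by
        refine (h1.trans ?_)
        rw [← map_sub]
        exact hL _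
      have h3 : 1 * ‖U - V‖ ≤ max R 1 * ‖U - V‖ :=
        mul_le_mul_of_nonneg_right (le_max_right _ _) (norm_nonneg _)
      linarith

lemma fst : PBL (fun U a => U.1 a) :=
  ev (L := ContinuousLinearMap.fst ℝ _ _) fun U => norm_fst_le U

lemma snd : PBL (fun U a => U.2.1 a) :=
  ev (L := (ContinuousLinearMap.fst ℝ _ _).comp (ContinuousLinearMap.snd ℝ _ _))
    fun U => (norm_fst_le U.2).trans (norm_snd_le U)

lemma trd : PBL (fun U a => U.2.2 a) :=
  ev (L := (ContinuousLinearMap.snd ℝ _ _).comp (ContinuousLinearMap.snd ℝ _ _))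
    fun U => (norm_snd_le U.2).trans (norm_snd_le U)

lemma add {ψ φ : ES → ℝ → ℝ} (hψ : PBL ψ) (hφ : PBL φ) : PBL (fun U a => ψ U a + φ U a) where
  cont U := (hψ.cont U).add (hφ.cont U)
  bl R := by
    obtain ⟨C, hC, h1⟩ := hψ.bl R
    obtain ⟨D, hD, h2⟩ := hφ.bl R
    refine ⟨C + D, add_nonneg hC hD, fun U V hU hV a => ⟨?_, ?_⟩⟩
    · exact (abs_add_le _ _).trans (add_le_add (h1 U V hU hV a).1 (h2 U V hU hV a).1)
    · have e : ψ U a + φ U a - (ψ V a + φ V a) = (ψ U a - ψ V a) + (φ U a - φ V a) := by ring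
      rw [e, add_mul]
      exact (abs_add_le _ _).trans (add_le_add (h1 U V hU hV a).2 (h2 U V hU hV a).2)

lemma mul {ψ φ : ES → ℝ → ℝ} (hψ : PBL ψ) (hφ : PBL φ) : PBL (fun U a => ψ U a * φ U a) where
  cont U := (hψ.cont U).mul (hφ.cont U)
  bl R := by
    obtain ⟨C, hC, h1⟩ := hψ.bl R
    obtain ⟨D, hD, h2⟩ := hφ.bl R
    refine ⟨2 * C * D, by positivity, fun U V hU hV a => ⟨?_, ?_⟩⟩
    · rw [abs_mul]
      have h3 := mul_le_mul (h1 U V hU hV a).1 (h2 U V hU hV a).1 (abs_nonneg _) hC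
      have h4 : 0 ≤ C * D := by positivity
      linarith
    · have e : ψ U a * φ U a - ψ V a * φ V a
          = (ψ U a - ψ V a) * φ U a + ψ V a * (φ U a - φ V a) := by ring
      rw [e]
      refine (abs_add_le _ _).trans ?_
      rw [abs_mul, abs_mul]
      have h3 := mul_le_mul (h1 U V hU hV a).2 (h2 U V hU hV a).1 (abs_nonneg _)
        (mul_nonneg hC (norm_nonneg _))
      have h4 := mul_le_mul (h1 V U hV hU a).1 (h2 U V hU hV a).2 (abs_nonneg _) hC
      linarith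

lemma cmul {ψ : ES → ℝ → ℝ} (c : ℝ) (hψ : PBL ψ) : PBL (fun U a => c * ψ U a) :=
  (const (f := fun _ => c) continuous_const (C := |c|) fun _ => le_rfl).mul hψ

lemma neg {ψ : ES → ℝ → ℝ} (hψ : PBL ψ) : PBL (fun U a => -ψ U a) := by
  have := hψ.cmul (-1)
  simpa using this

lemma sub {ψ φ : ES → ℝ → ℝ} (hψ : PBL ψ) (hφ : PBL φ) : PBL (fun U a => ψ U a - φ U a) := by
  have := hψ.add hφ.neg
  simpa [sub_eq_add_neg] using this

lemma comp {φ : ℝ → ℝ} (hφ : ContDiff ℝ 1 φ) {ψ : ES → ℝ → ℝ} (hψ : PBL ψ) :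
    PBL (fun U a => φ (ψ U a)) where
  cont U := hφ.continuous.comp (hψ.cont U)
  bl R := by
    obtain ⟨C, hC, h1⟩ := hψ.bl R
    obtain ⟨K, hK⟩ := isCompact_Icc.exists_bound_of_continuousOn (s := Icc (-C) C)
      hφ.continuous.continuousOn
    obtain ⟨K', hK'⟩ := isCompact_Icc.exists_bound_of_continuousOn (s := Icc (-C) C)
      (hφ.continuous_deriv le_rfl).continuousOn
    have hmem : ∀ U, ‖U‖ ≤ R → ∀ a, ψ U a ∈ Icc (-C) C := fun U hU a =>
      abs_le.1 (h1 U U hU hU a).1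
    have h0 : (0 : ℝ) ∈ Icc (-C) C := ⟨by linarith, hC⟩
    have hK0 : 0 ≤ K := (norm_nonneg _).trans (hK 0 h0)
    have hK0' : 0 ≤ K' := (norm_nonneg _).trans (hK' 0 h0)
    refine ⟨K + K' * C, by positivity, fun U V hU hV a => ⟨?_, ?_⟩⟩
    · have := hK _ (hmem U hU a)
      rw [Real.norm_eq_abs] at this
      have h3 : 0 ≤ K' * C := by positivity
      linarith
    · have h3 := Convex.norm_image_sub_le_of_norm_deriv_le (f := φ) (s := Icc (-C) C) (C := K')
        (fun x _ => (hφ.differentiable (by norm_num)) x) hK' (convex_Icc _ _) (hmem V hV a)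
        (hmem U hU a)
      rw [Real.norm_eq_abs, Real.norm_eq_abs] at h3
      have h4 := (h1 U V hU hV a).2
      have h5 : K' * |ψ U a - ψ V a| ≤ K' * (C * ‖U - V‖) := by gcongr
      have h6 : 0 ≤ K * ‖U - V‖ := by positivity
      linarith

lemma int {ψ : ES → ℝ → ℝ} (hψ : PBL ψ) : PBL (fun U a => ∫ b in (0 : ℝ)..cl a, ψ U b) where
  cont U := by
    have h1 : Continuous fun x => ∫ b in (0 : ℝ)..x, ψ U b :=
      intervalIntegral.continuous_primitive
        (fun p q => (hψ.cont U).intervalIntegrable p q) 0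
    exact h1.comp cl_cont
  bl R := by
    obtain ⟨C, hC, h1⟩ := hψ.bl R
    have hcl : ∀ a, |cl a - 0| ≤ 1 := fun a => by
      rw [sub_zero]
      exact abs_le.2 (cl_mem a)
    refine ⟨C, hC, fun U V hU hV a => ⟨?_, ?_⟩⟩
    · have h2 := intervalIntegral.norm_integral_le_of_norm_le_const (a := 0) (b := cl a)
        (f := ψ U) (C := C) fun x _ => (h1 U V hU hV x).1
      rw [Real.norm_eq_abs] at h2
      have h3 : C * |cl a - 0| ≤ C * 1 := by gcongr; exact hcl a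
      linarith
    · rw [← intervalIntegral.integral_sub ((hψ.cont U).intervalIntegrable _ _)
        ((hψ.cont V).intervalIntegrable _ _)]
      have h2 := intervalIntegral.norm_integral_le_of_norm_le_const (a := 0) (b := cl a)
        (f := fun x => ψ U x - ψ V x) (C := C * ‖U - V‖) fun x _ => (h1 U V hU hV x).2
      rw [Real.norm_eq_abs] at h2
      have h3 : C * ‖U - V‖ * |cl a - 0| ≤ C * ‖U - V‖ * 1 := by
        have := hcl a
        gcongr
      linarith

lemma att {ψ : ES → ℝ → ℝ} (hψ : PBL ψ) (c : ℝ) : PBL (fun U _ => ψ U c) where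
  cont U := continuous_const
  bl R := by
    obtain ⟨C, hC, h1⟩ := hψ.bl R
    exact ⟨C, hC, fun U V hU hV _ => h1 U V hU hV c⟩

/-- The bounded continuous function. -/
noncomputable def toB {ψ : ES → ℝ → ℝ} (h : PBL ψ) (U : ES) : ℝ →ᵇ ℝ :=
  BoundedContinuousFunction.ofNormedAddCommGroup (ψ U) (h.cont U)
    (Classical.choose (h.bl ‖U‖)) fun a =>
    ((Classical.choose_spec (h.bl ‖U‖)).2 U U le_rfl le_rfl a).1

lemma toB_apply {ψ : ES → ℝ → ℝ} (h : PBL ψ) (U : ES) (a : ℝ) : h.toB U a = ψ U a := rfl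

lemma toB_lip {ψ : ES → ℝ → ℝ} (h : PBL ψ) (R : ℝ) :
    ∃ C : NNReal, LipschitzOnWith C h.toB (Metric.closedBall 0 R) := by
  obtain ⟨C, hC, h1⟩ := h.bl R
  refine ⟨C.toNNReal, LipschitzOnWith.of_dist_le_mul fun U hU V hV => ?_⟩
  rw [mem_closedBall_zero_iff] at hU hV
  rw [Real.coe_toNNReal _ hC, BoundedContinuousFunction.dist_le (by positivity)]
  intro a
  rw [toB_apply, toB_apply, Real.dist_eq, dist_eq_norm]
  exact (h1 U V hU hV a).2

end PBL

/-- The position of the label. -/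
noncomputable def XX (U : ES) (a : ℝ) : ℝ := ∫ b in (0 : ℝ)..cl a, Real.exp (U.1 b)

noncomputable def AA (U : ES) (a : ℝ) : ℝ :=
  ∫ b in (0 : ℝ)..cl a, Real.sin (2 * XX U b) * U.2.2 b * Real.exp (U.1 b)

noncomputable def KK (U : ES) (a : ℝ) : ℝ :=
  ∫ b in (0 : ℝ)..cl a, Real.cos (2 * XX U b) * U.2.2 b * Real.exp (U.1 b)

noncomputable def BB (U : ES) (a : ℝ) : ℝ :=
  1 / 2 * (KK U (Real.pi / 4) + KK U (-(Real.pi / 4))) - KK U a

/-- The stream function. -/
noncomputable def EE (U : ES) (a : ℝ) : ℝ :=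
  1 / 2 * (Real.sin (2 * XX U a) * BB U a + Real.cos (2 * XX U a) * AA U a)

/-- The derivative of the stream function. -/
noncomputable def DD (U : ES) (a : ℝ) : ℝ :=
  Real.cos (2 * XX U a) * BB U a - Real.sin (2 * XX U a) * AA U a

lemma pXX : PBL XX := (PBL.fst.comp Real.contDiff_exp).int

lemma pS : PBL (fun U a => Real.sin (2 * XX U a)) := (pXX.cmul 2).comp Real.contDiff_sin

lemma pC : PBL (fun U a => Real.cos (2 * XX U a)) := (pXX.cmul 2).comp Real.contDiff_cos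

lemma pJ : PBL (fun U a => Real.exp (U.1 a)) := PBL.fst.comp Real.contDiff_exp

lemma pAA : PBL AA := ((pS.mul PBL.trd).mul pJ).int

lemma pKK : PBL KK := ((pC.mul PBL.trd).mul pJ).int

lemma pBB : PBL BB := (((pKK.att _).add (pKK.att _)).cmul (1 / 2)).sub pKK

lemma pEE : PBL EE := ((pS.mul pBB).add (pC.mul pAA)).cmul (1 / 2)

lemma pDD : PBL DD := (pC.mul pBB).sub (pS.mul pAA)

/-- The initial data: `q` (the density factor) and `w` (the vorticity), up to the sign. -/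
structure Dat (q w : ℝ → ℝ) : Prop where
  sq : ContDiff ℝ ∞ q
  sw : ContDiff ℝ ∞ w
  eq : ∀ a, q (-a) = q a
  ow : ∀ a, w (-a) = -w a
  zq : ∀ a, 1 / 2 ≤ |a| → q a = 0
  zw : ∀ a, 1 / 2 ≤ |a| → w a = 0
  qn : ∀ a, 0 ≤ q a
  wn : ∀ a ∈ Icc 0 (Real.pi / 4), 0 ≤ w a
  fn : ∀ a ∈ Icc 0 (Real.pi / 4), 0 ≤ -(q a * Real.sin a + deriv q a * Real.cos a)
  qp : ∀ a ∈ Icc (0 : ℝ) (1 / 4), 0 < q a
  wp : ∀ a ∈ Icc (0 : ℝ) (1 / 4), 0 < deriv w a
  np : ∀ a ∈ Icc (0 : ℝ) (1 / 4), 0 < -(deriv (deriv q) a + q a)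

variable {q w : ℝ → ℝ}

lemma bdd_of_supp {f : ℝ → ℝ} (hf : Continuous f) (hz : ∀ a, 1 / 2 < |a| → f a = 0) :
    ∃ C, ∀ a, |f a| ≤ C := by
  obtain ⟨C, hC⟩ := isCompact_Icc.exists_bound_of_continuousOn (s := Icc (-1 : ℝ) 1)
    hf.continuousOn
  refine ⟨max C 0, fun a => ?_⟩
  rcases le_or_gt |a| 1 with h | h
  · exact (hC a (abs_le.1 h)).trans (le_max_left _ _)
  · rw [hz a (by linarith), abs_zero]
    exact le_max_right _ _

lemma Dat.zq' (h : Dat q w) (a : ℝ) (ha : 1 / 2 < |a|) : deriv q a = 0 := by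
  have h1 : q =ᶠ[𝓝 a] fun _ => 0 := by
    filter_upwards [continuous_abs.continuousAt.eventually (lt_mem_nhds ha)] with b hb
    exact h.zq b hb.le
  rw [h1.deriv_eq]
  simp

lemma Dat.cq (h : Dat q w) : Continuous q := h.sq.continuous

lemma Dat.cq' (h : Dat q w) : Continuous (deriv q) := h.sq.continuous_deriv (by norm_cast)

lemma Dat.pq (h : Dat q w) : PBL (fun _ a => q a) := by
  obtain ⟨C, hC⟩ := bdd_of_supp h.cq fun a ha => h.zq a ha.le
  exact PBL.const h.cq hC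

lemma Dat.pq' (h : Dat q w) : PBL (fun _ a => deriv q a) := by
  obtain ⟨C, hC⟩ := bdd_of_supp h.cq' h.zq'
  exact PBL.const h.cq' hC

/-- The first component of the field. -/
noncomputable def F1 (U : ES) (a : ℝ) : ℝ := 2 * DD U a

/-- The second component of the field. -/
noncomputable def F2 (U : ES) (a : ℝ) : ℝ := -2 * ((U.2.2 a + 4 * EE U a) * Real.exp (U.1 a))

/-- The density factor. -/
noncomputable def QQ (q : ℝ → ℝ) (U : ES) (a : ℝ) : ℝ := q a * Real.exp (1 / 2 * U.1 a)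

/-- The derivative of the density factor. -/
noncomputable def PP (q : ℝ → ℝ) (U : ES) (a : ℝ) : ℝ :=
  (deriv q a + 1 / 2 * (q a * U.2.1 a)) * Real.exp (-(1 / 2) * U.1 a)

/-- The third component of the field. -/
noncomputable def F3 (q : ℝ → ℝ) (U : ES) (a : ℝ) : ℝ :=
  -(QQ q U a * Real.sin (XX U a) + PP q U a * Real.cos (XX U a))

lemma pF1 : PBL F1 := pDD.cmul 2

lemma pF2 : PBL F2 := ((PBL.trd.add (pEE.cmul 4)).mul pJ).cmul (-2)

lemma Dat.pQQ (h : Dat q w) : PBL (QQ q) :=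
  h.pq.mul ((PBL.fst.cmul (1 / 2)).comp Real.contDiff_exp)

lemma Dat.pPP (h : Dat q w) : PBL (PP q) :=
  (h.pq'.add ((h.pq.mul PBL.snd).cmul (1 / 2))).mul
    ((PBL.fst.cmul (-(1 / 2))).comp Real.contDiff_exp)

lemma Dat.pF3 (h : Dat q w) : PBL (F3 q) :=
  ((h.pQQ.mul (pXX.comp Real.contDiff_sin)).add (h.pPP.mul (pXX.comp Real.contDiff_cos))).neg

/-- The vector field. -/
noncomputable def Dat.field (h : Dat q w) (U : ES) : ES := (pF1.toB U, pF2.toB U, h.pF3.toB U)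

lemma Dat.field_lip (h : Dat q w) (R : ℝ) :
    ∃ C : NNReal, LipschitzOnWith C h.field (Metric.closedBall 0 R) := by
  obtain ⟨C1, h1⟩ := pF1.toB_lip R
  obtain ⟨C2, h2⟩ := pF2.toB_lip R
  obtain ⟨C3, h3⟩ := h.pF3.toB_lip R
  exact ⟨max C1 (max C2 C3), h1.prodMk (h2.prodMk h3)⟩

/-- The initial state. -/
noncomputable def Dat.ini (h : Dat q w) : ES := (0, 0,
  BoundedContinuousFunction.ofNormedAddCommGroup w h.sw.continuous
    (Classical.choose (bdd_of_supp h.sw.continuous fun a ha => h.zw a ha.le))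
    (Classical.choose_spec (bdd_of_supp h.sw.continuous fun a ha => h.zw a ha.le)))

end Pool.Agent.TH305.BQ
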