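import Pool.Agent.TH305.BQ.Sym

/-!
The scale-invariant Boussinesq system in Lagrangian variables (helper305): static facts.
-/

set_option autoImplicit false

open MeasureTheory Set Filter Topology
open scoped ContDiff BoundedContinuousFunction

namespace Pool.Agent.TH305.BQ

variable {q w : ℝ → ℝ}

/-- Symmetric states, supported in the interior, which fix the end point. -/
structure Good (V : ES) : Prop where
  sym : rf V = V
  supp : ∀ a, 1 / 2 < |a| → V.2.2 a = 0
  piv : XX V (Real.pi / 4) = Real.pi / 4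

lemma pi4_lo : (3 : ℝ) / 4 < Real.pi / 4 := by linarith [Real.pi_gt_three]

lemma pi4_hi : Real.pi / 4 < 4 / 5 := by linarith [Real.pi_lt_d2]

namespace Good

variable {V : ES}

lemma sym1 (g : Good V) (a : ℝ) : V.1 (-a) = V.1 a := by
  have := congrArg (fun U : ES => U.1 a) g.sym
  exact this

lemma sym3 (g : Good V) (a : ℝ) : V.2.2 (-a) = -V.2.2 a := by
  have := congrArg (fun U : ES => U.2.2 a) g.sym
  simp only [rf3] at this
  linarith

lemma XX_odd (g : Good V) (a : ℝ) : XX V (-a) = -XX V a := by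
  have := XX_rf V a
  rw [g.sym] at this
  linarith

lemma AA_odd (g : Good V) (a : ℝ) : AA V (-a) = -AA V a := by
  have := AA_rf V a
  rw [g.sym] at this
  linarith

lemma KK_even (g : Good V) (a : ℝ) : KK V (-a) = KK V a := by
  have := KK_rf V a
  rw [g.sym] at this
  linarith

lemma BB_eq (g : Good V) (a : ℝ) : BB V a = KK V (Real.pi / 4) - KK V a := by
  unfold BB
  rw [g.KK_even]
  ring

lemma BB_pi (g : Good V) : BB V (Real.pi / 4) = 0 := by
  rw [g.BB_eq]
  ring

lemma J_int (V : ES) {p q : ℝ} : IntervalIntegrable (fun b => Real.exp (V.1 b)) volume p q :=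
  (pJ.cont V).intervalIntegrable _ _

lemma XX_of (V : ES) {a : ℝ} (ha : a ∈ Icc (-1 : ℝ) 1) :
    XX V a = ∫ b in (0 : ℝ)..a, Real.exp (V.1 b) := by
  unfold XX
  rw [cl_of_mem ha]

/-- A bound of the integrals. -/
lemma int_bd (g : Good V) {m : ℝ} (hm : ∀ a, |V.2.2 a| ≤ m) {f : ℝ → ℝ} (hf : Continuous f)
    (hfb : ∀ b, |f b| ≤ |V.2.2 b| * Real.exp (V.1 b)) (a : ℝ) :
    |∫ b in (0 : ℝ)..cl a, f b| ≤ m * (Real.pi / 4) := by
  have hm0 : 0 ≤ m := (abs_nonneg _).trans (hm 0)
  have hpi := pi4_lo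
  -- the integral of `m J` over `[0, π/4]`
  have hcJ : Continuous fun b => Real.exp (V.1 b) := pJ.cont V
  have hcW : Continuous fun b => |V.2.2 b| * Real.exp (V.1 b) := by
    have := PBL.trd.cont V
    fun_prop
  have hJ : ∫ b in (0 : ℝ)..Real.pi / 4, Real.exp (V.1 b) = Real.pi / 4 := by
    rw [← XX_of V ⟨pi4_mem.1.le, pi4_mem.2.le⟩, g.piv]
  -- nonnegative labels
  have hpos : ∀ c ∈ Icc (0 : ℝ) 1, ∫ b in (0 : ℝ)..c, |V.2.2 b| * Real.exp (V.1 b)
      ≤ m * (Real.pi / 4) := by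
    intro c hc
    have hle : ∀ p r : ℝ, 0 ≤ p → p ≤ r → r ≤ Real.pi / 4 →
        ∫ b in p..r, |V.2.2 b| * Real.exp (V.1 b) ≤ m * ∫ b in p..r, Real.exp (V.1 b) := by
      intro p r hp hpr hr
      rw [← intervalIntegral.integral_const_mul]
      refine intervalIntegral.integral_mono_on hpr (hcW.intervalIntegrable _ _)
        ((hcJ.const_mul m).intervalIntegrable _ _) fun b _ => ?_
      exact mul_le_mul_of_nonneg_right (hm b) (Real.exp_pos _).le
    have hnn : ∀ p r : ℝ, p ≤ r → 0 ≤ ∫ b in p..r, Real.exp (V.1 b) := fun p r hpr =>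
      intervalIntegral.integral_nonneg hpr fun b _ => (Real.exp_pos _).le
    rcases le_total c (Real.pi / 4) with h | h
    · have h1 := hle 0 c le_rfl hc.1 h
      have h2 := intervalIntegral.integral_add_adjacent_intervals
        (J_int V (p := 0) (q := c)) (J_int V (p := c) (q := Real.pi / 4))
      have h3 := hnn c (Real.pi / 4) h
      have h4 : ∫ b in (0 : ℝ)..c, Real.exp (V.1 b) ≤ Real.pi / 4 := by linarith
      exact h1.trans (mul_le_mul_of_nonneg_left h4 hm0)
    · have h1 := hle 0 (Real.pi / 4) le_rfl (by linarith) le_rfl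
      have h2 := intervalIntegral.integral_add_adjacent_intervals
        (hcW.intervalIntegrable (μ := volume) 0 (Real.pi / 4))
        (hcW.intervalIntegrable (μ := volume) (Real.pi / 4) c)
      have h3 : ∫ b in (Real.pi / 4)..c, |V.2.2 b| * Real.exp (V.1 b) = 0 := by
        have e : ∀ b ∈ uIcc (Real.pi / 4) c, |V.2.2 b| * Real.exp (V.1 b) = 0 := by
          intro b hb
          rw [uIcc_of_le h] at hb
          rw [g.supp b (by rw [abs_of_pos (by linarith [hb.1])]; linarith [hb.1])]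
          simp
        rw [intervalIntegral.integral_congr e]
        simp
      rw [← h2, h3, add_zero]
      rw [hJ] at h1
      exact h1
  rcases le_total 0 a with h | h
  · have hc : cl a ∈ Icc (0 : ℝ) 1 := ⟨le_max_of_le_right (le_min zero_le_one h), (cl_mem a).2⟩
    refine le_trans ?_ (hpos _ hc)
    have h1 := intervalIntegral.abs_integral_le_integral_abs (f := f) (μ := volume) hc.1
    refine h1.trans ?_
    exact intervalIntegral.integral_mono_on hc.1 (hf.abs.intervalIntegrable _ _)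
      (hcW.intervalIntegrable _ _) fun b _ => hfb b
  · have hc : cl (-a) ∈ Icc (0 : ℝ) 1 :=
      ⟨le_max_of_le_right (le_min zero_le_one (by linarith)), (cl_mem _).2⟩
    have e1 : ∫ b in (0 : ℝ)..cl a, f b = -∫ b in (0 : ℝ)..cl (-a), f (-b) := by
      have := cl_int_neg (fun b => f (-b)) a
      simp only [neg_neg] at this
      exact this
    rw [e1, abs_neg]
    refine le_trans ?_ (hpos _ hc)
    have hf' : Continuous fun b => f (-b) := hf.comp continuous_neg
    have h1 := intervalIntegral.abs_integral_le_integral_abs (f := fun b => f (-b))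
      (μ := volume) hc.1
    refine h1.trans ?_
    refine intervalIntegral.integral_mono_on hc.1 (hf'.abs.intervalIntegrable _ _)
      (hcW.intervalIntegrable _ _) fun b _ => ?_
    have := hfb (-b)
    rw [g.sym3, g.sym1, abs_neg] at this
    exact this

lemma AA_bd (g : Good V) {m : ℝ} (hm : ∀ a, |V.2.2 a| ≤ m) (a : ℝ) : |AA V a| ≤ m := by
  have hm0 : 0 ≤ m := (abs_nonneg _).trans (hm 0)
  have h1 := g.int_bd hm (((pS.mul PBL.trd).mul pJ).cont V) (fun b => by
    rw [abs_mul, abs_mul, Real.abs_exp]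
    have h2 : |Real.sin (2 * XX V b)| ≤ 1 := Real.abs_sin_le_one _
    have h3 : 0 ≤ |V.2.2 b| := abs_nonneg _
    have h4 := (Real.exp_pos (V.1 b)).le
    nlinarith [mul_nonneg h3 h4]) a
  have h5 := pi4_hi
  have h6 : m * (Real.pi / 4) ≤ m * 1 := by gcongr; linarith
  unfold AA
  linarith

lemma KK_bd (g : Good V) {m : ℝ} (hm : ∀ a, |V.2.2 a| ≤ m) (a : ℝ) : |KK V a| ≤ m := by
  have hm0 : 0 ≤ m := (abs_nonneg _).trans (hm 0)
  have h1 := g.int_bd hm (((pC.mul PBL.trd).mul pJ).cont V) (fun b => by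
    rw [abs_mul, abs_mul, Real.abs_exp]
    have h2 : |Real.cos (2 * XX V b)| ≤ 1 := Real.abs_cos_le_one _
    have h3 : 0 ≤ |V.2.2 b| := abs_nonneg _
    have h4 := (Real.exp_pos (V.1 b)).le
    nlinarith [mul_nonneg h3 h4]) a
  have h5 := pi4_hi
  have h6 : m * (Real.pi / 4) ≤ m * 1 := by gcongr; linarith
  unfold KK
  linarith

lemma BB_bd (g : Good V) {m : ℝ} (hm : ∀ a, |V.2.2 a| ≤ m) (a : ℝ) : |BB V a| ≤ 2 * m := by
  rw [g.BB_eq]
  have h1 := abs_sub (KK V (Real.pi / 4)) (KK V a)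
  have h2 := g.KK_bd hm (Real.pi / 4)
  have h3 := g.KK_bd hm a
  linarith

lemma tri_bd {s c x y m : ℝ} (hs : |s| ≤ 1) (hc : |c| ≤ 1) (hx : |x| ≤ 2 * m) (hy : |y| ≤ m) :
    |s * x| ≤ 2 * m ∧ |c * y| ≤ m ∧ |c * x| ≤ 2 * m ∧ |s * y| ≤ m := by
  have h1 := abs_nonneg x
  have h2 := abs_nonneg y
  refine ⟨?_, ?_, ?_, ?_⟩ <;> rw [abs_mul] <;> nlinarith

lemma EE_bd (g : Good V) {m : ℝ} (hm : ∀ a, |V.2.2 a| ≤ m) (a : ℝ) : |EE V a| ≤ 2 * m := by
  have hm0 : 0 ≤ m := (abs_nonneg _).trans (hm 0)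
  obtain ⟨h1, h2, -, -⟩ := tri_bd (Real.abs_sin_le_one (2 * XX V a))
    (Real.abs_cos_le_one (2 * XX V a)) (g.BB_bd hm a) (g.AA_bd hm a)
  unfold EE
  have h3 := abs_add_le (Real.sin (2 * XX V a) * BB V a) (Real.cos (2 * XX V a) * AA V a)
  rw [abs_mul, abs_of_pos (by norm_num : (0 : ℝ) < 1 / 2)]
  linarith

lemma DD_bd (g : Good V) {m : ℝ} (hm : ∀ a, |V.2.2 a| ≤ m) (a : ℝ) : |DD V a| ≤ 3 * m := by
  obtain ⟨-, -, h1, h2⟩ := tri_bd (Real.abs_sin_le_one (2 * XX V a))
    (Real.abs_cos_le_one (2 * XX V a)) (g.BB_bd hm a) (g.AA_bd hm a)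
  unfold DD
  have h3 := abs_sub (Real.cos (2 * XX V a) * BB V a) (Real.sin (2 * XX V a) * AA V a)
  linarith

lemma XX_strict (V : ES) : StrictMonoOn (XX V) (Icc (-1) 1) := by
  intro a ha b hb hab
  rw [XX_of V ha, XX_of V hb]
  have h1 := intervalIntegral.integral_add_adjacent_intervals
    (J_int V (p := 0) (q := a)) (J_int V (p := a) (q := b))
  have h2 : 0 < ∫ x in a..b, Real.exp (V.1 x) :=
    intervalIntegral.intervalIntegral_pos_of_pos (J_int V) (fun x => Real.exp_pos _) hab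
  linarith

lemma XX_mem (g : Good V) {a : ℝ} (ha : a ∈ Icc 0 (Real.pi / 4)) :
    XX V a ∈ Icc 0 (Real.pi / 4) := by
  have hm := (XX_strict V).monotoneOn
  have h0 : (0 : ℝ) ∈ Icc (-1 : ℝ) 1 := by constructor <;> norm_num
  have h1 : a ∈ Icc (-1 : ℝ) 1 := ⟨by linarith [ha.1], ha.2.trans pi4_mem.2.le⟩
  have h2 := hm h0 h1 ha.1
  have h3 := hm h1 ⟨pi4_mem.1.le, pi4_mem.2.le⟩ ha.2
  rw [XX_zero] at h2
  rw [g.piv] at h3
  exact ⟨h2, h3⟩

end Good

variable {h : Dat q w} {δ T : ℝ} {U : ℝ → ES}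

/-- The state is good at all times. -/
theorem LSol.good (H : LSol h δ T U) {t : ℝ} (ht : t ∈ Ico 0 T) : Good (U t) := by
  have hI : ∀ s ∈ Icc 0 t, s ∈ Ioo (-δ) T := fun s hs =>
    ⟨by linarith [H.hδ, hs.1], hs.2.trans_lt ht.2⟩
  have hsym : ∀ s ∈ Icc 0 t, rf (U s) = U s := fun s hs => H.sym ⟨hs.1, hs.2.trans_lt ht.2⟩
  have htt : t ∈ Icc 0 t := ⟨ht.1, le_rfl⟩
  refine ⟨hsym t htt, fun a ha => ?_, ?_⟩
  · have hF : ∀ V : ES, F3 q V a = 0 := by
      intro V
      unfold F3 QQ PP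
      rw [h.zq a ha.le, h.zq' a ha]
      simp
    have h1 := H.ftc h.pF3 (hI t htt) (g := fun s => (U s).2.2 a) fun s hs => H.d3 hs a
    simp only [hF, H.ini3, h.zw a ha.le] at h1
    simpa using h1
  · obtain ⟨R, hR0, hR⟩ := H.bdd ht.2
    obtain ⟨C, hC0, hC⟩ := pAA.bl R
    have key := volterra_abs (ι := Unit) (T := t) (C := 2 * C) (M := 1 * Real.exp R + 1)
      (u := fun _ s => XX (U s) (Real.pi / 4) - Real.pi / 4)
      (u' := fun _ s => 2 * EE (U s) (Real.pi / 4)) (by positivity) (by positivity) ?_ ?_ ?_ ?_ ()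
      t htt
    · linarith
    · intro _ s hs
      exact (H.XX_t pi4_mem (hI s hs)).sub_const _
    · intro _
      show XX (U 0) (Real.pi / 4) - Real.pi / 4 = 0
      rw [Good.XX_of _ ⟨pi4_mem.1.le, pi4_mem.2.le⟩]
      simp only [H.ini1]
      simp
    · intro _ s hs
      have h1 : |XX (U s) (Real.pi / 4)| ≤ Real.exp R * |Real.pi / 4 - 0| := by
        rw [Good.XX_of _ ⟨pi4_mem.1.le, pi4_mem.2.le⟩, ← Real.norm_eq_abs]
        refine intervalIntegral.norm_integral_le_of_norm_le_const fun b _ => ?_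
        rw [Real.norm_eq_abs, Real.abs_exp]
        exact Real.exp_le_exp.2 ((le_abs_self _).trans ((le1 _ _).trans (hR s hs)))
      have h2 := abs_sub (XX (U s) (Real.pi / 4)) (Real.pi / 4)
      have h3 : |Real.pi / 4| ≤ 1 := by
        rw [abs_of_pos (by positivity)]
        exact pi4_mem.2.le
      have h4 : Real.exp R * |Real.pi / 4 - 0| ≤ Real.exp R * 1 := by
        rw [sub_zero]
        gcongr
      linarith
    · intro s hs m hm hall _
      have hall' := hall ()
      have hKe : KK (U s) (-(Real.pi / 4)) = KK (U s) (Real.pi / 4) := by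
        have := KK_rf (U s) (Real.pi / 4)
        rw [hsym s hs] at this
        exact this.symm
      have hB : BB (U s) (Real.pi / 4) = 0 := by
        unfold BB
        rw [hKe]
        ring
      have hA := (hC (U s) (U s) (hR s hs) (hR s hs) (Real.pi / 4)).1
      have hcos : |Real.cos (2 * XX (U s) (Real.pi / 4))| ≤ 2 * m := by
        have e1 : Real.cos (2 * XX (U s) (Real.pi / 4))
            = -Real.sin (2 * (XX (U s) (Real.pi / 4) - Real.pi / 4)) := by
          rw [show 2 * (XX (U s) (Real.pi / 4) - Real.pi / 4)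
            = 2 * XX (U s) (Real.pi / 4) - Real.pi / 2 by ring, Real.sin_sub_pi_div_two, neg_neg]
        rw [e1, abs_neg]
        refine Real.abs_sin_le_abs.trans ?_
        rw [abs_mul, abs_of_pos (by norm_num : (0 : ℝ) < 2)]
        linarith
      unfold EE
      rw [hB, mul_zero, zero_add, ← mul_assoc, show (2 : ℝ) * (1 / 2) = 1 by norm_num, one_mul,
        abs_mul]
      have h5 := mul_le_mul hcos hA (abs_nonneg _) (by positivity)
      linarith

end Pool.Agent.TH305.BQ
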