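import Pool.Agent.TH305.BQ.Stat

/-!
The scale-invariant Boussinesq system (helper305): growth at the axis of symmetry.
-/

set_option autoImplicit false

open MeasureTheory Set Filter Topology
open scoped ContDiff BoundedContinuousFunction

namespace Pool.Agent.TH305.BQ

variable {q w : ℝ → ℝ} {h : Dat q w} {δ T : ℝ} {U : ℝ → ES}

lemma XX_mono (V : ES) {a b : ℝ} (ha : -1 ≤ a) (hab : a ≤ b) (hb : b ≤ 1) : XX V a ≤ XX V b :=
  (Good.XX_strict V).monotoneOn ⟨ha, hab.trans hb⟩ ⟨ha.trans hab, hb⟩ hab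

/-- An elementary inequality. -/
lemma amgm {c Q Y Z m : ℝ} (hc : 0 ≤ c) (hQ : 0 ≤ Q) (hm : 0 ≤ m) (hmc : m ^ 2 ≤ c * Q)
    (hY : 0 ≤ Y) (hZ : 0 ≤ Z) : 2 * m * (Z * Y) ≤ c * Y ^ 2 + Q * Z ^ 2 := by
  have h1 : m ≤ Real.sqrt c * Real.sqrt Q := by
    rw [← Real.sqrt_mul hc]
    exact Real.le_sqrt_of_sq_le hmc
  have h2 := Real.sq_sqrt hc
  have h3 := Real.sq_sqrt hQ
  have h4 := sq_nonneg (Real.sqrt c * Y - Real.sqrt Q * Z)
  have h5 := mul_le_mul_of_nonneg_right h1 (mul_nonneg hZ hY)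
  calc 2 * m * (Z * Y) ≤ 2 * (Real.sqrt c * Real.sqrt Q * (Z * Y)) := by linarith
    _ ≤ Real.sqrt c ^ 2 * Y ^ 2 + Real.sqrt Q ^ 2 * Z ^ 2 := by nlinarith
    _ = _ := by rw [h2, h3]

namespace LSol

lemma stat (H : LSol h δ T U) {t : ℝ} (ht : t ∈ Ico 0 T) : Stat (U t) :=
  ⟨H.good ht, (H.pos ht).1, H.W_mono ht⟩

lemma XX_ini (H : LSol h δ T U) {a : ℝ} (ha : a ∈ Icc (-1 : ℝ) 1) : XX (U 0) a = a := by
  rw [Good.XX_of _ ha]
  simp only [H.ini1]
  simp

/-- Paths move away from the axis. -/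
lemma XX_tmono (H : LSol h δ T U) {a : ℝ} (ha : a ∈ Icc 0 (Real.pi / 4)) {s t : ℝ} (hs : 0 ≤ s)
    (hst : s ≤ t) (ht : t < T) : XX (U s) a ≤ XX (U t) a := by
  have hd : ∀ r ∈ Icc s t, HasDerivAt (fun r => XX (U r) a) (2 * EE (U r) a) r := fun r hr =>
    H.XX_t (Stat.lab ha) ⟨by linarith [H.hδ, hr.1], hr.2.trans_lt ht⟩
  have hm : MonotoneOn (fun r => XX (U r) a) (Icc s t) := by
    refine monotoneOn_of_deriv_nonneg (convex_Icc _ _)
      (fun r hr => (hd r hr).continuousAt.continuousWithinAt)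
      (fun r hr => (hd r (interior_subset hr)).differentiableAt.differentiableWithinAt)
      fun r hr => ?_
    have hr' := interior_subset hr
    rw [(hd r hr').deriv]
    have := (H.stat (t := r) ⟨hs.trans hr'.1, hr'.2.trans_lt ht⟩).EE_nn ha
    linarith
  exact hm ⟨le_rfl, hst⟩ ⟨hst, le_rfl⟩ hst

lemma XX_ge (H : LSol h δ T U) {a : ℝ} (ha : a ∈ Icc 0 (Real.pi / 4)) {t : ℝ}
    (ht : t ∈ Ico 0 T) : a ≤ XX (U t) a := by
  have h1 := H.XX_tmono ha le_rfl ht.1 ht.2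
  have h2 := Stat.lab ha
  rwa [H.XX_ini ⟨h2.1.le, h2.2.le⟩] at h1

lemma x4 (H : LSol h δ T U) {t : ℝ} (ht : t ∈ Ico 0 T) : 1 / 4 ≤ XX (U t) (1 / 4) :=
  H.XX_ge ⟨by norm_num, by linarith [pi4_lo]⟩ ht

lemma q0_pos (h : Dat q w) : 0 < q 0 := h.qp 0 ⟨le_rfl, by norm_num⟩

lemma qq_pos (h : Dat q w) (V : ES) : 0 < QQ q V 0 := mul_pos (q0_pos h) (Real.exp_pos _)

/-- The density factor at the path of a label is comparable with its maximum. -/
lemma QQ_ratio (H : LSol h δ T U) {a t : ℝ} (ha : a ∈ Icc (0 : ℝ) (1 / 4)) (ht : t ∈ Ico 0 T)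
    (hX : XX (U t) a ≤ 1 / 8) {s : ℝ} (hs : s ∈ Icc 0 t) :
    q a / q 0 * Real.exp (-(33 / 4)) * QQ q (U s) 0 ≤ QQ q (U s) a := by
  have hI : ∀ r ∈ Icc 0 t, r ∈ Ico 0 T := fun r hr => ⟨hr.1, hr.2.trans_lt ht.2⟩
  have ha4 := Stat.lab' ha
  have hX' : ∀ r ∈ Icc 0 t, XX (U r) a ≤ 1 / 8 := fun r hr =>
    (H.XX_tmono ha4 hr.1 hr.2 ht.2).trans hX
  have hd : ∀ r ∈ Icc 0 t, HasDerivAt
      (fun r => QQ q (U r) a * Real.exp (66 * XX (U r) a) / QQ q (U r) 0)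
      (QQ q (U r) a * Real.exp (66 * XX (U r) a) / QQ q (U r) 0
        * (DD (U r) a + 132 * EE (U r) a - DD (U r) 0)) r := by
    intro r hr
    have hr' := H.mem_of_ico (hI r hr)
    have h1 := ((H.dQ hr' a).mul ((H.XX_t (Stat.lab ha4) hr').const_mul 66).exp).div
      (H.dQ hr' 0) (qq_pos h (U r)).ne'
    refine h1.congr_deriv ?_
    have h2 := (qq_pos h (U r)).ne'
    simp only [Pi.mul_apply]
    field_simp
    ring
  have hm : MonotoneOn (fun r => QQ q (U r) a * Real.exp (66 * XX (U r) a) / QQ q (U r) 0)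
      (Icc 0 t) := by
    refine monotoneOn_of_deriv_nonneg (convex_Icc _ _)
      (fun r hr => (hd r hr).continuousAt.continuousWithinAt)
      (fun r hr => (hd r (interior_subset hr)).differentiableAt.differentiableWithinAt)
      fun r hr => ?_
    have hr' := interior_subset hr
    rw [(hd r hr').deriv]
    obtain ⟨h1, h2⟩ := (H.stat (hI r hr')).main (H.x4 (hI r hr')) ha (hX' r hr')
    have h3 : 0 ≤ DD (U r) a + 132 * EE (U r) a - DD (U r) 0 := by linarith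
    have h4 := QQ_nn h (U r) a
    have h5 := (qq_pos h (U r)).le
    positivity
  have h1 := hm ⟨le_rfl, hs.1.trans hs.2⟩ hs hs.1
  simp only at h1
  rw [H.XX_ini ⟨(Stat.lab ha4).1.le, (Stat.lab ha4).2.le⟩] at h1
  have e0 : ∀ b, QQ q (U 0) b = q b := by
    intro b
    unfold QQ
    rw [H.ini1]
    simp
  rw [e0, e0] at h1
  have hq0 := q0_pos h
  have hqq := qq_pos h (U s)
  have hqa := h.qn a
  have h2 : 1 ≤ Real.exp (66 * a) := Real.one_le_exp (by linarith [ha.1])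
  have h3 : Real.exp (66 * XX (U s) a) ≤ Real.exp (33 / 4) := by
    apply Real.exp_le_exp.2
    linarith [hX' s hs]
  have h4 : q a / q 0 ≤ q a * Real.exp (66 * a) / q 0 := by
    apply div_le_div_of_nonneg_right _ hq0.le
    nlinarith
  have h5 : QQ q (U s) a * Real.exp (66 * XX (U s) a) / QQ q (U s) 0
      ≤ QQ q (U s) a * Real.exp (33 / 4) / QQ q (U s) 0 := by
    apply div_le_div_of_nonneg_right _ hqq.le
    exact mul_le_mul_of_nonneg_left h3 (QQ_nn h (U s) a)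
  have h6 := h4.trans (h1.trans h5)
  rw [le_div_iff₀ hqq] at h6
  have h7 : Real.exp (-(33 / 4)) * Real.exp (33 / 4) = 1 := by
    rw [← Real.exp_add]
    simp
  have h8 := mul_le_mul_of_nonneg_left h6 (Real.exp_pos (-(33 / 4))).le
  calc q a / q 0 * Real.exp (-(33 / 4)) * QQ q (U s) 0
      = Real.exp (-(33 / 4)) * (q a / q 0 * QQ q (U s) 0) := by ring
    _ ≤ Real.exp (-(33 / 4)) * (QQ q (U s) a * Real.exp (33 / 4)) := h8
    _ = QQ q (U s) a * (Real.exp (-(33 / 4)) * Real.exp (33 / 4)) := by ring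
    _ = _ := by rw [h7, mul_one]

/-- The integral of the square root of the density factor at the axis. -/
noncomputable def II (q : ℝ → ℝ) (U : ℝ → ES) (t : ℝ) : ℝ :=
  ∫ s in (0 : ℝ)..t, Real.sqrt (QQ q (U s) 0)

lemma II_t (H : LSol h δ T U) {t : ℝ} (ht : t ∈ Ioo (-δ) T) :
    HasDerivAt (II q U) (Real.sqrt (QQ q (U t) 0)) t := by
  have hc : ∀ s ∈ Ioo (-δ) T, ContinuousAt (fun s => Real.sqrt (QQ q (U s) 0)) s := fun s hs =>
    (H.dQ hs 0).continuousAt.sqrt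
  refine intervalIntegral.integral_hasDerivAt_right ?_ ?_ (hc t ht)
  · apply ContinuousOn.intervalIntegrable
    intro s hs
    exact (hc s (H.uIcc_subT ht hs)).continuousWithinAt
  · exact ContinuousOn.stronglyMeasurableAtFilter isOpen_Ioo
      (s := Ioo (-δ) T) (fun b hb => (hc b hb).continuousWithinAt) t ht

/-- Growth of the product of the gradients. -/
lemma ZY_grow (H : LSol h δ T U) {k c : ℝ} (hk : 0 ≤ k)
    (hkq : ∀ a ∈ Icc (0 : ℝ) (1 / 4), 2 * k ^ 2 ≤ q a / q 0 * Real.exp (-(33 / 4)))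
    (hc : ∀ a ∈ Icc (0 : ℝ) (1 / 4), c ≤ deriv w a * -(deriv (deriv q) a + q a))
    {a t : ℝ} (ha : a ∈ Icc (0 : ℝ) (1 / 4)) (ht : t ∈ Ico 0 T) (hX : XX (U t) a ≤ 1 / 8) :
    c * q 0 ^ 5 * Real.exp (2 * k * II q U t)
      ≤ Zf (U t) a * Yf q (U t) a * QQ q (U t) 0 ^ 5 := by
  have hI : ∀ r ∈ Icc 0 t, r ∈ Ico 0 T := fun r hr => ⟨hr.1, hr.2.trans_lt ht.2⟩
  have ha4 := Stat.lab' ha
  have hd : ∀ r ∈ Icc 0 t, HasDerivAt
      (fun r => Zf (U r) a * Yf q (U r) a * QQ q (U r) 0 ^ 5 * Real.exp (-(2 * k * II q U r)))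
      (((-5 * DD (U r) a + 5 * DD (U r) 0 - 2 * k * Real.sqrt (QQ q (U r) 0))
          * (Zf (U r) a * Yf q (U r) a)
        + (Real.cos (XX (U r) a) * Yf q (U r) a ^ 2 + QQ q (U r) a * Zf (U r) a ^ 2))
        * (QQ q (U r) 0 ^ 5 * Real.exp (-(2 * k * II q U r)))) r := by
    intro r hr
    have hr' := H.mem_of_ico (hI r hr)
    have h1 := ((H.ZY_t (Stat.lab ha4) hr').mul ((H.dQ hr' 0).fun_pow 5)).mul
      ((H.II_t hr').const_mul (2 * k)).fun_neg.exp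
    refine h1.congr_deriv ?_
    simp only [Pi.mul_apply]
    push_cast
    ring
  have hm : MonotoneOn
      (fun r => Zf (U r) a * Yf q (U r) a * QQ q (U r) 0 ^ 5 * Real.exp (-(2 * k * II q U r)))
      (Icc 0 t) := by
    refine monotoneOn_of_deriv_nonneg (convex_Icc _ _)
      (fun r hr => (hd r hr).continuousAt.continuousWithinAt)
      (fun r hr => (hd r (interior_subset hr)).differentiableAt.differentiableWithinAt)
      fun r hr => ?_
    have hr' := interior_subset hr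
    rw [(hd r hr').deriv]
    have hrT := hI r hr'
    obtain ⟨hZ, hY⟩ := H.zy_pos ha hrT
    have hD := (H.stat hrT).DD_le ha4
    have hcos := cos_half ((H.good hrT).XX_mem ha4)
    have hQ0 := QQ_nn h (U r) a
    have hqq := (qq_pos h (U r)).le
    have h1 : (k * Real.sqrt (QQ q (U r) 0)) ^ 2 ≤ Real.cos (XX (U r) a) * QQ q (U r) a := by
      rw [mul_pow, Real.sq_sqrt hqq]
      have h2 := H.QQ_ratio ha ht hX hr'
      have h3 := mul_le_mul_of_nonneg_right (hkq a ha) hqq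
      have h4 : 1 / 2 * QQ q (U r) a ≤ Real.cos (XX (U r) a) * QQ q (U r) a :=
        mul_le_mul_of_nonneg_right hcos hQ0
      linarith
    have h2 := amgm (by linarith) hQ0 (mul_nonneg hk (Real.sqrt_nonneg _)) h1 hY.le hZ.le
    have h3 : 0 ≤ (5 * DD (U r) 0 - 5 * DD (U r) a) * (Zf (U r) a * Yf q (U r) a) :=
      mul_nonneg (by linarith) (mul_nonneg hZ.le hY.le)
    refine mul_nonneg ?_ (mul_nonneg (pow_nonneg hqq 5) (Real.exp_pos _).le)
    linarith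
  have h1 := hm ⟨le_rfl, ht.1⟩ ⟨ht.1, le_rfl⟩ ht.1
  simp only at h1
  have e0 : QQ q (U 0) 0 = q 0 := by
    unfold QQ
    rw [H.ini1]
    simp
  have e1 : II q U 0 = 0 := by
    unfold II
    simp
  rw [H.Z_ini, H.Y_ini, e0, e1, mul_zero, neg_zero, Real.exp_zero, mul_one] at h1
  have h2 := mul_le_mul_of_nonneg_right (hc a ha) (pow_nonneg (q0_pos h).le 5)
  have h3 := mul_le_mul_of_nonneg_right (h2.trans h1) (Real.exp_pos (2 * k * II q U t)).le
  refine h3.trans (le_of_eq ?_)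
  rw [mul_assoc, ← Real.exp_add]
  simp

lemma W_zero (H : LSol h δ T U) {t : ℝ} (ht : t ∈ Ico 0 T) : (U t).2.2 0 = 0 := by
  have := (H.good ht).sym3 0
  rw [neg_zero] at this
  linarith

lemma PP_zero (H : LSol h δ T U) {t : ℝ} (ht : t ∈ Ico 0 T) : PP q (U t) 0 = 0 := by
  have h1 : (U t).2.1 (-0) = -(U t).2.1 0 := by
    have := congrArg (fun V : ES => V.2.1 0) (H.good ht).sym
    simp only [rf2] at this
    linarith
  have h2 := h.deriv_odd 0
  rw [neg_zero] at h1 h2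
  have h3 : (U t).2.1 0 = 0 := by linarith
  have h4 : deriv q 0 = 0 := by linarith
  unfold PP
  rw [h3, h4]
  simp

/-- The differential inequality. -/
lemma growth (H : LSol h δ T U) {k c : ℝ} (hk : 0 ≤ k) (hc0 : 0 < c)
    (hkq : ∀ a ∈ Icc (0 : ℝ) (1 / 4), 2 * k ^ 2 ≤ q a / q 0 * Real.exp (-(33 / 4)))
    (hc : ∀ a ∈ Icc (0 : ℝ) (1 / 4), c ≤ deriv w a * -(deriv (deriv q) a + q a))
    {t : ℝ} (ht : t ∈ Ico 0 T) :
    1 / 32768 * (c * q 0 ^ 5 * Real.exp (2 * k * II q U t))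
      ≤ DD (U t) 0 * QQ q (U t) 0 * QQ q (U t) 0 ^ 5 := by
  have ht' := H.mem_of_ico ht
  obtain ⟨φ, hφ⟩ : ∃ φ, φ = c * q 0 ^ 5 * Real.exp (2 * k * II q U t) := ⟨_, rfl⟩
  have hφ0 : 0 < φ := by
    rw [hφ]
    have := q0_pos h
    positivity
  obtain ⟨Q, hQ⟩ : ∃ Q, Q = QQ q (U t) 0 := ⟨_, rfl⟩
  have hQ0 : 0 < Q := by
    rw [hQ]
    exact qq_pos h (U t)
  -- the label at the position `1/8`
  have hcX : ContinuousOn (XX (U t)) (Icc 0 (1 / 4)) := (pXX.cont (U t)).continuousOn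
  obtain ⟨a₁, ha₁, hXa₁⟩ : (1 / 8 : ℝ) ∈ XX (U t) '' Icc 0 (1 / 4) := by
    refine intermediate_value_Icc (by norm_num) hcX ⟨?_, ?_⟩
    · rw [XX_zero]
      norm_num
    · have := H.x4 ht
      linarith
  have hsub : ∀ a ∈ Icc 0 a₁, a ∈ Icc (0 : ℝ) (1 / 4) := fun a ha => ⟨ha.1, ha.2.trans ha₁.2⟩
  have hlab : ∀ a ∈ Icc 0 a₁, a ∈ Ioo (-1 : ℝ) 1 := fun a ha => Stat.lab (Stat.lab' (hsub a ha))
  have hX8 : ∀ a ∈ Icc 0 a₁, XX (U t) a ≤ 1 / 8 := fun a ha => by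
    rw [← hXa₁]
    exact XX_mono _ (hlab a ha).1.le ha.2 (by linarith [ha₁.2])
  obtain ⟨p, hp⟩ : ∃ p, p = Real.sqrt (φ / Q ^ 5) := ⟨_, rfl⟩
  have hp0 : 0 < p := by
    rw [hp]
    apply Real.sqrt_pos.2
    positivity
  have hp2 : p ^ 2 * Q ^ 5 = φ := by
    rw [hp, Real.sq_sqrt (by positivity)]
    field_simp
  have hZY : ∀ a ∈ Icc 0 a₁, p ^ 2 ≤ Zf (U t) a * Yf q (U t) a := by
    intro a ha
    have h1 := H.ZY_grow hk hkq hc (hsub a ha) ht (hX8 a ha)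
    rw [← hφ, ← hQ, ← hp2] at h1
    exact le_of_mul_le_mul_right h1 (by positivity)
  obtain ⟨ε, hε⟩ : ∃ ε, ε = 128 * Q / p := ⟨_, rfl⟩
  have hε0 : 0 < ε := by
    rw [hε]
    positivity
  -- the auxiliary function
  have hd : ∀ a ∈ Icc 0 a₁, HasDerivAt
      (fun a => ε * ((1 / 8 - XX (U t) a) * (U t).2.2 a + 2 * KK (U t) a)
        + 1 / ε * (-((1 / 8 - XX (U t) a) * PP q (U t) a) - QQ q (U t) a)
        - 2 * p * (1 / 8 * XX (U t) a - 1 / 2 * XX (U t) a ^ 2))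
      ((1 / 8 - XX (U t) a) * Real.exp ((U t).1 a)
          * (ε * Zf (U t) a + 1 / ε * Yf q (U t) a - 2 * p + 1 / ε * QQ q (U t) a)
        + ε * (2 * Real.cos (2 * XX (U t) a) - 1) * ((U t).2.2 a * Real.exp ((U t).1 a))) a := by
    intro a ha
    have hX := XX_hd (U t) (hlab a ha)
    have hW := H.W_a (hlab a ha) ht'
    have hK := KK_hd (U t) (hlab a ha)
    have hP := H.P_a (hlab a ha) ht'
    have hQa := H.Q_a (hlab a ha) ht'
    have h1 := ((((hX.const_sub (1 / 8 : ℝ)).mul hW).add (hK.const_mul 2)).const_mul ε).add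
      ((((hX.const_sub (1 / 8 : ℝ)).mul hP).neg.sub hQa).const_mul (1 / ε))
    have h2 := h1.sub (((hX.const_mul (1 / 8 : ℝ)).sub ((hX.fun_pow 2).const_mul (1 / 2 : ℝ))).const_mul
      (2 * p))
    refine h2.congr_deriv ?_
    have e : Real.exp ((U t).1 a) * Real.exp (-(U t).1 a) = 1 := by
      rw [← Real.exp_add]
      simp
    unfold Zf Yf
    push_cast
    linear_combination (-((1 / 8 - XX (U t) a) * (ε * deriv (U t).2.2 a
      - 1 / ε * deriv (PP q (U t)) a))) * e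
  have hm : MonotoneOn
      (fun a => ε * ((1 / 8 - XX (U t) a) * (U t).2.2 a + 2 * KK (U t) a)
        + 1 / ε * (-((1 / 8 - XX (U t) a) * PP q (U t) a) - QQ q (U t) a)
        - 2 * p * (1 / 8 * XX (U t) a - 1 / 2 * XX (U t) a ^ 2)) (Icc 0 a₁) := by
    refine monotoneOn_of_deriv_nonneg (convex_Icc _ _)
      (fun a ha => (hd a ha).continuousAt.continuousWithinAt)
      (fun a ha => (hd a (interior_subset ha)).differentiableAt.differentiableWithinAt)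
      fun a ha => ?_
    have ha' := interior_subset ha
    rw [(hd a ha').deriv]
    have h1 := hZY a ha'
    obtain ⟨hZ, hY⟩ := H.zy_pos (hsub a ha') ht
    have h2 : 2 * p ≤ ε * Zf (U t) a + 1 / ε * Yf q (U t) a := by
      have h3 : 0 ≤ ε * Zf (U t) a + 1 / ε * Yf q (U t) a := by positivity
      refine abs_le_of_sq_le_sq' ?_ h3 |>.2
      have h4 : (ε * Zf (U t) a) * (1 / ε * Yf q (U t) a) = Zf (U t) a * Yf q (U t) a := by
        field_simp
      nlinarith [sq_nonneg (ε * Zf (U t) a - 1 / ε * Yf q (U t) a)]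
    have h5 : 0 ≤ 1 / ε * QQ q (U t) a := mul_nonneg (by positivity) (QQ_nn h _ _)
    have hXm := (H.good ht).XX_mem (Stat.lab' (hsub a ha'))
    have h6 : 1 / 2 ≤ Real.cos (2 * XX (U t) a) := by
      have h7 := Real.one_sub_sq_div_two_le_cos (x := 2 * XX (U t) a)
      have h8 : XX (U t) a ^ 2 ≤ (1 / 8) ^ 2 := pow_le_pow_left₀ hXm.1 (hX8 a ha') 2
      nlinarith
    have h9 := (H.pos ht).1 a (Stat.lab' (hsub a ha'))
    have h10 : 0 ≤ (1 / 8 - XX (U t) a) := by linarith [hX8 a ha']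
    have h11 := Real.exp_pos ((U t).1 a)
    refine add_nonneg (mul_nonneg (mul_nonneg h10 h11.le) (by linarith)) ?_
    exact mul_nonneg (mul_nonneg hε0.le (by linarith)) (mul_nonneg h9 h11.le)
  have h1 := hm ⟨le_rfl, ha₁.1⟩ ⟨ha₁.1, le_rfl⟩ ha₁.1
  simp only [XX_zero, hXa₁, H.W_zero ht, H.PP_zero ht, Stat.KK_zero, ← hQ] at h1
  have h2 := (H.stat ht).KK_mono ha₁.1 (Stat.lab' ha₁).2 le_rfl
  rw [← (H.stat ht).DD_zero] at h2
  have h3 : 0 ≤ 1 / ε * QQ q (U t) a₁ := mul_nonneg (by positivity) (QQ_nn h _ _)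
  have h4 : 1 / ε * Q = p / 128 := by
    rw [hε]
    field_simp
  have h5 : p / 128 ≤ 2 * (ε * DD (U t) 0) := by
    have h6 := mul_le_mul_of_nonneg_left h2 hε0.le
    norm_num at h1
    norm_num at h3 h4
    nlinarith
  have h6 : p ^ 2 ≤ 32768 * (Q * DD (U t) 0) := by
    have h7 := mul_le_mul_of_nonneg_left h5 (by positivity : 0 ≤ 128 * p)
    have h8 : 128 * p * (2 * (ε * DD (U t) 0)) = 32768 * (Q * DD (U t) 0) := by
      rw [hε]
      field_simp
      ring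
    rw [h8] at h7
    nlinarith
  rw [← hφ, ← hQ, ← hp2]
  have h7 := mul_le_mul_of_nonneg_right h6 (by positivity : 0 ≤ Q ^ 5)
  nlinarith

end LSol

end Pool.Agent.TH305.BQ
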