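import Pool.Agent.TH305.BQ.Cd

/-!
Integrals with parameters (helper305).
-/

set_option autoImplicit false

open MeasureTheory Set Filter Topology
open scoped ContDiff

namespace Pool.Agent.TH305.BQ

/-- The derivative of an integral with respect to a parameter. -/
lemma int_hd {g gt : ℝ → ℝ → ℝ} {t₁ t₂ p q t : ℝ} (ht : t ∈ Ioo t₁ t₂)
    (hgt : ContinuousOn (fun z : ℝ × ℝ => gt z.1 z.2) (uIcc p q ×ˢ Ioo t₁ t₂))
    (hg : ∀ s ∈ Ioo t₁ t₂, ContinuousOn (fun b => g b s) (uIcc p q))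
    (hd : ∀ b ∈ uIcc p q, ∀ s ∈ Ioo t₁ t₂, HasDerivAt (fun s => g b s) (gt b s) s) :
    HasDerivAt (fun s => ∫ b in p..q, g b s) (∫ b in p..q, gt b t) t := by
  obtain ⟨c, hc1, hc2⟩ := exists_between ht.1
  obtain ⟨d, hd1, hd2⟩ := exists_between ht.2
  have hsub : Icc c d ⊆ Ioo t₁ t₂ := fun s hs => ⟨hc1.trans_le hs.1, hs.2.trans_lt hd2⟩
  have hK : IsCompact (uIcc p q ×ˢ Icc c d) := isCompact_uIcc.prod isCompact_Icc
  obtain ⟨C, hC⟩ := hK.exists_bound_of_continuousOn (hgt.mono (prod_mono le_rfl hsub))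
  have hsl : ∀ s ∈ Ioo t₁ t₂, ContinuousOn (fun b => gt b s) (uIcc p q) := fun s hs =>
    hgt.comp (f := fun b : ℝ => (b, s)) (by fun_prop) fun b hb => ⟨hb, hs⟩
  have hIoo : Ioo c d ∈ 𝓝 t := Ioo_mem_nhds hc2 hd1
  have hsm : uIoc p q ⊆ uIcc p q := uIoc_subset_uIcc
  refine (intervalIntegral.hasDerivAt_integral_of_dominated_loc_of_deriv_le
    (F := fun s b => g b s) (F' := fun s b => gt b s) (bound := fun _ => C) hIoo
    ?_ ?_ ?_ ?_ ?_ ?_).2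
  · filter_upwards [hIoo] with s hs
    exact ((hg s (hsub ⟨hs.1.le, hs.2.le⟩)).mono hsm).aestronglyMeasurable measurableSet_uIoc
  · exact (hg t ht).intervalIntegrable
  · exact ((hsl t ht).mono hsm).aestronglyMeasurable measurableSet_uIoc
  · refine Eventually.of_forall fun b hb s hs => ?_
    exact hC (b, s) ⟨hsm hb, hs.1.le, hs.2.le⟩
  · exact intervalIntegrable_const
  · exact Eventually.of_forall fun b hb s hs => hd b (hsm hb) s (hsub ⟨hs.1.le, hs.2.le⟩)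

/-- The open set of the variables. -/
def OO (t₁ t₂ : ℝ) : Set (ℝ × ℝ) := Ioo (-1 : ℝ) 1 ×ˢ Ioo t₁ t₂

lemma isOpen_OO (t₁ t₂ : ℝ) : IsOpen (OO t₁ t₂) := isOpen_Ioo.prod isOpen_Ioo

lemma uIcc_sub {p q : ℝ} (hp : p ∈ Ioo (-1 : ℝ) 1) (hq : q ∈ Ioo (-1 : ℝ) 1) :
    uIcc p q ⊆ Ioo (-1 : ℝ) 1 := by
  intro x hx
  rcases le_total p q with h | h
  · rw [uIcc_of_le h] at hx
    exact ⟨hp.1.trans_le hx.1, hx.2.trans_lt hq.2⟩
  · rw [uIcc_of_ge h] at hx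
    exact ⟨hq.1.trans_le hx.1, hx.2.trans_lt hp.2⟩

lemma zero_mem : (0 : ℝ) ∈ Ioo (-1 : ℝ) 1 := by constructor <;> norm_num

/-- Joint continuity of an integral. -/
lemma int_cont {t₁ t₂ : ℝ} {f : ℝ × ℝ → ℝ} (hf : ContinuousOn f (OO t₁ t₂)) :
    ContinuousOn (fun z : ℝ × ℝ => ∫ b in (0 : ℝ)..z.1, f (b, z.2)) (OO t₁ t₂) := by
  intro z₀ hz₀
  apply ContinuousAt.continuousWithinAt
  -- a compact neighbourhood
  obtain ⟨a₁, ha₁, ha₁'⟩ : ∃ a₁, -1 < a₁ ∧ a₁ < min 0 z₀.1 :=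
    exists_between (lt_min (by norm_num) hz₀.1.1)
  obtain ⟨a₂, ha₂', ha₂⟩ : ∃ a₂, max 0 z₀.1 < a₂ ∧ a₂ < 1 :=
    exists_between (max_lt (by norm_num) hz₀.1.2)
  obtain ⟨c, hc1, hc2⟩ := exists_between hz₀.2.1
  obtain ⟨d, hd1, hd2⟩ := exists_between hz₀.2.2
  have hsub : Icc a₁ a₂ ×ˢ Icc c d ⊆ OO t₁ t₂ := fun z hz =>
    ⟨⟨ha₁.trans_le hz.1.1, hz.1.2.trans_lt ha₂⟩, hc1.trans_le hz.2.1, hz.2.2.trans_lt hd2⟩
  have hK : IsCompact (Icc a₁ a₂ ×ˢ Icc c d) := isCompact_Icc.prod isCompact_Icc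
  obtain ⟨C, hC⟩ := hK.exists_bound_of_continuousOn (hf.mono hsub)
  have huc := hK.uniformContinuousOn_of_continuous (hf.mono hsub)
  have h0m : (0 : ℝ) ∈ Icc a₁ a₂ :=
    ⟨(ha₁'.trans_le (min_le_left _ _)).le, ((le_max_left _ _).trans_lt ha₂').le⟩
  have hzm : z₀.1 ∈ Ioo a₁ a₂ :=
    ⟨ha₁'.trans_le (min_le_right _ _), (le_max_right _ _).trans_lt ha₂'⟩
  have hii : ∀ s ∈ Icc c d, ∀ p ∈ Icc a₁ a₂, ∀ q ∈ Icc a₁ a₂,
      IntervalIntegrable (fun b => f (b, s)) volume p q := by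
    intro s hs p hp q hq
    apply ContinuousOn.intervalIntegrable
    refine hf.comp (f := fun b : ℝ => (b, s)) (by fun_prop) fun b hb => hsub ⟨?_, hs⟩
    exact (convex_Icc a₁ a₂).ordConnected.uIcc_subset hp hq hb
  rw [Metric.continuousAt_iff]
  intro ε hε
  rw [Metric.uniformContinuousOn_iff] at huc
  obtain ⟨δ, hδ, hδ'⟩ := huc (ε / 4) (by positivity)
  have hz₀n : Icc a₁ a₂ ×ˢ Icc c d ∈ 𝓝 z₀ :=
    prod_mem_nhds (Icc_mem_nhds hzm.1 hzm.2) (Icc_mem_nhds hc2 hd1)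
  obtain ⟨η, hη, hη'⟩ := Metric.mem_nhds_iff.1 hz₀n
  have hC0 : 0 ≤ |C| + 1 := by positivity
  refine ⟨min η (min δ (ε / (4 * (|C| + 1)))), by positivity, fun {z} hz => ?_⟩
  have h1 := hη' (Metric.mem_ball.2 (hz.trans_le (min_le_left _ _)))
  have h2 : dist z z₀ < δ := hz.trans_le ((min_le_right _ _).trans (min_le_left _ _))
  have h3 : dist z z₀ < ε / (4 * (|C| + 1)) :=
    hz.trans_le ((min_le_right _ _).trans (min_le_right _ _))
  rw [Prod.dist_eq, max_lt_iff] at h2 h3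
  have hz₀2 : z₀.2 ∈ Icc c d := ⟨hc2.le, hd1.le⟩
  have hz₀1 : z₀.1 ∈ Icc a₁ a₂ := ⟨hzm.1.le, hzm.2.le⟩
  have e1 : (∫ b in (0 : ℝ)..z.1, f (b, z.2)) - ∫ b in (0 : ℝ)..z₀.1, f (b, z₀.2)
      = (∫ b in z₀.1..z.1, f (b, z.2)) + ∫ b in (0 : ℝ)..z₀.1, (f (b, z.2) - f (b, z₀.2)) := by
    rw [intervalIntegral.integral_sub (hii _ h1.2 _ h0m _ hz₀1) (hii _ hz₀2 _ h0m _ hz₀1),
      ← intervalIntegral.integral_add_adjacent_intervals (hii _ h1.2 _ h0m _ hz₀1)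
        (hii _ h1.2 _ hz₀1 _ h1.1)]
    ring
  rw [dist_eq_norm, e1]
  have b1 : ‖∫ b in z₀.1..z.1, f (b, z.2)‖ ≤ (|C| + 1) * |z.1 - z₀.1| := by
    apply intervalIntegral.norm_integral_le_of_norm_le_const
    intro b hb
    have hb' : b ∈ Icc a₁ a₂ := (convex_Icc a₁ a₂).ordConnected.uIcc_subset hz₀1 h1.1
      (uIoc_subset_uIcc hb)
    have := hC (b, z.2) ⟨hb', h1.2⟩
    have h4 := le_abs_self C
    linarith
  have b2 : ‖∫ b in (0 : ℝ)..z₀.1, (f (b, z.2) - f (b, z₀.2))‖ ≤ ε / 4 * |z₀.1 - 0| := by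
    apply intervalIntegral.norm_integral_le_of_norm_le_const
    intro b hb
    have hb' : b ∈ Icc a₁ a₂ := (convex_Icc a₁ a₂).ordConnected.uIcc_subset h0m hz₀1
      (uIoc_subset_uIcc hb)
    have h5 := hδ' (b, z.2) ⟨hb', h1.2⟩ (b, z₀.2) ⟨hb', hz₀2⟩ (by
      rw [Prod.dist_eq]
      simpa using h2.2)
    rw [dist_eq_norm] at h5
    exact h5.le
  have b3 : |z₀.1 - 0| ≤ 1 := by
    rw [sub_zero, abs_le]
    exact ⟨hz₀.1.1.le, hz₀.1.2.le⟩
  have b4 : (|C| + 1) * |z.1 - z₀.1| ≤ ε / 4 := by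
    have h6 : |z.1 - z₀.1| ≤ ε / (4 * (|C| + 1)) := by
      rw [← Real.dist_eq]
      exact h3.1.le
    calc (|C| + 1) * |z.1 - z₀.1| ≤ (|C| + 1) * (ε / (4 * (|C| + 1))) := by gcongr
      _ = ε / 4 := by field_simp
  calc ‖(∫ b in z₀.1..z.1, f (b, z.2)) + ∫ b in (0 : ℝ)..z₀.1, (f (b, z.2) - f (b, z₀.2))‖
      ≤ _ := norm_add_le _ _
    _ ≤ (|C| + 1) * |z.1 - z₀.1| + ε / 4 * |z₀.1 - 0| := add_le_add b1 b2
    _ ≤ ε / 4 + ε / 4 * 1 := by gcongr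
    _ < ε := by linarith

/-- An integral of a function of class `C^n`. -/
theorem int_smooth (n : ℕ) {t₁ t₂ : ℝ} : ∀ {f : ℝ × ℝ → ℝ}, ContDiffOn ℝ n f (OO t₁ t₂) →
    ContDiffOn ℝ n (fun z : ℝ × ℝ => ∫ b in (0 : ℝ)..z.1, f (b, z.2)) (OO t₁ t₂) := by
  induction n with
  | zero =>
    intro f hf
    rw [Nat.cast_zero, contDiffOn_zero] at hf ⊢
    exact int_cont hf
  | succ n ih =>
    intro f hf
    have hO := isOpen_OO t₁ t₂
    have hf' := (contDiffOn_succ_iff_fderiv_of_isOpen (n := n) hO).1 (by exact_mod_cast hf)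
    have hgt : ContDiffOn ℝ n (fun z => fderiv ℝ f z (0, 1)) (OO t₁ t₂) :=
      hf'.2.2.clm_apply contDiffOn_const
    have hd : ∀ z ∈ OO t₁ t₂, HasDerivAt (fun s => f (z.1, s)) (fderiv ℝ f z (0, 1)) z.2 := by
      intro z hz
      have h1 := (hf'.1.differentiableAt (hO.mem_nhds hz)).hasFDerivAt
      have h2 : HasDerivAt (fun s : ℝ => (z.1, s)) ((0 : ℝ), (1 : ℝ)) z.2 :=
        (hasDerivAt_const _ _).prodMk (hasDerivAt_id _)
      exact h1.comp_hasDerivAt z.2 h2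
    have h := cd_succ (n := n) hO (g := fun z : ℝ × ℝ => ∫ b in (0 : ℝ)..z.1, f (b, z.2))
      (ga := f) (gt := fun z => ∫ b in (0 : ℝ)..z.1, fderiv ℝ f (b, z.2) (0, 1)) ?_ ?_
      (hf.of_le (by exact_mod_cast Nat.le_succ n)) (ih hgt)
    · exact_mod_cast h
    · intro z hz
      have hc : ∀ b ∈ Ioo (-1 : ℝ) 1, ContinuousAt (fun b => f (b, z.2)) b := by
        intro b hb
        have h1 : ContinuousAt f (b, z.2) :=
          hf.continuousOn.continuousAt (hO.mem_nhds ⟨hb, hz.2⟩)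
        exact h1.comp (f := fun b : ℝ => (b, z.2)) (by fun_prop)
      refine intervalIntegral.integral_hasDerivAt_right ?_ ?_ (hc z.1 hz.1)
      · apply ContinuousOn.intervalIntegrable
        intro b hb
        exact (hc b (uIcc_sub zero_mem hz.1 hb)).continuousWithinAt
      · refine ContinuousOn.stronglyMeasurableAtFilter isOpen_Ioo
          (s := Ioo (-1 : ℝ) 1) (fun b hb => (hc b hb).continuousWithinAt) z.1 hz.1
    · intro z hz
      have hsub : uIcc 0 z.1 ×ˢ Ioo t₁ t₂ ⊆ OO t₁ t₂ :=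
        prod_mono (uIcc_sub zero_mem hz.1) le_rfl
      refine int_hd (g := fun b s => f (b, s)) (gt := fun b s => fderiv ℝ f (b, s) (0, 1)) hz.2
        (hgt.continuousOn.mono hsub) ?_ ?_
      · intro s hs
        exact hf.continuousOn.comp (f := fun b : ℝ => (b, s)) (by fun_prop)
          fun b hb => hsub ⟨hb, hs⟩
      · intro b hb s hs
        exact hd (b, s) (hsub ⟨hb, hs⟩)

end Pool.Agent.TH305.BQ
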