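import Pool.Agent.TH305.BQ.Bound

/-!
The scale-invariant Boussinesq system (helper305): from labels to positions.
-/

set_option autoImplicit false

open MeasureTheory Set Filter Topology
open scoped ContDiff BoundedContinuousFunction

namespace Pool.Agent.TH305.BQ

variable {q w : ℝ → ℝ} {h : Dat q w} {δ T : ℝ} {U : ℝ → ES}

/-- The set of positions and times. -/
def PS (U : ℝ → ES) (δ T : ℝ) : Set (ℝ × ℝ) :=
  {z | z.2 ∈ Ioo (-δ) T ∧ XX (U z.2) (-1) < z.1 ∧ z.1 < XX (U z.2) 1}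

open Classical in
/-- The label of a position. -/
noncomputable def al (U : ℝ → ES) (z : ℝ × ℝ) : ℝ :=
  if h : ∃ a ∈ Ioo (-1 : ℝ) 1, XX (U z.2) a = z.1 then Classical.choose h else 0

lemma al_spec {z : ℝ × ℝ} (h : ∃ a ∈ Ioo (-1 : ℝ) 1, XX (U z.2) a = z.1) :
    al U z ∈ Ioo (-1 : ℝ) 1 ∧ XX (U z.2) (al U z) = z.1 := by
  unfold al
  rw [dif_pos h]
  exact Classical.choose_spec h

lemma al_unique {z : ℝ × ℝ} {a : ℝ} (ha : a ∈ Ioo (-1 : ℝ) 1) (hX : XX (U z.2) a = z.1) :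
    al U z = a := by
  obtain ⟨h1, h2⟩ := al_spec ⟨a, ha, hX⟩
  exact (Good.XX_strict (U z.2)).injOn ⟨h1.1.le, h1.2.le⟩ ⟨ha.1.le, ha.2.le⟩ (h2.trans hX.symm)

lemma al_mem {z : ℝ × ℝ} (hz : z ∈ PS U δ T) :
    al U z ∈ Ioo (-1 : ℝ) 1 ∧ XX (U z.2) (al U z) = z.1 := by
  apply al_spec
  have hc : ContinuousOn (XX (U z.2)) (Icc (-1) 1) := (pXX.cont (U z.2)).continuousOn
  obtain ⟨a, ha, hXa⟩ := intermediate_value_Ioo (by norm_num : (-1 : ℝ) ≤ 1) hc ⟨hz.2.1, hz.2.2⟩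
  exact ⟨a, ha, hXa⟩

namespace LSol

lemma isOpen_PS (H : LSol h δ T U) : IsOpen (PS U δ T) := by
  have hO : IsOpen (univ ×ˢ Ioo (-δ) T : Set (ℝ × ℝ)) := isOpen_univ.prod isOpen_Ioo
  have hX : ∀ c : ℝ, ContinuousOn (fun z : ℝ × ℝ => XX (U z.2) c) (univ ×ˢ Ioo (-δ) T) :=
    fun c => (H.jc pXX).comp (f := fun z : ℝ × ℝ => (c, z.2)) (by fun_prop)
      fun z hz => ⟨trivial, hz.2⟩
  have h1 := ((continuous_fst (X := ℝ) (Y := ℝ)).continuousOn.sub (hX (-1))).isOpen_inter_preimage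
    hO (isOpen_Ioi (a := (0 : ℝ)))
  have h2 := ((hX 1).sub (continuous_fst (X := ℝ) (Y := ℝ)).continuousOn).isOpen_inter_preimage
    hO (isOpen_Ioi (a := (0 : ℝ)))
  convert h1.inter h2 using 1
  ext z
  simp only [PS, mem_setOf_eq, mem_inter_iff, mem_prod, mem_univ, true_and, mem_preimage, mem_Ioi,
    Pi.sub_apply, sub_pos]
  tauto

lemma smX (H : LSol h δ T U) :
    ContDiffOn ℝ ∞ (fun z : ℝ × ℝ => XX (U z.2) z.1) (OO (-δ) T) :=
  contDiffOn_infty.2 fun n => (H.smooth_nat n).2.2.2.1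

lemma smE (H : LSol h δ T U) :
    ContDiffOn ℝ ∞ (fun z : ℝ × ℝ => EE (U z.2) z.1) (OO (-δ) T) :=
  contDiffOn_infty.2 fun n => (H.smooth_nat n).2.2.2.2.1

lemma smW' (H : LSol h δ T U) :
    ContDiffOn ℝ ∞ (fun z : ℝ × ℝ => (U z.2).2.2 z.1) (OO (-δ) T) :=
  contDiffOn_infty.2 fun n => H.smW n

lemma smQ' (H : LSol h δ T U) :
    ContDiffOn ℝ ∞ (fun z : ℝ × ℝ => QQ q (U z.2) z.1) (OO (-δ) T) :=
  contDiffOn_infty.2 fun n => H.smQ n

/-- The derivative as a combination of the partial derivatives. -/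
lemma fd_eq {f : ℝ × ℝ → ℝ} {z : ℝ × ℝ} (hf : DifferentiableAt ℝ f z) {fa ft : ℝ}
    (h1 : HasDerivAt (fun a => f (a, z.2)) fa z.1) (h2 : HasDerivAt (fun s => f (z.1, s)) ft z.2) :
    fderiv ℝ f z = fa • ContinuousLinearMap.fst ℝ ℝ ℝ + ft • ContinuousLinearMap.snd ℝ ℝ ℝ := by
  have e1 := h1.unique (pd1 hf)
  have e2 := h2.unique (pd2 hf)
  ext
  · simp [e1]
  · simp [e2]

/-- The label is a smooth function of the position and the time. -/
theorem al_smooth (H : LSol h δ T U) : ContDiffOn ℝ ∞ (al U) (PS U δ T) := by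
  intro z hz
  apply ContDiffAt.contDiffWithinAt
  obtain ⟨ha, hXa⟩ := al_mem hz
  obtain ⟨p, hp⟩ : ∃ p : ℝ × ℝ, p = (al U z, z.2) := ⟨_, rfl⟩
  have hpO : p ∈ OO (-δ) T := by
    rw [hp]
    exact ⟨ha, hz.1⟩
  have hO := isOpen_OO (-δ) T
  obtain ⟨F, hF⟩ : ∃ F : ℝ × ℝ → ℝ × ℝ, F = fun z => (XX (U z.2) z.1, z.2) := ⟨_, rfl⟩
  have hFs : ContDiffAt ℝ ∞ F p := by
    rw [hF]
    exact (H.smX.contDiffAt (hO.mem_nhds hpO)).prodMk contDiff_snd.contDiffAt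
  have hFp : F p = z := by
    rw [hF, hp]
    exact Prod.ext hXa rfl
  obtain ⟨J, hJ⟩ : ∃ J, J = Real.exp ((U p.2).1 p.1) := ⟨_, rfl⟩
  have hJ0 : J ≠ 0 := by
    rw [hJ]
    exact (Real.exp_pos _).ne'
  obtain ⟨E, hE⟩ : ∃ E, E = 2 * EE (U p.2) p.1 := ⟨_, rfl⟩
  obtain ⟨L, hL⟩ : ∃ L : (ℝ × ℝ) ≃L[ℝ] (ℝ × ℝ), (L : (ℝ × ℝ) →L[ℝ] (ℝ × ℝ))
      = (J • ContinuousLinearMap.fst ℝ ℝ ℝ + E • ContinuousLinearMap.snd ℝ ℝ ℝ).prod
        (ContinuousLinearMap.snd ℝ ℝ ℝ) := by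
    refine ⟨ContinuousLinearEquiv.equivOfInverse
      ((J • ContinuousLinearMap.fst ℝ ℝ ℝ + E • ContinuousLinearMap.snd ℝ ℝ ℝ).prod
        (ContinuousLinearMap.snd ℝ ℝ ℝ))
      ((J⁻¹ • (ContinuousLinearMap.fst ℝ ℝ ℝ - E • ContinuousLinearMap.snd ℝ ℝ ℝ)).prod
        (ContinuousLinearMap.snd ℝ ℝ ℝ)) ?_ ?_, rfl⟩
    · intro v
      refine Prod.ext ?_ ?_
      · simp
        field_simp
      · simp
    · intro v
      refine Prod.ext ?_ ?_
      · simp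
        field_simp
        ring
      · simp
  have hFd : HasFDerivAt F (L : (ℝ × ℝ) →L[ℝ] (ℝ × ℝ)) p := by
    rw [hL, hF]
    have h1 : DifferentiableAt ℝ (fun z : ℝ × ℝ => XX (U z.2) z.1) p :=
      (H.smX.contDiffAt (hO.mem_nhds hpO)).differentiableAt (by simp)
    have h2 := fd_eq h1 (XX_hd (U p.2) hpO.1) (H.XX_t hpO.1 hpO.2)
    have h3 := h1.hasFDerivAt
    rw [h2, ← hJ, ← hE] at h3
    exact h3.prodMk hasFDerivAt_snd
  have hn : (∞ : WithTop ℕ∞) ≠ 0 := by simp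
  have hst := hFs.hasStrictFDerivAt' hFd hn
  have hG := hFs.to_localInverse hFd hn
  rw [hFp] at hG
  obtain ⟨G, hGd⟩ : ∃ G, G = hFs.localInverse hFd hn := ⟨_, rfl⟩
  have hGz : G z = p := by
    rw [hGd, ← hFp]
    exact hFs.localInverse_apply_image hFd hn
  have hri : ∀ᶠ y in 𝓝 z, F (G y) = y := by
    rw [hGd, ← hFp]
    exact hst.eventually_right_inverse
  rw [← hGd] at hG
  have hGO : ∀ᶠ y in 𝓝 z, G y ∈ OO (-δ) T := by
    have h1 : Tendsto G (𝓝 z) (𝓝 (G z)) := hG.continuousAt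
    rw [hGz] at h1
    exact h1.eventually (hO.mem_nhds hpO)
  have hfin : al U =ᶠ[𝓝 z] fun y => (G y).1 := by
    filter_upwards [hri, hGO] with y h1 h2
    rw [hF] at h1
    have h1' : (XX (U (G y).2) (G y).1, (G y).2) = y := h1
    have h3 : XX (U (G y).2) (G y).1 = y.1 := congrArg Prod.fst h1'
    have h4 : (G y).2 = y.2 := by
      have h5 := congrArg Prod.snd h1'
      exact h5
    rw [h4] at h3
    exact al_unique h2.1 h3
  exact (contDiff_fst.contDiffAt.comp z hG).congr_of_eventuallyEq hfin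

lemma al_dat (H : LSol h δ T U) {z : ℝ × ℝ} (hz : z ∈ PS U δ T) :
    DifferentiableAt ℝ (al U) z :=
  (H.al_smooth.contDiffAt (H.isOpen_PS.mem_nhds hz)).differentiableAt (by simp)

lemma ev1 (H : LSol h δ T U) {z : ℝ × ℝ} (hz : z ∈ PS U δ T) :
    ∀ᶠ θ in 𝓝 z.1, (θ, z.2) ∈ PS U δ T := by
  have h1 : Tendsto (fun b : ℝ => (b, z.2)) (𝓝 z.1) (𝓝 (z.1, z.2)) :=
    (Continuous.tendsto (by fun_prop) z.1)
  exact h1.eventually (H.isOpen_PS.mem_nhds hz)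

lemma ev2 (H : LSol h δ T U) {z : ℝ × ℝ} (hz : z ∈ PS U δ T) :
    ∀ᶠ s in 𝓝 z.2, (z.1, s) ∈ PS U δ T := by
  have h1 : Tendsto (fun b : ℝ => (z.1, b)) (𝓝 z.2) (𝓝 (z.1, z.2)) :=
    (Continuous.tendsto (by fun_prop) z.2)
  exact h1.eventually (H.isOpen_PS.mem_nhds hz)

/-- The derivative of the label with respect to the position. -/
lemma al_th (H : LSol h δ T U) {z : ℝ × ℝ} (hz : z ∈ PS U δ T) :
    HasDerivAt (fun θ => al U (θ, z.2)) (Real.exp (-(U z.2).1 (al U z))) z.1 := by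
  have h1 := pd1 (H.al_dat hz)
  obtain ⟨ha, hXa⟩ := al_mem hz
  have h2 : HasDerivAt (fun θ => XX (U z.2) (al U (θ, z.2)))
      (Real.exp ((U z.2).1 (al U z)) * fderiv ℝ (al U) z (1, 0)) z.1 :=
    (XX_hd (U z.2) ha).comp (h₂ := XX (U z.2)) z.1 h1
  have h3 : HasDerivAt (fun θ => XX (U z.2) (al U (θ, z.2))) 1 z.1 := by
    refine (hasDerivAt_id z.1).congr_of_eventuallyEq ?_
    filter_upwards [H.ev1 hz] with θ hθ
    exact (al_mem hθ).2
  have h4 := h2.unique h3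
  refine h1.congr_deriv ?_
  have e : Real.exp ((U z.2).1 (al U z)) * Real.exp (-(U z.2).1 (al U z)) = 1 := by
    rw [← Real.exp_add]
    simp
  have h5 := Real.exp_pos ((U z.2).1 (al U z))
  exact mul_left_cancel₀ h5.ne' (h4.trans e.symm)

/-- Composition with the label, derivative in the position. -/
lemma comp_th (H : LSol h δ T U) {z : ℝ × ℝ} (hz : z ∈ PS U δ T) {f : ℝ → ℝ} {f' : ℝ}
    (hf : HasDerivAt f f' (al U z)) :
    HasDerivAt (fun θ => f (al U (θ, z.2))) (f' * Real.exp (-(U z.2).1 (al U z))) z.1 :=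
  hf.comp (h₂ := f) z.1 (H.al_th hz)

/-- The chain rule in two variables. -/
lemma chain2 {f : ℝ × ℝ → ℝ} {g : ℝ → ℝ} {t g' fa ft : ℝ} (hf : DifferentiableAt ℝ f (g t, t))
    (hg : HasDerivAt g g' t)
    (h1 : HasDerivAt (fun a => f (a, t)) fa (g t)) (h2 : HasDerivAt (fun s => f (g t, s)) ft t) :
    HasDerivAt (fun s => f (g s, s)) (fa * g' + ft) t := by
  have h3 := fd_eq hf h1 h2
  have hg2 : HasDerivAt (fun s => (g s, s)) (g', (1 : ℝ)) t := hg.prodMk (hasDerivAt_id t)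
  have h4 := HasFDerivAt.comp_hasDerivAt (f := fun s => (g s, s)) t hf.hasFDerivAt hg2
  refine h4.congr_deriv ?_
  rw [h3]
  simp

/-- The derivative of the label in time. -/
lemma al_tm (H : LSol h δ T U) {z : ℝ × ℝ} (hz : z ∈ PS U δ T) :
    HasDerivAt (fun s => al U (z.1, s))
      (-(2 * EE (U z.2) (al U z) * Real.exp (-(U z.2).1 (al U z)))) z.2 := by
  have h1 := pd2 (H.al_dat hz)
  obtain ⟨ha, hXa⟩ := al_mem hz
  have hpO : (al U z, z.2) ∈ OO (-δ) T := ⟨ha, hz.1⟩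
  have hX : DifferentiableAt ℝ (fun z : ℝ × ℝ => XX (U z.2) z.1) (al U z, z.2) :=
    (H.smX.contDiffAt ((isOpen_OO (-δ) T).mem_nhds hpO)).differentiableAt (by simp)
  have h2 : HasDerivAt (fun s => XX (U s) (al U (z.1, s)))
      (Real.exp ((U z.2).1 (al U z)) * fderiv ℝ (al U) z (0, 1) + 2 * EE (U z.2) (al U z)) z.2 :=
    chain2 (g := fun s => al U (z.1, s)) hX h1 (XX_hd (U z.2) ha) (H.XX_t ha hz.1)
  have h3 : HasDerivAt (fun s => XX (U s) (al U (z.1, s))) 0 z.2 := by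
    refine (hasDerivAt_const z.2 z.1).congr_of_eventuallyEq ?_
    filter_upwards [H.ev2 hz] with s hs
    exact (al_mem hs).2
  have h4 := h2.unique h3
  refine h1.congr_deriv ?_
  have e : Real.exp ((U z.2).1 (al U z)) * Real.exp (-(U z.2).1 (al U z)) = 1 := by
    rw [← Real.exp_add]
    simp
  have h5 := Real.exp_pos ((U z.2).1 (al U z))
  refine mul_left_cancel₀ h5.ne' ?_
  linear_combination h4 + 2 * EE (U z.2) (al U z) * e

/-- Composition with the label, derivative in time. -/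
lemma comp_tm (H : LSol h δ T U) {z : ℝ × ℝ} (hz : z ∈ PS U δ T) {f : ℝ × ℝ → ℝ} {fa ft : ℝ}
    (hf : ContDiffOn ℝ ∞ f (OO (-δ) T)) (h1 : HasDerivAt (fun a => f (a, z.2)) fa (al U z))
    (h2 : HasDerivAt (fun s => f (al U z, s)) ft z.2) :
    HasDerivAt (fun s => f (al U (z.1, s), s))
      (ft - 2 * EE (U z.2) (al U z) * (fa * Real.exp (-(U z.2).1 (al U z)))) z.2 := by
  have ha := (al_mem hz).1
  have hpO : (al U z, z.2) ∈ OO (-δ) T := ⟨ha, hz.1⟩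
  have hfd : DifferentiableAt ℝ f (al U z, z.2) :=
    (hf.contDiffAt ((isOpen_OO (-δ) T).mem_nhds hpO)).differentiableAt (by simp)
  refine (chain2 (g := fun s => al U (z.1, s)) hfd (H.al_tm hz) h1 h2).congr_deriv ?_
  ring

/-- Smoothness of compositions. -/
lemma comp_sm (H : LSol h δ T U) {f : ℝ × ℝ → ℝ} (hf : ContDiffOn ℝ ∞ f (OO (-δ) T)) :
    ContDiffOn ℝ ∞ (fun z => f (al U z, z.2)) (PS U δ T) :=
  hf.comp (f := fun z : ℝ × ℝ => (al U z, z.2)) (H.al_smooth.prodMk contDiff_snd.contDiffOn)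
    fun z hz => ⟨(al_mem hz).1, hz.1⟩

end LSol

end Pool.Agent.TH305.BQ
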