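import Pool.Agent.TH305.BQ.Field

/-!
The scale-invariant Boussinesq system in Lagrangian variables (helper305): derivatives.
-/

set_option autoImplicit false

open MeasureTheory Set Filter Topology
open scoped ContDiff BoundedContinuousFunction

namespace Pool.Agent.TH305.BQ

variable {q w : ℝ → ℝ}

lemma toB_cont {ψ : ES → ℝ → ℝ} (h : PBL ψ) : Continuous h.toB := by
  rw [continuous_iff_continuousAt]
  intro U
  obtain ⟨C, hC⟩ := h.toB_lip (‖U‖ + 1)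
  refine hC.continuousOn.continuousAt ?_
  refine Filter.mem_of_superset (Metric.ball_mem_nhds U one_pos) fun V hV => ?_
  rw [mem_closedBall_zero_iff]
  rw [Metric.mem_ball, dist_eq_norm] at hV
  have := norm_add_le U (V - U)
  rw [add_sub_cancel] at this
  linarith

/-- The derivative of a primitive. -/
lemma cl_hd {f : ℝ → ℝ} (hf : Continuous f) {a : ℝ} (ha : a ∈ Ioo (-1 : ℝ) 1) :
    HasDerivAt (fun a => ∫ b in (0 : ℝ)..cl a, f b) (f a) a := by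
  have h1 : HasDerivAt (fun a => ∫ b in (0 : ℝ)..a, f b) (f a) a :=
    intervalIntegral.integral_hasDerivAt_right (hf.intervalIntegrable _ _)
      (hf.stronglyMeasurableAtFilter _ _) hf.continuousAt
  refine h1.congr_of_eventuallyEq ?_
  filter_upwards [Ioo_mem_nhds ha.1 ha.2] with b hb
  rw [cl_of_mem ⟨hb.1.le, hb.2.le⟩]

lemma XX_hd (U : ES) {a : ℝ} (ha : a ∈ Ioo (-1 : ℝ) 1) :
    HasDerivAt (XX U) (Real.exp (U.1 a)) a := cl_hd (pJ.cont U) ha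

lemma AA_hd (U : ES) {a : ℝ} (ha : a ∈ Ioo (-1 : ℝ) 1) :
    HasDerivAt (AA U) (Real.sin (2 * XX U a) * U.2.2 a * Real.exp (U.1 a)) a :=
  cl_hd (((pS.mul PBL.trd).mul pJ).cont U) ha

lemma KK_hd (U : ES) {a : ℝ} (ha : a ∈ Ioo (-1 : ℝ) 1) :
    HasDerivAt (KK U) (Real.cos (2 * XX U a) * U.2.2 a * Real.exp (U.1 a)) a :=
  cl_hd (((pC.mul PBL.trd).mul pJ).cont U) ha

lemma BB_hd (U : ES) {a : ℝ} (ha : a ∈ Ioo (-1 : ℝ) 1) :
    HasDerivAt (BB U) (-(Real.cos (2 * XX U a) * U.2.2 a * Real.exp (U.1 a))) a :=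
  (KK_hd U ha).const_sub _

lemma S_hd (U : ES) {a : ℝ} (ha : a ∈ Ioo (-1 : ℝ) 1) :
    HasDerivAt (fun a => Real.sin (2 * XX U a))
      (Real.cos (2 * XX U a) * (2 * Real.exp (U.1 a))) a :=
  ((XX_hd U ha).const_mul 2).sin

lemma C_hd (U : ES) {a : ℝ} (ha : a ∈ Ioo (-1 : ℝ) 1) :
    HasDerivAt (fun a => Real.cos (2 * XX U a))
      (-Real.sin (2 * XX U a) * (2 * Real.exp (U.1 a))) a :=
  ((XX_hd U ha).const_mul 2).cos

lemma EE_hd (U : ES) {a : ℝ} (ha : a ∈ Ioo (-1 : ℝ) 1) :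
    HasDerivAt (EE U) (Real.exp (U.1 a) * DD U a) a := by
  have h := ((((S_hd U ha).mul (BB_hd U ha)).add ((C_hd U ha).mul (AA_hd U ha))).const_mul
    (1 / 2 : ℝ))
  refine h.congr_deriv ?_
  unfold DD
  ring

lemma DD_hd (U : ES) {a : ℝ} (ha : a ∈ Ioo (-1 : ℝ) 1) :
    HasDerivAt (DD U) (-((U.2.2 a + 4 * EE U a) * Real.exp (U.1 a))) a := by
  have h := ((C_hd U ha).mul (BB_hd U ha)).sub ((S_hd U ha).mul (AA_hd U ha))
  refine h.congr_deriv ?_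
  unfold EE
  have := Real.sin_sq_add_cos_sq (2 * XX U a)
  linear_combination (-(U.2.2 a * Real.exp (U.1 a))) * this

lemma F1_hd (U : ES) {a : ℝ} (ha : a ∈ Ioo (-1 : ℝ) 1) : HasDerivAt (F1 U) (F2 U a) a := by
  refine ((DD_hd U ha).const_mul 2).congr_deriv ?_
  unfold F2
  ring

lemma XX_zero (U : ES) : XX U 0 = 0 := by
  unfold XX
  rw [cl_of_mem (by constructor <;> norm_num)]
  simp

lemma AA_zero (U : ES) : AA U 0 = 0 := by
  unfold AA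
  rw [cl_of_mem (by constructor <;> norm_num)]
  simp

lemma EE_zero (U : ES) : EE U 0 = 0 := by
  unfold EE
  rw [XX_zero, AA_zero]
  simp

/-- A solution of the Lagrangian system. -/
structure LSol (h : Dat q w) (δ T : ℝ) (U : ℝ → ES) : Prop where
  hδ : 0 < δ
  hT : 0 < T
  ini : U 0 = h.ini
  ode : ∀ t ∈ Ioo (-δ) T, HasDerivAt U (h.field (U t)) t

variable {h : Dat q w} {δ T : ℝ} {U : ℝ → ES}

namespace LSol

lemma zero_mem' (H : LSol h δ T U) : (0 : ℝ) ∈ Ioo (-δ) T := ⟨by linarith [H.hδ], H.hT⟩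

lemma cont (H : LSol h δ T U) : ContinuousOn U (Ioo (-δ) T) := fun t ht =>
  (H.ode t ht).continuousAt.continuousWithinAt

/-- Joint continuity. -/
lemma jc (H : LSol h δ T U) {ψ : ES → ℝ → ℝ} (hψ : PBL ψ) :
    ContinuousOn (fun z : ℝ × ℝ => ψ (U z.2) z.1) (univ ×ˢ Ioo (-δ) T) := by
  have h1 : ContinuousOn (fun z : ℝ × ℝ => hψ.toB (U z.2)) (univ ×ˢ Ioo (-δ) T) :=
    (toB_cont hψ).comp_continuousOn (H.cont.comp continuous_snd.continuousOn fun z hz => hz.2)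
  have h2 : ContinuousOn (fun z : ℝ × ℝ => (hψ.toB (U z.2), z.1)) (univ ×ˢ Ioo (-δ) T) :=
    h1.prodMk continuous_fst.continuousOn
  have h3 : Continuous fun p : (ℝ →ᵇ ℝ) × ℝ => p.1 p.2 := by fun_prop
  exact h3.comp_continuousOn h2

lemma d1 (H : LSol h δ T U) {t : ℝ} (ht : t ∈ Ioo (-δ) T) (a : ℝ) :
    HasDerivAt (fun s => (U s).1 a) (F1 (U t) a) t := by
  have h1 := (((BoundedContinuousFunction.evalCLM ℝ a).comp
    (ContinuousLinearMap.fst ℝ (ℝ →ᵇ ℝ) ((ℝ →ᵇ ℝ) × (ℝ →ᵇ ℝ)))).hasFDerivAt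
    (x := U t)).comp_hasDerivAt t (H.ode t ht)
  exact h1

lemma d2 (H : LSol h δ T U) {t : ℝ} (ht : t ∈ Ioo (-δ) T) (a : ℝ) :
    HasDerivAt (fun s => (U s).2.1 a) (F2 (U t) a) t := by
  have h1 := (((BoundedContinuousFunction.evalCLM ℝ a).comp
    ((ContinuousLinearMap.fst ℝ (ℝ →ᵇ ℝ) (ℝ →ᵇ ℝ)).comp
    (ContinuousLinearMap.snd ℝ (ℝ →ᵇ ℝ) ((ℝ →ᵇ ℝ) × (ℝ →ᵇ ℝ))))).hasFDerivAt
    (x := U t)).comp_hasDerivAt t (H.ode t ht)
  exact h1

lemma d3 (H : LSol h δ T U) {t : ℝ} (ht : t ∈ Ioo (-δ) T) (a : ℝ) :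
    HasDerivAt (fun s => (U s).2.2 a) (F3 q (U t) a) t := by
  have h1 := (((BoundedContinuousFunction.evalCLM ℝ a).comp
    ((ContinuousLinearMap.snd ℝ (ℝ →ᵇ ℝ) (ℝ →ᵇ ℝ)).comp
    (ContinuousLinearMap.snd ℝ (ℝ →ᵇ ℝ) ((ℝ →ᵇ ℝ) × (ℝ →ᵇ ℝ))))).hasFDerivAt
    (x := U t)).comp_hasDerivAt t (H.ode t ht)
  exact h1

lemma ini1 (H : LSol h δ T U) (a : ℝ) : (U 0).1 a = 0 := by rw [H.ini]; rfl

lemma ini2 (H : LSol h δ T U) (a : ℝ) : (U 0).2.1 a = 0 := by rw [H.ini]; rfl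

lemma ini3 (H : LSol h δ T U) (a : ℝ) : (U 0).2.2 a = w a := by rw [H.ini]; rfl

lemma uIcc_subT (H : LSol h δ T U) {t : ℝ} (ht : t ∈ Ioo (-δ) T) :
    uIcc 0 t ⊆ Ioo (-δ) T := (convex_Ioo (-δ) T).ordConnected.uIcc_subset H.zero_mem' ht

/-- Integral form of an evolution equation. -/
lemma ftc (H : LSol h δ T U) {g : ℝ → ℝ} {ψ : ES → ℝ → ℝ} (hψ : PBL ψ) {a t : ℝ}
    (ht : t ∈ Ioo (-δ) T) (hg : ∀ s ∈ Ioo (-δ) T, HasDerivAt g (ψ (U s) a) s) :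
    g t = g 0 + ∫ s in (0 : ℝ)..t, ψ (U s) a := by
  have h1 : ContinuousOn (fun s => ψ (U s) a) (Ioo (-δ) T) :=
    (H.jc hψ).comp (f := fun s : ℝ => (a, s)) (by fun_prop) fun s hs => ⟨trivial, hs⟩
  rw [intervalIntegral.integral_eq_sub_of_hasDerivAt (f := g)
    (fun s hs => hg s (H.uIcc_subT ht hs)) ((h1.mono (H.uIcc_subT ht)).intervalIntegrable)]
  ring

/-- `μ` is the derivative of `λ`. -/
lemma lam_a (H : LSol h δ T U) {a t : ℝ} (ha : a ∈ Ioo (-1 : ℝ) 1) (ht : t ∈ Ioo (-δ) T) :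
    HasDerivAt (fun a => (U t).1 a) ((U t).2.1 a) a := by
  have hsw : ∀ {ψ : ES → ℝ → ℝ}, PBL ψ → ContinuousOn (fun z : ℝ × ℝ => ψ (U z.1) z.2)
      (uIcc 0 t ×ˢ Ioo (-1 : ℝ) 1) := fun hψ =>
    (H.jc hψ).comp (f := fun z : ℝ × ℝ => (z.2, z.1)) (by fun_prop)
      fun z hz => ⟨trivial, H.uIcc_subT ht hz.1⟩
  have e1 : ∀ a, (U t).1 a = ∫ s in (0 : ℝ)..t, F1 (U s) a := fun a => by
    have := H.ftc pF1 ht (g := fun s => (U s).1 a) fun s hs => H.d1 hs a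
    rw [this, H.ini1, zero_add]
  have e2 : (U t).2.1 a = ∫ s in (0 : ℝ)..t, F2 (U s) a := by
    have := H.ftc pF2 ht (g := fun s => (U s).2.1 a) fun s hs => H.d2 hs a
    rw [this, H.ini2, zero_add]
  rw [e2]
  simp only [e1]
  refine int_hd (g := fun s a => F1 (U s) a) (gt := fun s a => F2 (U s) a) ha (hsw pF2) ?_ ?_
  · intro b hb
    exact (hsw pF1).comp (f := fun s : ℝ => (s, b)) (by fun_prop) fun s hs => ⟨hs, hb⟩
  · intro s _ b hb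
    exact F1_hd (U s) hb

/-- The path of the label `a` moves with the velocity. -/
lemma XX_t (H : LSol h δ T U) {a t : ℝ} (ha : a ∈ Ioo (-1 : ℝ) 1) (ht : t ∈ Ioo (-δ) T) :
    HasDerivAt (fun s => XX (U s) a) (2 * EE (U t) a) t := by
  have e1 : ∀ s, XX (U s) a = ∫ b in (0 : ℝ)..a, Real.exp ((U s).1 b) := fun s => by
    unfold XX
    rw [cl_of_mem ⟨ha.1.le, ha.2.le⟩]
  have e2 : 2 * EE (U t) a = ∫ b in (0 : ℝ)..a, Real.exp ((U t).1 b) * F1 (U t) b := by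
    have h1 : ∀ b ∈ uIcc 0 a, HasDerivAt (fun b => 2 * EE (U t) b)
        (Real.exp ((U t).1 b) * F1 (U t) b) b := by
      intro b hb
      refine ((EE_hd (U t) (uIcc_sub zero_mem ha hb)).const_mul 2).congr_deriv ?_
      unfold F1
      ring
    rw [intervalIntegral.integral_eq_sub_of_hasDerivAt h1
      (((pJ.mul pF1).cont (U t)).intervalIntegrable _ _), EE_zero]
    ring
  rw [e2]
  simp only [e1]
  refine int_hd (g := fun b s => Real.exp ((U s).1 b))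
    (gt := fun b s => Real.exp ((U s).1 b) * F1 (U s) b) ht ?_ ?_ ?_
  · exact (H.jc (pJ.mul pF1)).mono (prod_mono (subset_univ _) le_rfl)
  · intro s _
    exact ((pJ).cont (U s)).continuousOn
  · intro b _ s hs
    exact (H.d1 hs b).exp

end LSol

end Pool.Agent.TH305.BQ
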