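import Pool.Agent.TH305.BQ.Pos

/-!
The scale-invariant Boussinesq system (helper305): derivatives with respect to the labels.
-/

set_option autoImplicit false

open MeasureTheory Set Filter Topology
open scoped ContDiff BoundedContinuousFunction

namespace Pool.Agent.TH305.BQ

/-- The first partial derivative. -/
lemma pd1 {f : ℝ × ℝ → ℝ} {z : ℝ × ℝ} (hf : DifferentiableAt ℝ f z) :
    HasDerivAt (fun a => f (a, z.2)) (fderiv ℝ f z (1, 0)) z.1 := by
  have h2 : HasDerivAt (fun s : ℝ => (s, z.2)) ((1 : ℝ), (0 : ℝ)) z.1 :=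
    (hasDerivAt_id _).prodMk (hasDerivAt_const _ _)
  exact hf.hasFDerivAt.comp_hasDerivAt z.1 h2

/-- The second partial derivative. -/
lemma pd2 {f : ℝ × ℝ → ℝ} {z : ℝ × ℝ} (hf : DifferentiableAt ℝ f z) :
    HasDerivAt (fun s => f (z.1, s)) (fderiv ℝ f z (0, 1)) z.2 := by
  have h2 : HasDerivAt (fun s : ℝ => (z.1, s)) ((0 : ℝ), (1 : ℝ)) z.2 :=
    (hasDerivAt_const _ _).prodMk (hasDerivAt_id _)
  exact hf.hasFDerivAt.comp_hasDerivAt z.2 h2

/-- Mixed partial derivatives. -/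
theorem mixed {O : Set (ℝ × ℝ)} (hO : IsOpen O) {f g : ℝ × ℝ → ℝ} {ga : ℝ} {a t : ℝ}
    (hf : ContDiffOn ℝ 2 f O) (hz : (a, t) ∈ O)
    (hg : ∀ z ∈ O, HasDerivAt (fun s => f (z.1, s)) (g z) z.2)
    (hga : HasDerivAt (fun b => g (b, t)) ga a) :
    HasDerivAt (fun s => deriv (fun b => f (b, s)) a) ga t := by
  have hf' := (contDiffOn_succ_iff_fderiv_of_isOpen (n := 1) hO).1 (by exact_mod_cast hf)
  have hd1 : ∀ z ∈ O, DifferentiableAt ℝ f z := fun z hz =>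
    (hf'.1.differentiableAt (hO.mem_nhds hz))
  have hd2 : DifferentiableAt ℝ (fderiv ℝ f) (a, t) :=
    (hf'.2.2.differentiableOn (by norm_num)).differentiableAt (hO.mem_nhds hz)
  have hsym : IsSymmSndFDerivAt ℝ f (a, t) := by
    have h1 : ContDiffAt ℝ 2 f (a, t) := hf.contDiffAt (hO.mem_nhds hz)
    exact h1.isSymmSndFDerivAt (by simp [minSmoothness])
  have ea : ∀ᶠ b in 𝓝 a, (b, t) ∈ O := by
    have h1 : Tendsto (fun b : ℝ => (b, t)) (𝓝 a) (𝓝 (a, t)) :=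
      (Continuous.tendsto (by fun_prop) a)
    exact h1.eventually (hO.mem_nhds hz)
  have et : ∀ᶠ s in 𝓝 t, (a, s) ∈ O := by
    have h1 : Tendsto (fun s : ℝ => (a, s)) (𝓝 t) (𝓝 (a, t)) :=
      (Continuous.tendsto (by fun_prop) t)
    exact h1.eventually (hO.mem_nhds hz)
  -- the derivative of the first partial derivative
  have k1 : HasDerivAt (fun s => fderiv ℝ f (a, s) (1, 0))
      (fderiv ℝ (fderiv ℝ f) (a, t) (0, 1) (1, 0)) t := by
    have h2 : HasDerivAt (fun s : ℝ => (a, s)) ((0 : ℝ), (1 : ℝ)) t :=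
      (hasDerivAt_const _ _).prodMk (hasDerivAt_id _)
    have h3 := hd2.hasFDerivAt.comp_hasDerivAt t h2
    exact h3.clm_apply (hasDerivAt_const t ((1 : ℝ), (0 : ℝ))) |>.congr_deriv (by simp)
  have k2 : HasDerivAt (fun b => fderiv ℝ f (b, t) (0, 1))
      (fderiv ℝ (fderiv ℝ f) (a, t) (1, 0) (0, 1)) a := by
    have h2 : HasDerivAt (fun b : ℝ => (b, t)) ((1 : ℝ), (0 : ℝ)) a :=
      (hasDerivAt_id _).prodMk (hasDerivAt_const _ _)
    have h3 := hd2.hasFDerivAt.comp_hasDerivAt a h2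
    exact h3.clm_apply (hasDerivAt_const a ((0 : ℝ), (1 : ℝ))) |>.congr_deriv (by simp)
  have k3 : HasDerivAt (fun b => g (b, t)) (fderiv ℝ (fderiv ℝ f) (a, t) (1, 0) (0, 1)) a := by
    refine k2.congr_of_eventuallyEq ?_
    filter_upwards [ea] with b hb
    exact (hg (b, t) hb).unique (pd2 (hd1 (b, t) hb))
  have k4 : ga = fderiv ℝ (fderiv ℝ f) (a, t) (0, 1) (1, 0) := by
    rw [hga.unique k3]
    exact hsym _ _
  rw [k4]
  refine k1.congr_of_eventuallyEq ?_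
  filter_upwards [et] with s hs
  exact (pd1 (hd1 (a, s) hs)).deriv

variable {q w : ℝ → ℝ} {h : Dat q w} {δ T : ℝ} {U : ℝ → ES}

/-- The gradient of the vorticity, in labels. -/
noncomputable def Zf (V : ES) (a : ℝ) : ℝ := deriv V.2.2 a * Real.exp (-V.1 a)

/-- Minus the second derivative of the density factor, in labels. -/
noncomputable def Yf (q : ℝ → ℝ) (V : ES) (a : ℝ) : ℝ :=
  -(deriv (PP q V) a * Real.exp (-V.1 a) + QQ q V a)

namespace LSol

lemma smW (H : LSol h δ T U) (n : ℕ) :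
    ContDiffOn ℝ n (fun z : ℝ × ℝ => (U z.2).2.2 z.1) (OO (-δ) T) := (H.smooth_nat n).2.2.1

lemma smP (H : LSol h δ T U) (n : ℕ) :
    ContDiffOn ℝ n (fun z : ℝ × ℝ => PP q (U z.2) z.1) (OO (-δ) T) := by
  obtain ⟨hL, hM, -, -, -, -⟩ := H.smooth_nat n
  have hsq : ContDiffOn ℝ n (fun z : ℝ × ℝ => q z.1) (OO (-δ) T) :=
    ((h.sq.of_le (by exact_mod_cast le_top)).comp contDiff_fst).contDiffOn
  have hsq' : ContDiffOn ℝ n (fun z : ℝ × ℝ => deriv q z.1) (OO (-δ) T) := by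
    have h1 : ContDiff ℝ ∞ (deriv q) := by
      have h2 : ContDiff ℝ (∞ + 1) q := h.sq
      exact ((contDiff_succ_iff_deriv (n := ∞)).1 h2).2.2
    exact ((h1.of_le (by exact_mod_cast le_top)).comp contDiff_fst).contDiffOn
  exact (hsq'.add (contDiffOn_const.mul (hsq.mul hM))).mul (contDiffOn_const.mul hL).exp

lemma smQ (H : LSol h δ T U) (n : ℕ) :
    ContDiffOn ℝ n (fun z : ℝ × ℝ => QQ q (U z.2) z.1) (OO (-δ) T) := by
  obtain ⟨hL, -, -, -, -, -⟩ := H.smooth_nat n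
  have hsq : ContDiffOn ℝ n (fun z : ℝ × ℝ => q z.1) (OO (-δ) T) :=
    ((h.sq.of_le (by exact_mod_cast le_top)).comp contDiff_fst).contDiffOn
  exact hsq.mul (contDiffOn_const.mul hL).exp

lemma W_a (H : LSol h δ T U) {a t : ℝ} (ha : a ∈ Ioo (-1 : ℝ) 1) (ht : t ∈ Ioo (-δ) T) :
    HasDerivAt (fun b => (U t).2.2 b) (deriv (U t).2.2 a) a := by
  have h1 := ((H.smW 1).differentiableOn (by norm_num)).differentiableAt
    ((isOpen_OO (-δ) T).mem_nhds (x := (a, t)) ⟨ha, ht⟩)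
  exact (pd1 h1).differentiableAt.hasDerivAt

lemma P_a (H : LSol h δ T U) {a t : ℝ} (ha : a ∈ Ioo (-1 : ℝ) 1) (ht : t ∈ Ioo (-δ) T) :
    HasDerivAt (PP q (U t)) (deriv (PP q (U t)) a) a := by
  have h1 := ((H.smP 1).differentiableOn (by norm_num)).differentiableAt
    ((isOpen_OO (-δ) T).mem_nhds (x := (a, t)) ⟨ha, ht⟩)
  exact (pd1 h1).differentiableAt.hasDerivAt

lemma Q_a (H : LSol h δ T U) {a t : ℝ} (ha : a ∈ Ioo (-1 : ℝ) 1) (ht : t ∈ Ioo (-δ) T) :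
    HasDerivAt (QQ q (U t)) (PP q (U t) a * Real.exp ((U t).1 a)) a := by
  have h1 : HasDerivAt q (deriv q a) a :=
    (h.sq.differentiable (by simp) a).hasDerivAt
  have h2 := h1.mul (((H.lam_a ha ht).const_mul (1 / 2 : ℝ)).exp)
  refine h2.congr_deriv ?_
  unfold PP
  have e : Real.exp (1 / 2 * (U t).1 a) = Real.exp (-(1 / 2) * (U t).1 a)
      * Real.exp ((U t).1 a) := by
    rw [← Real.exp_add]
    congr 1
    ring
  rw [e]
  ring

lemma Z_t (H : LSol h δ T U) {a t : ℝ} (ha : a ∈ Ioo (-1 : ℝ) 1) (ht : t ∈ Ioo (-δ) T) :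
    HasDerivAt (fun s => Zf (U s) a)
      (-2 * DD (U t) a * Zf (U t) a + Yf q (U t) a * Real.cos (XX (U t) a)) t := by
  have hO := isOpen_OO (-δ) T
  have hga : HasDerivAt (fun b => F3 q (U t) b) (-(PP q (U t) a * Real.exp ((U t).1 a)
      * Real.sin (XX (U t) a) + QQ q (U t) a * (Real.cos (XX (U t) a) * Real.exp ((U t).1 a))
      + (deriv (PP q (U t)) a * Real.cos (XX (U t) a)
        + PP q (U t) a * (-Real.sin (XX (U t) a) * Real.exp ((U t).1 a))))) a :=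
    (((H.Q_a ha ht).mul (XX_hd (U t) ha).sin).add ((H.P_a ha ht).mul (XX_hd (U t) ha).cos)).neg
  have h1 := mixed hO (H.smW 2) (a := a) (t := t) ⟨ha, ht⟩ (g := fun z => F3 q (U z.2) z.1)
    (fun z hz => H.d3 hz.2 z.1) hga
  have h2 := h1.mul (H.d1 ht a).fun_neg.exp
  refine h2.congr_deriv ?_
  unfold Zf Yf F1
  have e : Real.exp ((U t).1 a) * Real.exp (-(U t).1 a) = 1 := by
    rw [← Real.exp_add]
    simp
  linear_combination (-(QQ q (U t) a * Real.cos (XX (U t) a))) * e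

lemma Y_t (H : LSol h δ T U) {a t : ℝ} (ha : a ∈ Ioo (-1 : ℝ) 1) (ht : t ∈ Ioo (-δ) T) :
    HasDerivAt (fun s => Yf q (U s) a)
      (-3 * DD (U t) a * Yf q (U t) a + QQ q (U t) a * Zf (U t) a) t := by
  have hO := isOpen_OO (-δ) T
  have hga := ((((DD_hd (U t) ha).mul (H.P_a ha ht)).neg).sub
    (((H.W_a ha ht).add ((EE_hd (U t) ha).const_mul 4)).mul (H.Q_a ha ht)))
  have h1 := mixed hO (H.smP 2) (a := a) (t := t) ⟨ha, ht⟩
    (g := fun z => -(DD (U z.2) z.1 * PP q (U z.2) z.1)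
      - ((U z.2).2.2 z.1 + 4 * EE (U z.2) z.1) * QQ q (U z.2) z.1)
    (fun z hz => H.dP hz.2 z.1) hga
  have h2 := ((h1.mul (H.d1 ht a).fun_neg.exp).add (H.dQ ht a)).fun_neg
  refine h2.congr_deriv ?_
  unfold Zf Yf F1
  have e : Real.exp ((U t).1 a) * Real.exp (-(U t).1 a) = 1 := by
    rw [← Real.exp_add]
    simp
  simp only [Pi.add_apply]
  linear_combination (4 * DD (U t) a * QQ q (U t) a) * e

end LSol

end Pool.Agent.TH305.BQ
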