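import Pool.Agent.TH305.BQ.Cont

/-!
The scale-invariant Boussinesq system (helper305): signs.
-/

set_option autoImplicit false

open MeasureTheory Set Filter Topology
open scoped ContDiff BoundedContinuousFunction

namespace Pool.Agent.TH305.BQ

variable {q w : ℝ → ℝ} {h : Dat q w} {δ T : ℝ} {U : ℝ → ES}

lemma AA_eq (V : ES) (a : ℝ) :
    AA V a = 2 * EE V a * Real.cos (2 * XX V a) - DD V a * Real.sin (2 * XX V a) := by
  unfold EE DD
  have := Real.sin_sq_add_cos_sq (2 * XX V a)
  linear_combination (-AA V a) * this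

lemma cos_half {x : ℝ} (hx : x ∈ Icc 0 (Real.pi / 4)) : 1 / 2 ≤ Real.cos x := by
  have h1 : Real.cos (Real.pi / 3) ≤ Real.cos x :=
    Real.cos_le_cos_of_nonneg_of_le_pi hx.1 (by linarith [Real.pi_pos]) (by linarith [hx.2, Real.pi_pos])
  rw [Real.cos_pi_div_three] at h1
  exact h1

lemma sin2_nn {x : ℝ} (hx : x ∈ Icc 0 (Real.pi / 4)) :
    0 ≤ Real.sin (2 * x) ∧ 0 ≤ Real.cos (2 * x) :=
  ⟨Real.sin_nonneg_of_nonneg_of_le_pi (by linarith [hx.1]) (by linarith [hx.2, Real.pi_pos]),
    Real.cos_nonneg_of_neg_pi_div_two_le_of_le (by linarith [hx.1, Real.pi_pos])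
      (by linarith [hx.2])⟩

namespace LSol

lemma F3_t (H : LSol h δ T U) {t : ℝ} (ht : t ∈ Ico 0 T) {a : ℝ} (ha : a ∈ Icc 0 (Real.pi / 4)) :
    HasDerivAt (fun s => F3 q (U s) a)
      (-(DD (U t) a + 2 * EE (U t) a * (Real.sin (XX (U t) a) / Real.cos (XX (U t) a)))
        * F3 q (U t) a + QQ q (U t) a * ((U t).2.2 a * Real.cos (XX (U t) a)
          + AA (U t) a / Real.cos (XX (U t) a))) t := by
  have ht' : t ∈ Ioo (-δ) T := ⟨by linarith [H.hδ, ht.1], ht.2⟩
  have ha' : a ∈ Ioo (-1 : ℝ) 1 := ⟨by linarith [ha.1], ha.2.trans_lt pi4_mem.2⟩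
  have hX := (H.good ht).XX_mem ha
  have hc : Real.cos (XX (U t) a) ≠ 0 := by
    have := cos_half hX
    intro h0
    rw [h0] at this
    norm_num at this
  have h1 := ((H.dQ ht' a).mul (H.XX_t ha' ht').sin).add ((H.dP ht' a).mul (H.XX_t ha' ht').cos)
  refine h1.fun_neg.congr_deriv ?_
  rw [AA_eq]
  have e1 := Real.sin_two_mul (XX (U t) a)
  have e2 := Real.cos_two_mul (XX (U t) a)
  have e3 := Real.sin_sq_add_cos_sq (XX (U t) a)
  rw [e1, e2]
  unfold F3
  obtain ⟨s, hs⟩ : ∃ s, s = Real.sin (XX (U t) a) := ⟨_, rfl⟩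
  obtain ⟨c, hc'⟩ : ∃ c, c = Real.cos (XX (U t) a) := ⟨_, rfl⟩
  rw [← hs, ← hc'] at e3
  rw [← hc'] at hc
  rw [← hs, ← hc']
  field_simp
  have e4 : s ^ 2 = 1 - c ^ 2 := by linarith
  ring_nf
  rw [e4]
  ring

/-- Vorticity and forcing have a sign. -/
theorem pos (H : LSol h δ T U) {t : ℝ} (ht : t ∈ Ico 0 T) :
    (∀ a ∈ Icc 0 (Real.pi / 4), 0 ≤ (U t).2.2 a) ∧
      ∀ a ∈ Icc 0 (Real.pi / 4), 0 ≤ F3 q (U t) a := by
  obtain ⟨R, hR0, hR⟩ := H.bdd ht.2
  obtain ⟨CE, hCE0, hCE⟩ := pEE.bl R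
  obtain ⟨CD, hCD0, hCD⟩ := pDD.bl R
  obtain ⟨CQ, hCQ0, hCQ⟩ := h.pQQ.bl R
  obtain ⟨CF, hCF0, hCF⟩ := h.pF3.bl R
  obtain ⟨Λ, hΛ⟩ : ∃ Λ, Λ = CD + 4 * CE := ⟨_, rfl⟩
  have hΛ0 : 0 ≤ Λ := by rw [hΛ]; positivity
  have hI : ∀ s ∈ Icc 0 t, s ∈ Ico 0 T := fun s hs => ⟨hs.1, hs.2.trans_lt ht.2⟩
  have hI' : ∀ s ∈ Icc 0 t, s ∈ Ioo (-δ) T := fun s hs =>
    ⟨by linarith [H.hδ, hs.1], hs.2.trans_lt ht.2⟩
  have key := volterra (ι := Bool × Icc (0 : ℝ) (Real.pi / 4)) (T := t)
    (C := 1 + 2 * Λ + Real.exp (Λ * t) * CQ * 3) (M := R + CF * Real.exp (Λ * t))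
    (u := fun p s => if p.1 then -(U s).2.2 p.2 else -(F3 q (U s) p.2 * Real.exp (Λ * s)))
    (u' := fun p s => if p.1 then -F3 q (U s) p.2 else
      -((-(DD (U s) p.2 + 2 * EE (U s) p.2
          * (Real.sin (XX (U s) p.2) / Real.cos (XX (U s) p.2))) * F3 q (U s) p.2
        + QQ q (U s) p.2 * ((U s).2.2 p.2 * Real.cos (XX (U s) p.2)
          + AA (U s) p.2 / Real.cos (XX (U s) p.2))) * Real.exp (Λ * s)
        + F3 q (U s) p.2 * (Real.exp (Λ * s) * Λ))) (by positivity) (by positivity) ?_ ?_ ?_ ?_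
  · have htt : t ∈ Icc 0 t := ⟨ht.1, le_rfl⟩
    refine ⟨fun a ha => ?_, fun a ha => ?_⟩
    · have := key (true, ⟨a, ha⟩) t htt
      simp only [if_true] at this
      linarith
    · have h1 := key (false, ⟨a, ha⟩) t htt
      simp only [Bool.false_eq_true, if_false] at h1
      have h2 := Real.exp_pos (Λ * t)
      by_contra hcon
      push Not at hcon
      nlinarith [mul_neg_of_neg_of_pos hcon h2]
  · rintro ⟨b, a, ha⟩ s hs
    cases b
    · simp only [Bool.false_eq_true, if_false]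
      have h1 : HasDerivAt (fun s => Real.exp (Λ * s)) (Real.exp (Λ * s) * Λ) s := by
        have h2 : HasDerivAt (fun s : ℝ => Λ * s) Λ s := by
          simpa using (hasDerivAt_id s).const_mul Λ
        exact h2.exp
      exact ((H.F3_t (hI s hs) ha).mul h1).fun_neg
    · simp only [if_true]
      exact (H.d3 (hI' s hs) a).fun_neg
  · rintro ⟨b, a, ha⟩
    cases b
    · simp only [Bool.false_eq_true, if_false, mul_zero, Real.exp_zero, mul_one]
      have h1 : F3 q (U 0) a = -(q a * Real.sin a + deriv q a * Real.cos a) := by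
        unfold F3 QQ PP
        rw [H.ini1, H.ini2, Good.XX_of _ ⟨by linarith [ha.1], ha.2.trans pi4_mem.2.le⟩]
        simp only [H.ini1]
        simp
      have h2 := h.fn a ha
      rw [h1]
      linarith
    · simp only [if_true]
      rw [H.ini3]
      have := h.wn a ha
      linarith
  · rintro ⟨b, a, ha⟩ s hs
    have h4 : 0 ≤ CF * Real.exp (Λ * t) := by positivity
    cases b
    · simp only [Bool.false_eq_true, if_false]
      have h1 := abs_le.1 (hCF (U s) (U s) (hR s hs) (hR s hs) a).1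
      have h2 : Real.exp (Λ * s) ≤ Real.exp (Λ * t) := by
        apply Real.exp_le_exp.2
        exact mul_le_mul_of_nonneg_left hs.2 hΛ0
      have h3 : -(F3 q (U s) a * Real.exp (Λ * s)) ≤ CF * Real.exp (Λ * s) := by
        have := Real.exp_pos (Λ * s)
        nlinarith [h1.1]
      have h5 : CF * Real.exp (Λ * s) ≤ CF * Real.exp (Λ * t) := by gcongr
      linarith
    · simp only [if_true]
      have h1 := abs_le.1 ((le3 (U s) a).trans (hR s hs))
      linarith [h1.1]
  · rintro s hs m hm hall ⟨b, a, ha⟩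
    have g := H.good (hI s hs)
    have hW : ∀ a ∈ Icc 0 (Real.pi / 4), -m ≤ (U s).2.2 a := by
      intro a ha
      have := hall (true, ⟨a, ha⟩)
      simp only [if_true] at this
      linarith
    have hF : ∀ a ∈ Icc 0 (Real.pi / 4), -m ≤ F3 q (U s) a * Real.exp (Λ * s) := by
      intro a ha
      have := hall (false, ⟨a, ha⟩)
      simp only [Bool.false_eq_true, if_false] at this
      linarith
    have hes : 1 ≤ Real.exp (Λ * s) := Real.one_le_exp (mul_nonneg hΛ0 hs.1)
    have het : Real.exp (Λ * s) ≤ Real.exp (Λ * t) := by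
      apply Real.exp_le_exp.2
      exact mul_le_mul_of_nonneg_left hs.2 hΛ0
    have hC0 : 0 ≤ 2 * Λ * m := by positivity
    have hC1 : 0 ≤ Real.exp (Λ * t) * CQ * 3 * m := by positivity
    cases b
    · simp only [Bool.false_eq_true, if_false]
      have hX := g.XX_mem ha
      have hcos := cos_half hX
      have hcos1 := Real.cos_le_one (XX (U s) a)
      have hAA : -m ≤ AA (U s) a := by
        have h1 : ∫ b in (0 : ℝ)..a, -m * Real.exp ((U s).1 b) ≤ AA (U s) a := by
          unfold AA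
          rw [cl_of_mem ⟨by linarith [ha.1], ha.2.trans pi4_mem.2.le⟩]
          refine intervalIntegral.integral_mono_on ha.1
            (((pJ.cont (U s)).const_mul (-m)).intervalIntegrable _ _)
            ((((pS.mul PBL.trd).mul pJ).cont (U s)).intervalIntegrable _ _) fun b hb => ?_
          have hb' : b ∈ Icc 0 (Real.pi / 4) := ⟨hb.1, hb.2.trans ha.2⟩
          have h2 := sin2_nn (g.XX_mem hb')
          have h3 := Real.sin_le_one (2 * XX (U s) b)
          have h4 := hW b hb'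
          refine mul_le_mul_of_nonneg_right ?_ (Real.exp_pos _).le
          nlinarith [h2.1]
        rw [intervalIntegral.integral_const_mul, ← Good.XX_of (U s)
          ⟨by linarith [ha.1], ha.2.trans pi4_mem.2.le⟩] at h1
        have h5 : XX (U s) a ≤ 1 := hX.2.trans pi4_mem.2.le
        nlinarith [hX.1]
      have hQ := (hCQ (U s) (U s) (hR s hs) (hR s hs) a).1
      have hQ0 : 0 ≤ QQ q (U s) a := mul_nonneg (h.qn a) (Real.exp_pos _).le
      rw [abs_of_nonneg hQ0] at hQ
      have hD := (hCD (U s) (U s) (hR s hs) (hR s hs) a).1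
      have hE := (hCE (U s) (U s) (hR s hs) (hR s hs) a).1
      -- the coefficient
      obtain ⟨κ, hκ⟩ : ∃ κ, κ = DD (U s) a + 2 * EE (U s) a
        * (Real.sin (XX (U s) a) / Real.cos (XX (U s) a)) := ⟨_, rfl⟩
      have hκΛ : |κ| ≤ Λ := by
        have h1 : |Real.sin (XX (U s) a) / Real.cos (XX (U s) a)| ≤ 2 := by
          rw [abs_div, abs_of_pos (by linarith : 0 < Real.cos (XX (U s) a)),
            div_le_iff₀ (by linarith)]
          have := Real.abs_sin_le_one (XX (U s) a)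
          linarith
        have h2 := abs_add_le (DD (U s) a) (2 * EE (U s) a
          * (Real.sin (XX (U s) a) / Real.cos (XX (U s) a)))
        have h3 : |2 * EE (U s) a * (Real.sin (XX (U s) a) / Real.cos (XX (U s) a))|
            ≤ 2 * CE * 2 := by
          rw [abs_mul, abs_mul, abs_of_pos (by norm_num : (0 : ℝ) < 2)]
          exact mul_le_mul (by linarith) h1 (abs_nonneg _) (by positivity)
        rw [hκ, hΛ]
        linarith
      rw [← hκ]
      have hκ' := abs_le.1 hκΛ
      obtain ⟨f, hf⟩ : ∃ f, f = F3 q (U s) a * Real.exp (Λ * s) := ⟨_, rfl⟩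
      have hfm := hF a ha
      rw [← hf] at hfm
      obtain ⟨G, hG⟩ : ∃ G, G = (U s).2.2 a * Real.cos (XX (U s) a)
        + AA (U s) a / Real.cos (XX (U s) a) := ⟨_, rfl⟩
      have hGm : -(3 * m) ≤ G := by
        have h1 : -m ≤ (U s).2.2 a * Real.cos (XX (U s) a) := by
          have := hW a ha
          nlinarith
        have h2 : -(2 * m) ≤ AA (U s) a / Real.cos (XX (U s) a) := by
          rw [le_div_iff₀ (by linarith)]
          nlinarith
        rw [hG]
        linarith
      rw [← hG]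
      have e1 : -((-κ * F3 q (U s) a + QQ q (U s) a * G) * Real.exp (Λ * s)
          + F3 q (U s) a * (Real.exp (Λ * s) * Λ))
          = -((Λ - κ) * f) - QQ q (U s) a * Real.exp (Λ * s) * G := by
        rw [hf]
        ring
      rw [e1]
      have h1 : -((Λ - κ) * f) ≤ 2 * Λ * m := by
        have h2 : 0 ≤ Λ - κ := by linarith [hκ'.2]
        have h3 : Λ - κ ≤ 2 * Λ := by linarith [hκ'.1]
        nlinarith [mul_le_mul_of_nonneg_left hfm h2, mul_le_mul_of_nonneg_right h3 hm]
      have h2 : -(QQ q (U s) a * Real.exp (Λ * s) * G) ≤ Real.exp (Λ * t) * CQ * 3 * m := by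
        have h3 : 0 ≤ QQ q (U s) a * Real.exp (Λ * s) := by positivity
        have h4 : QQ q (U s) a * Real.exp (Λ * s) ≤ CQ * Real.exp (Λ * t) :=
          mul_le_mul hQ het (Real.exp_pos _).le hCQ0
        have h5 := mul_le_mul_of_nonneg_left hGm h3
        have h6 := mul_le_mul_of_nonneg_right h4 (by positivity : (0 : ℝ) ≤ 3 * m)
        nlinarith
      have h3 : (1 + 2 * Λ + Real.exp (Λ * t) * CQ * 3) * m
          = m + 2 * Λ * m + Real.exp (Λ * t) * CQ * 3 * m := by ring
      rw [h3]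
      linarith
    · simp only [if_true]
      have h1 := hF a ha
      have h2 : -m ≤ F3 q (U s) a := by
        rcases le_or_gt 0 (F3 q (U s) a) with h3 | h3
        · linarith
        · nlinarith
      have h3 : (1 + 2 * Λ + Real.exp (Λ * t) * CQ * 3) * m
          = m + 2 * Λ * m + Real.exp (Λ * t) * CQ * 3 * m := by ring
      rw [h3]
      linarith

end LSol

end Pool.Agent.TH305.BQ
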