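import Pool.Agent.TH305.BQ.Lag
import Pool.Agent.TH126.ODE.LinSmooth

/-!
The scale-invariant Boussinesq system in Lagrangian variables (helper305): smoothness.
-/

set_option autoImplicit false

open MeasureTheory Set Filter Topology
open scoped ContDiff BoundedContinuousFunction

namespace Pool.Agent.TH305.BQ

variable {q w : ℝ → ℝ}

/-- The time derivative of the integrand of `AA`. -/
noncomputable def GA (q : ℝ → ℝ) (U : ES) (a : ℝ) : ℝ :=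
  (Real.cos (2 * XX U a) * (4 * EE U a) * U.2.2 a + Real.sin (2 * XX U a) * F3 q U a)
    * Real.exp (U.1 a) + Real.sin (2 * XX U a) * U.2.2 a * (Real.exp (U.1 a) * F1 U a)

/-- The time derivative of the integrand of `BB`. -/
noncomputable def GB (q : ℝ → ℝ) (U : ES) (a : ℝ) : ℝ :=
  (-Real.sin (2 * XX U a) * (4 * EE U a) * U.2.2 a + Real.cos (2 * XX U a) * F3 q U a)
    * Real.exp (U.1 a) + Real.cos (2 * XX U a) * U.2.2 a * (Real.exp (U.1 a) * F1 U a)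

lemma Dat.pGA (h : Dat q w) : PBL (GA q) :=
  ((((pC.mul (pEE.cmul 4)).mul PBL.trd).add (pS.mul h.pF3)).mul pJ).add
    ((pS.mul PBL.trd).mul (pJ.mul pF1))

lemma Dat.pGB (h : Dat q w) : PBL (GB q) :=
  ((((pS.neg.mul (pEE.cmul 4)).mul PBL.trd).add (pC.mul h.pF3)).mul pJ).add
    ((pC.mul PBL.trd).mul (pJ.mul pF1))

/-- The time derivative of the stream function along the labels. -/
noncomputable def EEt (q : ℝ → ℝ) (U : ES) (a : ℝ) : ℝ :=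
  1 / 2 * ((Real.cos (2 * XX U a) * (4 * EE U a) * BB U a
      + Real.sin (2 * XX U a) * (1 / 2 * ((∫ b in (0 : ℝ)..cl (Real.pi / 4), GB q U b)
        + ∫ b in (0 : ℝ)..cl (-(Real.pi / 4)), GB q U b) - ∫ b in (0 : ℝ)..cl a, GB q U b))
    + (-Real.sin (2 * XX U a) * (4 * EE U a) * AA U a
      + Real.cos (2 * XX U a) * ∫ b in (0 : ℝ)..cl a, GA q U b))

variable {h : Dat q w} {δ T : ℝ} {U : ℝ → ES}

lemma pi4_mem : Real.pi / 4 ∈ Ioo (-1 : ℝ) 1 :=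
  ⟨by linarith [Real.pi_pos], by linarith [Real.pi_lt_four]⟩

lemma mpi4_mem : -(Real.pi / 4) ∈ Ioo (-1 : ℝ) 1 :=
  ⟨by linarith [Real.pi_lt_four], by linarith [Real.pi_pos]⟩

namespace LSol

lemma S_t (H : LSol h δ T U) {a t : ℝ} (ha : a ∈ Ioo (-1 : ℝ) 1) (ht : t ∈ Ioo (-δ) T) :
    HasDerivAt (fun s => Real.sin (2 * XX (U s) a))
      (Real.cos (2 * XX (U t) a) * (4 * EE (U t) a)) t :=
  ((H.XX_t ha ht).const_mul 2).sin.congr_deriv (by ring)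

lemma C_t (H : LSol h δ T U) {a t : ℝ} (ha : a ∈ Ioo (-1 : ℝ) 1) (ht : t ∈ Ioo (-δ) T) :
    HasDerivAt (fun s => Real.cos (2 * XX (U s) a))
      (-Real.sin (2 * XX (U t) a) * (4 * EE (U t) a)) t :=
  ((H.XX_t ha ht).const_mul 2).cos.congr_deriv (by ring)

lemma AA_t (H : LSol h δ T U) {a t : ℝ} (ha : a ∈ Ioo (-1 : ℝ) 1) (ht : t ∈ Ioo (-δ) T) :
    HasDerivAt (fun s => AA (U s) a) (∫ b in (0 : ℝ)..cl a, GA q (U t) b) t := by
  unfold AA
  have hsub : uIcc 0 (cl a) ⊆ Ioo (-1 : ℝ) 1 := by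
    rw [cl_of_mem ⟨ha.1.le, ha.2.le⟩]
    exact uIcc_sub zero_mem ha
  refine int_hd (g := fun b s => Real.sin (2 * XX (U s) b) * (U s).2.2 b * Real.exp ((U s).1 b))
    (gt := fun b s => GA q (U s) b) ht ?_ ?_ ?_
  · exact (H.jc h.pGA).mono (prod_mono (subset_univ _) le_rfl)
  · intro s _
    exact (((pS.mul PBL.trd).mul pJ).cont (U s)).continuousOn
  · intro b hb s hs
    exact ((H.S_t (hsub hb) hs).mul (H.d3 hs b)).mul (H.d1 hs b).exp

lemma KK_t (H : LSol h δ T U) {a t : ℝ} (ha : a ∈ Ioo (-1 : ℝ) 1) (ht : t ∈ Ioo (-δ) T) :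
    HasDerivAt (fun s => KK (U s) a) (∫ b in (0 : ℝ)..cl a, GB q (U t) b) t := by
  unfold KK
  have hsub : uIcc 0 (cl a) ⊆ Ioo (-1 : ℝ) 1 := by
    rw [cl_of_mem ⟨ha.1.le, ha.2.le⟩]
    exact uIcc_sub zero_mem ha
  refine int_hd (g := fun b s => Real.cos (2 * XX (U s) b) * (U s).2.2 b * Real.exp ((U s).1 b))
    (gt := fun b s => GB q (U s) b) ht ?_ ?_ ?_
  · exact (H.jc h.pGB).mono (prod_mono (subset_univ _) le_rfl)
  · intro s _
    exact (((pC.mul PBL.trd).mul pJ).cont (U s)).continuousOn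
  · intro b hb s hs
    exact ((H.C_t (hsub hb) hs).mul (H.d3 hs b)).mul (H.d1 hs b).exp

lemma BB_t (H : LSol h δ T U) {a t : ℝ} (ha : a ∈ Ioo (-1 : ℝ) 1) (ht : t ∈ Ioo (-δ) T) :
    HasDerivAt (fun s => BB (U s) a) (1 / 2 * ((∫ b in (0 : ℝ)..cl (Real.pi / 4), GB q (U t) b)
        + ∫ b in (0 : ℝ)..cl (-(Real.pi / 4)), GB q (U t) b)
        - ∫ b in (0 : ℝ)..cl a, GB q (U t) b) t :=
  (((H.KK_t pi4_mem ht).add (H.KK_t mpi4_mem ht)).const_mul (1 / 2)).sub (H.KK_t ha ht)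

lemma EE_t (H : LSol h δ T U) {a t : ℝ} (ha : a ∈ Ioo (-1 : ℝ) 1) (ht : t ∈ Ioo (-δ) T) :
    HasDerivAt (fun s => EE (U s) a) (EEt q (U t) a) t :=
  (((H.S_t ha ht).mul (H.BB_t ha ht)).add ((H.C_t ha ht).mul (H.AA_t ha ht))).const_mul (1 / 2)

/-- Smoothness, the induction. -/
theorem smooth_nat (H : LSol h δ T U) (n : ℕ) :
    ContDiffOn ℝ n (fun z : ℝ × ℝ => (U z.2).1 z.1) (OO (-δ) T) ∧
    ContDiffOn ℝ n (fun z : ℝ × ℝ => (U z.2).2.1 z.1) (OO (-δ) T) ∧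
    ContDiffOn ℝ n (fun z : ℝ × ℝ => (U z.2).2.2 z.1) (OO (-δ) T) ∧
    ContDiffOn ℝ n (fun z : ℝ × ℝ => XX (U z.2) z.1) (OO (-δ) T) ∧
    ContDiffOn ℝ n (fun z : ℝ × ℝ => EE (U z.2) z.1) (OO (-δ) T) ∧
    ContDiffOn ℝ n (fun z : ℝ × ℝ => DD (U z.2) z.1) (OO (-δ) T) := by
  have hO := isOpen_OO (-δ) T
  have hsub : OO (-δ) T ⊆ univ ×ˢ Ioo (-δ) T := prod_mono (subset_univ _) le_rfl
  induction n with
  | zero =>
    simp only [Nat.cast_zero, contDiffOn_zero]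
    exact ⟨(H.jc PBL.fst).mono hsub, (H.jc PBL.snd).mono hsub, (H.jc PBL.trd).mono hsub,
      (H.jc pXX).mono hsub, (H.jc pEE).mono hsub, (H.jc pDD).mono hsub⟩
  | succ n ih =>
    obtain ⟨hL, hM, hW, hX, hE, hD⟩ := ih
    have hJ : ContDiffOn ℝ n (fun z : ℝ × ℝ => Real.exp ((U z.2).1 z.1)) (OO (-δ) T) := hL.exp
    have hS : ContDiffOn ℝ n (fun z : ℝ × ℝ => Real.sin (2 * XX (U z.2) z.1)) (OO (-δ) T) :=
      (contDiffOn_const.mul hX).sin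
    have hC : ContDiffOn ℝ n (fun z : ℝ × ℝ => Real.cos (2 * XX (U z.2) z.1)) (OO (-δ) T) :=
      (contDiffOn_const.mul hX).cos
    have hint : ∀ {ψ : ES → ℝ → ℝ}, ContDiffOn ℝ n (fun z : ℝ × ℝ => ψ (U z.2) z.1) (OO (-δ) T) →
        ContDiffOn ℝ n (fun z : ℝ × ℝ => ∫ b in (0 : ℝ)..cl z.1, ψ (U z.2) b) (OO (-δ) T) := by
      intro ψ hψ
      refine (int_smooth n hψ).congr fun z hz => ?_
      rw [cl_of_mem ⟨hz.1.1.le, hz.1.2.le⟩]
    have hintc : ∀ {ψ : ES → ℝ → ℝ}, ∀ c ∈ Ioo (-1 : ℝ) 1,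
        ContDiffOn ℝ n (fun z : ℝ × ℝ => ψ (U z.2) z.1) (OO (-δ) T) →
        ContDiffOn ℝ n (fun z : ℝ × ℝ => ∫ b in (0 : ℝ)..cl c, ψ (U z.2) b)
          (OO (-δ) T) := by
      intro ψ c hc hψ
      exact (hint hψ).comp (g := fun z : ℝ × ℝ => ∫ b in (0 : ℝ)..cl z.1, ψ (U z.2) b)
          (f := fun z : ℝ × ℝ => (c, z.2)) (by fun_prop)
          fun z hz => ⟨hc, hz.2⟩
    have hintB : ∀ {ψ : ES → ℝ → ℝ}, ContDiffOn ℝ n (fun z : ℝ × ℝ => ψ (U z.2) z.1) (OO (-δ) T) →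
        ContDiffOn ℝ n (fun z : ℝ × ℝ => 1 / 2 * ((∫ b in (0 : ℝ)..cl (Real.pi / 4), ψ (U z.2) b)
          + ∫ b in (0 : ℝ)..cl (-(Real.pi / 4)), ψ (U z.2) b)
          - ∫ b in (0 : ℝ)..cl z.1, ψ (U z.2) b) (OO (-δ) T) := by
      intro ψ hψ
      exact (contDiffOn_const.mul ((hintc _ pi4_mem hψ).add (hintc _ mpi4_mem hψ))).sub (hint hψ)
    have hA : ContDiffOn ℝ n (fun z : ℝ × ℝ => AA (U z.2) z.1) (OO (-δ) T) :=
      hint (ψ := fun U b => Real.sin (2 * XX U b) * U.2.2 b * Real.exp (U.1 b))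
        ((hS.mul hW).mul hJ)
    have hB : ContDiffOn ℝ n (fun z : ℝ × ℝ => BB (U z.2) z.1) (OO (-δ) T) :=
      hintB (ψ := fun U b => Real.cos (2 * XX U b) * U.2.2 b * Real.exp (U.1 b))
        ((hC.mul hW).mul hJ)
    have hF1 : ContDiffOn ℝ n (fun z : ℝ × ℝ => F1 (U z.2) z.1) (OO (-δ) T) :=
      contDiffOn_const.mul hD
    have hsq : ∀ k : ℕ, ContDiffOn ℝ k (fun z : ℝ × ℝ => q z.1) (OO (-δ) T) := fun k =>
      ((h.sq.of_le (by exact_mod_cast le_top)).comp contDiff_fst).contDiffOn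
    have hsq' : ∀ k : ℕ, ContDiffOn ℝ k (fun z : ℝ × ℝ => deriv q z.1) (OO (-δ) T) := by
      intro k
      have h1 : ContDiff ℝ ∞ (deriv q) := by
        have h2 : ContDiff ℝ (∞ + 1) q := h.sq
        exact ((contDiff_succ_iff_deriv (n := ∞)).1 h2).2.2
      exact ((h1.of_le (by exact_mod_cast le_top)).comp contDiff_fst).contDiffOn
    have hXs : ContDiffOn ℝ n (fun z : ℝ × ℝ => Real.sin (XX (U z.2) z.1)) (OO (-δ) T) := hX.sin
    have hXc : ContDiffOn ℝ n (fun z : ℝ × ℝ => Real.cos (XX (U z.2) z.1)) (OO (-δ) T) := hX.cos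
    have hQ : ContDiffOn ℝ n (fun z : ℝ × ℝ => QQ q (U z.2) z.1) (OO (-δ) T) :=
      (hsq n).mul (contDiffOn_const.mul hL).exp
    have hP : ContDiffOn ℝ n (fun z : ℝ × ℝ => PP q (U z.2) z.1) (OO (-δ) T) :=
      ((hsq' n).add (contDiffOn_const.mul ((hsq n).mul hM))).mul (contDiffOn_const.mul hL).exp
    have hF3 : ContDiffOn ℝ n (fun z : ℝ × ℝ => F3 q (U z.2) z.1) (OO (-δ) T) :=
      ((hQ.mul hXs).add (hP.mul hXc)).neg
    have hGA : ContDiffOn ℝ n (fun z : ℝ × ℝ => GA q (U z.2) z.1) (OO (-δ) T) :=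
      ((((hC.mul (contDiffOn_const.mul hE)).mul hW).add (hS.mul hF3)).mul hJ).add
        ((hS.mul hW).mul (hJ.mul hF1))
    have hGB : ContDiffOn ℝ n (fun z : ℝ × ℝ => GB q (U z.2) z.1) (OO (-δ) T) :=
      ((((hS.neg.mul (contDiffOn_const.mul hE)).mul hW).add (hC.mul hF3)).mul hJ).add
        ((hC.mul hW).mul (hJ.mul hF1))
    have hEt : ContDiffOn ℝ n (fun z : ℝ × ℝ => EEt q (U z.2) z.1) (OO (-δ) T) :=
      contDiffOn_const.mul ((((hC.mul (contDiffOn_const.mul hE)).mul hB).add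
        (hS.mul (hintB hGB))).add (((hS.neg.mul (contDiffOn_const.mul hE)).mul hA).add
        (hC.mul (hint hGA))))
    have hX1 : ContDiffOn ℝ (n + 1) (fun z : ℝ × ℝ => XX (U z.2) z.1) (OO (-δ) T) :=
      cd_succ hO (fun z hz => XX_hd (U z.2) hz.1) (fun z hz => H.XX_t hz.1 hz.2) hJ
        (contDiffOn_const.mul hE)
    have hL1 : ContDiffOn ℝ (n + 1) (fun z : ℝ × ℝ => (U z.2).1 z.1) (OO (-δ) T) :=
      cd_succ hO (fun z hz => H.lam_a hz.1 hz.2) (fun z hz => H.d1 hz.2 z.1) hM hF1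
    have hE1 : ContDiffOn ℝ (n + 1) (fun z : ℝ × ℝ => EE (U z.2) z.1) (OO (-δ) T) :=
      cd_succ hO (fun z hz => EE_hd (U z.2) hz.1) (fun z hz => H.EE_t hz.1 hz.2) (hJ.mul hD) hEt
    have hJ1 : ContDiffOn ℝ (n + 1) (fun z : ℝ × ℝ => Real.exp ((U z.2).1 z.1)) (OO (-δ) T) :=
      hL1.exp
    have hXs1 : ContDiffOn ℝ (n + 1) (fun z : ℝ × ℝ => Real.sin (XX (U z.2) z.1)) (OO (-δ) T) :=
      hX1.sin
    have hXc1 : ContDiffOn ℝ (n + 1) (fun z : ℝ × ℝ => Real.cos (XX (U z.2) z.1)) (OO (-δ) T) :=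
      hX1.cos
    -- the linear system for `(μ, W)`
    obtain ⟨A, hAdef⟩ : ∃ A : ℝ × ℝ → (ℝ × ℝ) →L[ℝ] (ℝ × ℝ), A = fun z =>
      (-2 * Real.exp ((U z.2).1 z.1)) • (ContinuousLinearMap.inl ℝ ℝ ℝ).comp
          (ContinuousLinearMap.snd ℝ ℝ ℝ)
        + (-(1 / 2 * q z.1 * Real.exp (-(1 / 2) * (U z.2).1 z.1)
            * Real.cos (XX (U z.2) z.1))) • (ContinuousLinearMap.inr ℝ ℝ ℝ).comp
          (ContinuousLinearMap.fst ℝ ℝ ℝ) := ⟨_, rfl⟩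
    obtain ⟨f, hfdef⟩ : ∃ f : ℝ × ℝ → ℝ × ℝ, f = fun z =>
      (-8 * EE (U z.2) z.1 * Real.exp ((U z.2).1 z.1),
        -(q z.1 * Real.exp (1 / 2 * (U z.2).1 z.1) * Real.sin (XX (U z.2) z.1)
          + deriv q z.1 * Real.exp (-(1 / 2) * (U z.2).1 z.1) * Real.cos (XX (U z.2) z.1))) :=
      ⟨_, rfl⟩
    have hAs : ContDiffOn ℝ ((n + 1 : ℕ) : WithTop ℕ∞) A (OO (-δ) T) := by
      have k1 : ContDiffOn ℝ ((n + 1 : ℕ) : WithTop ℕ∞)
          (fun z : ℝ × ℝ => -2 * Real.exp ((U z.2).1 z.1)) (OO (-δ) T) :=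
        contDiffOn_const.mul (by exact_mod_cast hJ1)
      have k2 : ContDiffOn ℝ ((n + 1 : ℕ) : WithTop ℕ∞)
          (fun z : ℝ × ℝ => -(1 / 2 * q z.1 * Real.exp (-(1 / 2) * (U z.2).1 z.1)
            * Real.cos (XX (U z.2) z.1))) (OO (-δ) T) := by
        refine (((contDiffOn_const.mul (hsq (n + 1))).mul ?_).mul
          (by exact_mod_cast hXc1)).neg
        exact (contDiffOn_const.mul (by exact_mod_cast hL1)).exp
      rw [hAdef]
      exact (k1.fun_smul contDiffOn_const).add (k2.fun_smul contDiffOn_const)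
    have hfs : ContDiffOn ℝ ((n + 1 : ℕ) : WithTop ℕ∞) f (OO (-δ) T) := by
      rw [hfdef]
      refine ContDiffOn.prodMk ?_ ?_
      · exact (contDiffOn_const.mul (by exact_mod_cast hE1)).mul (by exact_mod_cast hJ1)
      · refine ContDiffOn.neg (ContDiffOn.add ?_ ?_)
        · exact ((hsq (n + 1)).mul (contDiffOn_const.mul (by exact_mod_cast hL1)).exp).mul
            (by exact_mod_cast hXs1)
        · exact ((hsq' (n + 1)).mul (contDiffOn_const.mul (by exact_mod_cast hL1)).exp).mul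
            (by exact_mod_cast hXc1)
    have hy := Pool.Agent.TH126.ODE.lin_smooth (t₁ := -δ) (t₂ := T)
      (by linarith [H.hδ]) H.hT (n + 1) (A := A) (f := f)
      (y := fun z : ℝ × ℝ => ((U z.2).2.1 z.1, (U z.2).2.2 z.1)) hAs hfs
      (by
        simp only [H.ini2, H.ini3]
        exact (contDiffOn_const.prodMk
          (h.sw.of_le (by exact_mod_cast le_top)).contDiffOn))
      (by
        intro z hz
        have h1 := (H.d2 hz.2 z.1).prodMk (H.d3 hz.2 z.1)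
        refine h1.congr_deriv ?_
        rw [hAdef, hfdef]
        ext
        · simp [F2]
          ring
        · simp [F3, QQ, PP]
          ring)
    have hM1 : ContDiffOn ℝ ((n + 1 : ℕ) : WithTop ℕ∞)
        (fun z : ℝ × ℝ => (U z.2).2.1 z.1) (OO (-δ) T) := hy.fst
    have hW1 : ContDiffOn ℝ ((n + 1 : ℕ) : WithTop ℕ∞)
        (fun z : ℝ × ℝ => (U z.2).2.2 z.1) (OO (-δ) T) := hy.snd
    have hD1 : ContDiffOn ℝ ((n + 1 : ℕ) : WithTop ℕ∞)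
        (fun z : ℝ × ℝ => DD (U z.2) z.1) (OO (-δ) T) := by
      have hEs := (contDiffOn_succ_iff_fderiv_of_isOpen (n := n) hO).1 hE1
      have hS1 : ContDiffOn ℝ ((n + 1 : ℕ) : WithTop ℕ∞)
          (fun z : ℝ × ℝ => Real.sin (2 * XX (U z.2) z.1)) (OO (-δ) T) :=
        (contDiffOn_const.mul (by exact_mod_cast hX1)).sin
      have hC1 : ContDiffOn ℝ ((n + 1 : ℕ) : WithTop ℕ∞)
          (fun z : ℝ × ℝ => Real.cos (2 * XX (U z.2) z.1)) (OO (-δ) T) :=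
        (contDiffOn_const.mul (by exact_mod_cast hX1)).cos
      have hJ1' : ContDiffOn ℝ ((n + 1 : ℕ) : WithTop ℕ∞)
          (fun z : ℝ × ℝ => Real.exp ((U z.2).1 z.1)) (OO (-δ) T) := by exact_mod_cast hJ1
      have i1 := int_smooth (n + 1) ((hS1.mul hW1).mul hJ1')
      have i2 := int_smooth (n + 1) ((hC1.mul hW1).mul hJ1')
      have i3 : ∀ c ∈ Ioo (-1 : ℝ) 1, ContDiffOn ℝ ((n + 1 : ℕ) : WithTop ℕ∞) (fun z : ℝ × ℝ =>
          ∫ b in (0 : ℝ)..c, Real.cos (2 * XX (U z.2) b) * (U z.2).2.2 b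
            * Real.exp ((U z.2).1 b)) (OO (-δ) T) := fun c hc =>
        i2.comp (g := fun z : ℝ × ℝ => ∫ b in (0 : ℝ)..z.1, Real.cos (2 * XX (U z.2) b)
          * (U z.2).2.2 b * Real.exp ((U z.2).1 b))
          (f := fun z : ℝ × ℝ => (c, z.2)) (by fun_prop)
          fun z hz => ⟨hc, hz.2⟩
      refine ((hC1.mul (((contDiffOn_const (c := (1 / 2 : ℝ))).mul
        ((i3 _ pi4_mem).add (i3 _ mpi4_mem))).sub
        i2)).sub (hS1.mul i1)).congr fun z hz => ?_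
      have c1 := cl_of_mem (a := z.1) ⟨hz.1.1.le, hz.1.2.le⟩
      have c2 := cl_of_mem (a := Real.pi / 4) ⟨pi4_mem.1.le, pi4_mem.2.le⟩
      have c3 := cl_of_mem (a := -(Real.pi / 4)) ⟨mpi4_mem.1.le, mpi4_mem.2.le⟩
      unfold DD AA BB KK
      rw [c1, c2, c3]
    refine ⟨by exact_mod_cast hL1, hM1, hW1, by exact_mod_cast hX1, by exact_mod_cast hE1, hD1⟩

end LSol

end Pool.Agent.TH305.BQ
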