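import Pool.Agent.TH305.BQ.Zy

/-!
The scale-invariant Boussinesq system (helper305): the velocity near the axis of symmetry.
-/

set_option autoImplicit false

open MeasureTheory Set Filter Topology
open scoped ContDiff BoundedContinuousFunction

namespace Pool.Agent.TH305.BQ

/-- States with the right signs. -/
structure Stat (V : ES) : Prop where
  good : Good V
  wn : ∀ a ∈ Icc 0 (Real.pi / 4), 0 ≤ V.2.2 a
  mono : MonotoneOn (fun a => V.2.2 a) (Icc 0 (1 / 4))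

namespace Stat

variable {V : ES}

lemma lab {a : ℝ} (ha : a ∈ Icc 0 (Real.pi / 4)) : a ∈ Ioo (-1 : ℝ) 1 :=
  ⟨by linarith [ha.1], ha.2.trans_lt pi4_mem.2⟩

lemma lab' {a : ℝ} (ha : a ∈ Icc (0 : ℝ) (1 / 4)) : a ∈ Icc 0 (Real.pi / 4) :=
  ⟨ha.1, by linarith [ha.2, pi4_lo]⟩

lemma AA_nn (g : Stat V) {a : ℝ} (ha : a ∈ Icc 0 (Real.pi / 4)) : 0 ≤ AA V a := by
  unfold AA
  rw [cl_of_mem ⟨(lab ha).1.le, (lab ha).2.le⟩]
  refine intervalIntegral.integral_nonneg ha.1 fun b hb => ?_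
  have hb' : b ∈ Icc 0 (Real.pi / 4) := ⟨hb.1, hb.2.trans ha.2⟩
  have h1 := (sin2_nn (g.good.XX_mem hb')).1
  have h2 := g.wn b hb'
  positivity

lemma KK_sub (V : ES) {a b : ℝ} (ha : a ∈ Icc (-1 : ℝ) 1) (hb : b ∈ Icc (-1 : ℝ) 1) :
    KK V b - KK V a = ∫ x in a..b, Real.cos (2 * XX V x) * V.2.2 x * Real.exp (V.1 x) := by
  unfold KK
  rw [cl_of_mem ha, cl_of_mem hb]
  have hc : Continuous fun x => Real.cos (2 * XX V x) * V.2.2 x * Real.exp (V.1 x) :=
    ((pC.mul PBL.trd).mul pJ).cont V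
  have := intervalIntegral.integral_add_adjacent_intervals (hc.intervalIntegrable (μ := volume) 0 a)
    (hc.intervalIntegrable a b)
  linarith

lemma KK_mono (g : Stat V) {a b : ℝ} (ha : 0 ≤ a) (hab : a ≤ b) (hb : b ≤ Real.pi / 4) :
    KK V a ≤ KK V b := by
  have h1 := lab (a := a) ⟨ha, hab.trans hb⟩
  have h2 := lab (a := b) ⟨ha.trans hab, hb⟩
  have h3 := KK_sub V (a := a) (b := b) ⟨h1.1.le, h1.2.le⟩ ⟨h2.1.le, h2.2.le⟩
  have h4 : 0 ≤ ∫ x in a..b, Real.cos (2 * XX V x) * V.2.2 x * Real.exp (V.1 x) := by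
    refine intervalIntegral.integral_nonneg hab fun x hx => ?_
    have hx' : x ∈ Icc 0 (Real.pi / 4) := ⟨ha.trans hx.1, hx.2.trans hb⟩
    have h5 := (sin2_nn (g.good.XX_mem hx')).2
    have h6 := g.wn x hx'
    positivity
  linarith

lemma KK_zero (V : ES) : KK V 0 = 0 := by
  unfold KK
  rw [cl_of_mem (by constructor <;> norm_num)]
  simp

lemma BB_nn (g : Stat V) {a : ℝ} (ha : a ∈ Icc 0 (Real.pi / 4)) : 0 ≤ BB V a := by
  rw [g.good.BB_eq]
  have := g.KK_mono ha.1 ha.2 le_rfl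
  linarith

lemma EE_nn (g : Stat V) {a : ℝ} (ha : a ∈ Icc 0 (Real.pi / 4)) : 0 ≤ EE V a := by
  have h1 := sin2_nn (g.good.XX_mem ha)
  have h2 := g.AA_nn ha
  have h3 := g.BB_nn ha
  have h4 := mul_nonneg h1.1 h3
  have h5 := mul_nonneg h1.2 h2
  unfold EE
  linarith

lemma DD_zero (g : Stat V) : DD V 0 = KK V (Real.pi / 4) := by
  unfold DD
  rw [XX_zero, AA_zero, g.good.BB_eq, KK_zero]
  simp

lemma DD_le (g : Stat V) {a : ℝ} (ha : a ∈ Icc 0 (Real.pi / 4)) : DD V a ≤ DD V 0 := by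
  have h : AntitoneOn (DD V) (Icc 0 (Real.pi / 4)) := by
    refine antitoneOn_of_deriv_nonpos (convex_Icc _ _)
      (fun a ha => (DD_hd V (lab ha)).continuousAt.continuousWithinAt)
      (fun a ha => (DD_hd V (lab (interior_subset ha))).differentiableAt.differentiableWithinAt)
      fun a ha => ?_
    have ha' := interior_subset ha
    rw [(DD_hd V (lab ha')).deriv]
    have h1 := g.wn a ha'
    have h2 := g.EE_nn ha'
    have h3 : 0 ≤ (V.2.2 a + 4 * EE V a) * Real.exp (V.1 a) := by positivity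
    linarith
  exact h ⟨le_rfl, by positivity⟩ ha ha.1

/-- The integral of `cos (2X) J`. -/
lemma int_CJ (V : ES) {a b : ℝ} (ha : a ∈ Ioo (-1 : ℝ) 1) (hb : b ∈ Ioo (-1 : ℝ) 1) :
    ∫ x in a..b, Real.cos (2 * XX V x) * Real.exp (V.1 x)
      = 1 / 2 * (Real.sin (2 * XX V b) - Real.sin (2 * XX V a)) := by
  have h1 : ∀ x ∈ uIcc a b, HasDerivAt (fun x => 1 / 2 * Real.sin (2 * XX V x))
      (Real.cos (2 * XX V x) * Real.exp (V.1 x)) x := fun x hx =>
    ((S_hd V (uIcc_sub ha hb hx)).const_mul (1 / 2 : ℝ)).congr_deriv (by ring)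
  rw [intervalIntegral.integral_eq_sub_of_hasDerivAt h1
    ((pC.mul pJ).cont V |>.intervalIntegrable _ _)]
  ring

/-- The integral of `sin (2X) J`. -/
lemma int_SJ (V : ES) {a b : ℝ} (ha : a ∈ Ioo (-1 : ℝ) 1) (hb : b ∈ Ioo (-1 : ℝ) 1) :
    ∫ x in a..b, Real.sin (2 * XX V x) * Real.exp (V.1 x)
      = 1 / 2 * (Real.cos (2 * XX V a) - Real.cos (2 * XX V b)) := by
  have h1 : ∀ x ∈ uIcc a b, HasDerivAt (fun x => -(1 / 2) * Real.cos (2 * XX V x))
      (Real.sin (2 * XX V x) * Real.exp (V.1 x)) x := fun x hx =>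
    ((C_hd V (uIcc_sub ha hb hx)).const_mul (-(1 / 2) : ℝ)).congr_deriv (by ring)
  rw [intervalIntegral.integral_eq_sub_of_hasDerivAt h1
    ((pS.mul pJ).cont V |>.intervalIntegrable _ _)]
  ring

/-- The vorticity at small positions. -/
lemma BB_W (g : Stat V) (hx4 : 1 / 4 ≤ XX V (1 / 4)) {a : ℝ} (ha : a ∈ Icc (0 : ℝ) (1 / 4))
    (hX : XX V a ≤ 1 / 8) : 7 / 64 * V.2.2 a ≤ BB V a := by
  have hla := lab (lab' ha)
  have h4m : (1 / 4 : ℝ) ∈ Icc (0 : ℝ) (1 / 4) := by constructor <;> norm_num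
  have hl4 := lab (lab' h4m)
  have hX4 := g.good.XX_mem (lab' h4m)
  have hXa := g.good.XX_mem (lab' ha)
  rw [g.good.BB_eq]
  have h1 := g.KK_mono (a := 1 / 4) (by norm_num) (lab' h4m).2 le_rfl
  have h2 := KK_sub V (a := a) (b := 1 / 4) ⟨hla.1.le, hla.2.le⟩ ⟨hl4.1.le, hl4.2.le⟩
  have h3 : V.2.2 a * ∫ x in a..(1 / 4), Real.cos (2 * XX V x) * Real.exp (V.1 x)
      ≤ ∫ x in a..(1 / 4), Real.cos (2 * XX V x) * V.2.2 x * Real.exp (V.1 x) := by
    rw [← intervalIntegral.integral_const_mul]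
    refine intervalIntegral.integral_mono_on ha.2
      ((((pC.mul pJ).cont V).const_mul _).intervalIntegrable _ _)
      ((((pC.mul PBL.trd).mul pJ).cont V).intervalIntegrable _ _) fun x hx => ?_
    have hx' : x ∈ Icc (0 : ℝ) (1 / 4) := ⟨ha.1.trans hx.1, hx.2⟩
    have h5 := (sin2_nn (g.good.XX_mem (lab' hx'))).2
    have h6 : V.2.2 a ≤ V.2.2 x := g.mono ha hx' hx.1
    have h7 := mul_le_mul_of_nonneg_right h6 (mul_nonneg h5 (Real.exp_pos (V.1 x)).le)
    linarith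
  rw [int_CJ V hla hl4] at h3
  have h5 : Real.sin (2 * (1 / 4)) ≤ Real.sin (2 * XX V (1 / 4)) := by
    refine Real.sin_le_sin_of_le_of_le_pi_div_two ?_ ?_ ?_
    · linarith [Real.pi_pos]
    · linarith [hX4.2]
    · linarith
  have h6 : Real.sin (2 * XX V a) ≤ 2 * XX V a := Real.sin_le (by linarith [hXa.1])
  have h7 := Real.sin_gt_sub_cube (x := 2 * (1 / 4)) (by norm_num)
  have h8 : (7 : ℝ) / 64 ≤ 1 / 2 * (Real.sin (2 * XX V (1 / 4)) - Real.sin (2 * XX V a)) := by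
    norm_num at h7 h5 ⊢
    linarith
  have h9 := g.wn a (lab' ha)
  have h10 := mul_le_mul_of_nonneg_left h8 h9
  linarith

/-- Integrals up to a label are bounded by the vorticity there. -/
lemma KK_W (g : Stat V) {a : ℝ} (ha : a ∈ Icc (0 : ℝ) (1 / 4)) :
    KK V a ≤ V.2.2 a * XX V a := by
  have hla := lab (lab' ha)
  have hXa := g.good.XX_mem (lab' ha)
  have h2 := KK_sub V (a := 0) (b := a) (by constructor <;> norm_num) ⟨hla.1.le, hla.2.le⟩
  rw [KK_zero, sub_zero] at h2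
  have h3 : ∫ x in (0 : ℝ)..a, Real.cos (2 * XX V x) * V.2.2 x * Real.exp (V.1 x)
      ≤ V.2.2 a * ∫ x in (0 : ℝ)..a, Real.cos (2 * XX V x) * Real.exp (V.1 x) := by
    rw [← intervalIntegral.integral_const_mul]
    refine intervalIntegral.integral_mono_on ha.1
      ((((pC.mul PBL.trd).mul pJ).cont V).intervalIntegrable _ _)
      ((((pC.mul pJ).cont V).const_mul _).intervalIntegrable _ _) fun x hx => ?_
    have hx' : x ∈ Icc (0 : ℝ) (1 / 4) := ⟨hx.1, hx.2.trans ha.2⟩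
    have h5 := (sin2_nn (g.good.XX_mem (lab' hx'))).2
    have h6 : V.2.2 x ≤ V.2.2 a := g.mono hx' ha hx.2
    have h7 := mul_le_mul_of_nonneg_right h6 (mul_nonneg h5 (Real.exp_pos (V.1 x)).le)
    linarith
  rw [int_CJ V zero_mem hla, XX_zero] at h3
  simp only [mul_zero, Real.sin_zero, sub_zero] at h3
  have h6 : Real.sin (2 * XX V a) ≤ 2 * XX V a := Real.sin_le (by linarith [hXa.1])
  have h9 := g.wn a (lab' ha)
  have h10 := mul_le_mul_of_nonneg_left h6 h9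
  linarith

lemma AA_W (g : Stat V) {a : ℝ} (ha : a ∈ Icc (0 : ℝ) (1 / 4)) :
    AA V a ≤ V.2.2 a * XX V a ^ 2 := by
  have hla := lab (lab' ha)
  have hXa := g.good.XX_mem (lab' ha)
  have h3 : AA V a ≤ V.2.2 a * ∫ x in (0 : ℝ)..a, Real.sin (2 * XX V x) * Real.exp (V.1 x) := by
    unfold AA
    rw [cl_of_mem ⟨hla.1.le, hla.2.le⟩, ← intervalIntegral.integral_const_mul]
    refine intervalIntegral.integral_mono_on ha.1
      ((((pS.mul PBL.trd).mul pJ).cont V).intervalIntegrable _ _)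
      ((((pS.mul pJ).cont V).const_mul _).intervalIntegrable _ _) fun x hx => ?_
    have hx' : x ∈ Icc (0 : ℝ) (1 / 4) := ⟨hx.1, hx.2.trans ha.2⟩
    have h5 := (sin2_nn (g.good.XX_mem (lab' hx'))).1
    have h6 : V.2.2 x ≤ V.2.2 a := g.mono hx' ha hx.2
    have h7 := mul_le_mul_of_nonneg_right h6 (mul_nonneg h5 (Real.exp_pos (V.1 x)).le)
    linarith
  rw [int_SJ V zero_mem hla, XX_zero] at h3
  simp only [mul_zero, Real.cos_zero] at h3
  have h6 := Real.one_sub_sq_div_two_le_cos (x := 2 * XX V a)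
  have h9 := g.wn a (lab' ha)
  have h10 : 1 / 2 * (1 - Real.cos (2 * XX V a)) ≤ XX V a ^ 2 := by linarith
  have h11 := mul_le_mul_of_nonneg_left h10 h9
  linarith

/-- The main bounds. -/
theorem main (g : Stat V) (hx4 : 1 / 4 ≤ XX V (1 / 4)) {a : ℝ} (ha : a ∈ Icc (0 : ℝ) (1 / 4))
    (hX : XX V a ≤ 1 / 8) :
    XX V a * DD V 0 / 6 ≤ EE V a ∧ DD V 0 - DD V a ≤ 22 * XX V a * DD V 0 := by
  have hXa := g.good.XX_mem (lab' ha)
  have hs : DD V 0 = KK V a + BB V a := by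
    rw [g.DD_zero, g.good.BB_eq]
    ring
  have hW0 := g.wn a (lab' ha)
  have hBW := g.BB_W hx4 ha hX
  have hKW := g.KK_W ha
  have hAW := g.AA_W ha
  have hA0 := g.AA_nn (lab' ha)
  have hB0 := g.BB_nn (lab' ha)
  have hK0 : 0 ≤ KK V a := by
    have := g.KK_mono le_rfl ha.1 (lab' ha).2
    rw [KK_zero] at this
    exact this
  have hsc := sin2_nn hXa
  obtain ⟨X, hXd⟩ : ∃ X, X = XX V a := ⟨_, rfl⟩
  obtain ⟨W, hWd⟩ : ∃ W, W = V.2.2 a := ⟨_, rfl⟩
  obtain ⟨B, hBd⟩ : ∃ B, B = BB V a := ⟨_, rfl⟩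
  obtain ⟨K, hKd⟩ : ∃ K, K = KK V a := ⟨_, rfl⟩
  obtain ⟨A, hAd⟩ : ∃ A, A = AA V a := ⟨_, rfl⟩
  obtain ⟨s, hsd⟩ : ∃ s, s = DD V 0 := ⟨_, rfl⟩
  unfold EE
  rw [show DD V a = Real.cos (2 * XX V a) * BB V a - Real.sin (2 * XX V a) * AA V a from rfl]
  rw [← hsd, ← hKd, ← hBd] at hs
  rw [← hWd, ← hBd] at hBW
  rw [← hKd, ← hWd, ← hXd] at hKW
  rw [← hAd, ← hWd, ← hXd] at hAW
  rw [← hAd] at hA0
  rw [← hBd] at hB0
  rw [← hKd] at hK0
  rw [← hWd] at hW0
  rw [← hXd] at hX hXa hsc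
  rw [← hXd, ← hBd, ← hAd, ← hsd]
  have hX0 := hXa.1
  have hs0 : 0 ≤ s := by linarith
  have hW10 : W ≤ 10 * s := by linarith
  have hKW' : K ≤ W / 8 := by nlinarith
  have hB3 : s ≤ 3 * B := by linarith
  have hsin : X ≤ Real.sin (2 * X) := by
    rcases hX0.eq_or_lt with h0 | h0
    · rw [← h0]
      simp
    · have := Real.sin_gt_sub_cube (x := 2 * X) (by linarith)
      have h1 : (2 * X) ^ 3 / 6 ≤ X := by
        have h2 : X ^ 2 ≤ 1 / 64 := by nlinarith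
        have h3 : (2 * X) ^ 3 / 6 = 4 / 3 * X * X ^ 2 := by ring
        rw [h3]
        nlinarith
      linarith
  have hsin2 : Real.sin (2 * X) ≤ 2 * X := Real.sin_le (by linarith)
  have hcos := Real.one_sub_sq_div_two_le_cos (x := 2 * X)
  have hcos1 := Real.cos_le_one (2 * X)
  constructor
  · have h1 : X * (s / 3) ≤ Real.sin (2 * X) * B :=
      mul_le_mul hsin (by linarith) (by positivity) hsc.1
    have h2 := mul_nonneg hsc.2 hA0
    linarith
  · have h1 : s - Real.cos (2 * X) * B ≤ K + 2 * X ^ 2 * s := by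
      have h2 : (1 - Real.cos (2 * X)) * B ≤ 2 * X ^ 2 * s := by
        have h3 : 1 - Real.cos (2 * X) ≤ 2 * X ^ 2 := by linarith
        have h4 : B ≤ s := by linarith
        exact mul_le_mul h3 h4 hB0 (by positivity)
      linarith
    have h2 : Real.sin (2 * X) * A ≤ 2 * X * (10 * s * X ^ 2) := by
      refine mul_le_mul hsin2 ?_ hA0 (by linarith)
      refine hAW.trans ?_
      exact mul_le_mul_of_nonneg_right hW10 (by positivity)
    have h3 : K ≤ 10 * s * X := hKW.trans (mul_le_mul_of_nonneg_right hW10 hX0)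
    have h4 : 0 ≤ X * s := by positivity
    have h5 : 2 * X ^ 2 * s ≤ X * s := by nlinarith
    have h6 : 2 * X * (10 * s * X ^ 2) ≤ X * s := by
      have h7 : X ^ 2 ≤ 1 / 64 := by nlinarith
      have h8 : 2 * X * (10 * s * X ^ 2) = 20 * (X * s) * X ^ 2 := by ring
      rw [h8]
      nlinarith
    linarith

end Stat

end Pool.Agent.TH305.BQ
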