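import Mathlib

/-!
A Volterra type lemma for families of functions (helper305).
-/

set_option autoImplicit false

open MeasureTheory Set Filter Topology

namespace Pool.Agent.TH305.BQ

/-- A family of functions whose derivatives are bounded by the supremum of the family. -/
theorem volterra {ι : Type*} {T C M : ℝ} {u u' : ι → ℝ → ℝ} (hC : 0 ≤ C) (hM0 : 0 ≤ M)
    (hd : ∀ i, ∀ t ∈ Icc 0 T, HasDerivAt (u i) (u' i t) t) (h0 : ∀ i, u i 0 ≤ 0)
    (hM : ∀ i, ∀ t ∈ Icc 0 T, u i t ≤ M)
    (h : ∀ t ∈ Icc 0 T, ∀ m, 0 ≤ m → (∀ i, u i t ≤ m) → ∀ i, u' i t ≤ C * m) :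
    ∀ i, ∀ t ∈ Icc 0 T, u i t ≤ 0 := by
  have hk : ∀ k : ℕ, ∀ i, ∀ t ∈ Icc 0 T, u i t ≤ M * ((C * t) ^ k / k.factorial) := by
    intro k
    induction k with
    | zero =>
      intro i t ht
      simpa using hM i t ht
    | succ k ih =>
      intro i t ht
      have hB : ∀ x : ℝ, HasDerivAt (fun s => M * ((C * s) ^ (k + 1) / (k + 1).factorial))
          (C * (M * ((C * x) ^ k / k.factorial))) x := by
        intro x
        have h1 : HasDerivAt (fun s : ℝ => C * s) C x := by
          simpa using (hasDerivAt_id x).const_mul C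
        have h2 := ((h1.pow (k + 1)).div_const ((k + 1).factorial : ℝ)).const_mul M
        refine h2.congr_deriv ?_
        rw [Nat.factorial_succ]
        push_cast
        have h3 : (k.factorial : ℝ) ≠ 0 := by exact_mod_cast k.factorial_ne_zero
        have h4 : (k : ℝ) + 1 ≠ 0 := by positivity
        field_simp
      have h3 := image_le_of_deriv_right_le_deriv_boundary (f := u i) (f' := u' i) (a := 0) (b := t)
        (B := fun s => M * ((C * s) ^ (k + 1) / (k + 1).factorial))
        (B' := fun x => C * (M * ((C * x) ^ k / k.factorial)))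
        (fun s hs => (hd i s ⟨hs.1, hs.2.trans ht.2⟩).continuousAt.continuousWithinAt)
        (fun s hs => (hd i s ⟨hs.1, hs.2.le.trans ht.2⟩).hasDerivWithinAt)
        (by simpa using h0 i)
        (fun s _ => (hB s).continuousAt.continuousWithinAt)
        (fun s _ => (hB s).hasDerivWithinAt)
        (by
          intro s hs
          have hs' : s ∈ Icc 0 T := ⟨hs.1, hs.2.le.trans ht.2⟩
          refine h s hs' _ ?_ (fun j => ih j s hs') i
          have h5 : 0 ≤ C * s := mul_nonneg hC hs.1
          positivity)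
      exact h3 ⟨ht.1, le_rfl⟩
  intro i t ht
  have hlim : Tendsto (fun k : ℕ => M * ((C * t) ^ k / k.factorial)) atTop (𝓝 (M * 0)) :=
    (FloorSemiring.tendsto_pow_div_factorial_atTop (C * t)).const_mul M
  rw [mul_zero] at hlim
  exact ge_of_tendsto' hlim fun k => hk k i t ht

/-- The same for absolute values. -/
theorem volterra_abs {ι : Type*} {T C M : ℝ} {u u' : ι → ℝ → ℝ} (hC : 0 ≤ C) (hM0 : 0 ≤ M)
    (hd : ∀ i, ∀ t ∈ Icc 0 T, HasDerivAt (u i) (u' i t) t) (h0 : ∀ i, u i 0 = 0)
    (hM : ∀ i, ∀ t ∈ Icc 0 T, |u i t| ≤ M)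
    (h : ∀ t ∈ Icc 0 T, ∀ m, 0 ≤ m → (∀ i, |u i t| ≤ m) → ∀ i, |u' i t| ≤ C * m) :
    ∀ i, ∀ t ∈ Icc 0 T, u i t = 0 := by
  have key := volterra (ι := ι × Bool) (T := T) (C := C) (M := M)
    (u := fun p s => if p.2 then u p.1 s else -u p.1 s)
    (u' := fun p s => if p.2 then u' p.1 s else -u' p.1 s) hC hM0 ?_ ?_ ?_ ?_
  · intro i t ht
    have h1 := key (i, true) t ht
    have h2 := key (i, false) t ht
    simp only [if_true] at h1
    simp at h2
    exact le_antisymm h1 h2
  · rintro ⟨i, b⟩ t ht
    cases b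
    · simp only [Bool.false_eq_true, if_false]
      exact (hd i t ht).fun_neg
    · simpa using hd i t ht
  · rintro ⟨i, b⟩
    cases b <;> simp [h0 i]
  · rintro ⟨i, b⟩ t ht
    have h1 := abs_le.1 (hM i t ht)
    cases b
    · simp only [Bool.false_eq_true, if_false]
      linarith [h1.1]
    · simpa using h1.2
  · rintro t ht m hm hall ⟨i, b⟩
    have h1 := h t ht m hm (fun j => abs_le.2 ⟨by
      have := hall (j, false)
      simp only [Bool.false_eq_true, if_false] at this
      linarith, by
      have := hall (j, true)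
      simpa using this⟩) i
    have h2 := abs_le.1 h1
    cases b
    · simp only [Bool.false_eq_true, if_false]
      linarith [h2.1]
    · simpa using h2.2

end Pool.Agent.TH305.BQ
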