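import Pool.Agent.TH305.BQ.Smooth
import Pool.Agent.TH305.BQ.Volt

/-!
The scale-invariant Boussinesq system in Lagrangian variables (helper305): parity.
-/

set_option autoImplicit false

open MeasureTheory Set Filter Topology
open scoped ContDiff BoundedContinuousFunction

namespace Pool.Agent.TH305.BQ

variable {q w : ℝ → ℝ}

/-- The map `a ↦ -a`. -/
def ng : C(ℝ, ℝ) := ⟨fun a => -a, continuous_neg⟩

/-- Reflection. -/
noncomputable def rf (U : ES) : ES :=
  (U.1.compContinuous ng, -(U.2.1.compContinuous ng), -(U.2.2.compContinuous ng))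

lemma rf1 (U : ES) (a : ℝ) : (rf U).1 a = U.1 (-a) := rfl
lemma rf2 (U : ES) (a : ℝ) : (rf U).2.1 a = -U.2.1 (-a) := rfl
lemma rf3 (U : ES) (a : ℝ) : (rf U).2.2 a = -U.2.2 (-a) := rfl

lemma es_norm_le {U : ES} {m : ℝ} (hm : 0 ≤ m) (h1 : ∀ a, |U.1 a| ≤ m) (h2 : ∀ a, |U.2.1 a| ≤ m)
    (h3 : ∀ a, |U.2.2 a| ≤ m) : ‖U‖ ≤ m := by
  rw [Prod.norm_def, Prod.norm_def]
  exact max_le ((BoundedContinuousFunction.norm_le hm).2 h1)
    (max_le ((BoundedContinuousFunction.norm_le hm).2 h2)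
      ((BoundedContinuousFunction.norm_le hm).2 h3))

lemma le1 (U : ES) (a : ℝ) : |U.1 a| ≤ ‖U‖ := (U.1.norm_coe_le_norm a).trans (norm_fst_le U)
lemma le2 (U : ES) (a : ℝ) : |U.2.1 a| ≤ ‖U‖ :=
  (U.2.1.norm_coe_le_norm a).trans ((norm_fst_le U.2).trans (norm_snd_le U))
lemma le3 (U : ES) (a : ℝ) : |U.2.2 a| ≤ ‖U‖ :=
  (U.2.2.norm_coe_le_norm a).trans ((norm_snd_le U.2).trans (norm_snd_le U))

lemma rf_norm (U : ES) : ‖rf U‖ ≤ ‖U‖ := by
  refine es_norm_le (norm_nonneg _) (fun a => ?_) (fun a => ?_) fun a => ?_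
  · exact le1 U (-a)
  · rw [rf2, abs_neg]
    exact le2 U (-a)
  · rw [rf3, abs_neg]
    exact le3 U (-a)

lemma cl_neg (a : ℝ) : cl (-a) = -cl a := by
  unfold cl
  rcases le_total a (-1) with h1 | h1
  · rw [min_eq_left (by linarith), max_eq_right (by norm_num), min_eq_right (by linarith),
      max_eq_left h1]
    norm_num
  · rcases le_total a 1 with h2 | h2
    · rw [min_eq_right (by linarith), max_eq_right (by linarith), min_eq_right h2, max_eq_right h1]
    · rw [min_eq_right (by linarith), max_eq_left (by linarith), min_eq_left h2,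
        max_eq_right (by norm_num)]

lemma cl_int_neg (f : ℝ → ℝ) (a : ℝ) :
    ∫ b in (0 : ℝ)..cl a, f (-b) = -∫ b in (0 : ℝ)..cl (-a), f b := by
  rw [intervalIntegral.integral_comp_neg, cl_neg, neg_zero, intervalIntegral.integral_symm]

lemma XX_rf (U : ES) (a : ℝ) : XX (rf U) a = -XX U (-a) := by
  unfold XX
  rw [← cl_int_neg]
  rfl

lemma AA_rf (U : ES) (a : ℝ) : AA (rf U) a = -AA U (-a) := by
  unfold AA
  rw [← cl_int_neg (fun b => Real.sin (2 * XX U b) * U.2.2 b * Real.exp (U.1 b))]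
  congr 1
  funext b
  rw [XX_rf, rf3, rf1, mul_neg 2 (XX U (-b)), Real.sin_neg]
  ring

lemma KK_rf (U : ES) (a : ℝ) : KK (rf U) a = KK U (-a) := by
  unfold KK
  have h := cl_int_neg (fun b => Real.cos (2 * XX U b) * U.2.2 b * Real.exp (U.1 b)) a
  have e : (fun b => Real.cos (2 * XX (rf U) b) * (rf U).2.2 b * Real.exp ((rf U).1 b))
      = fun b => -(Real.cos (2 * XX U (-b)) * U.2.2 (-b) * Real.exp (U.1 (-b))) := by
    funext b
    rw [XX_rf, rf3, rf1, mul_neg 2 (XX U (-b)), Real.cos_neg]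
    ring
  rw [e, intervalIntegral.integral_neg, h, neg_neg]

lemma BB_rf (U : ES) (a : ℝ) : BB (rf U) a = BB U (-a) := by
  unfold BB
  rw [KK_rf, KK_rf, KK_rf, neg_neg]
  ring

lemma EE_rf (U : ES) (a : ℝ) : EE (rf U) a = -EE U (-a) := by
  unfold EE
  rw [XX_rf, BB_rf, AA_rf, mul_neg, Real.sin_neg, Real.cos_neg]
  ring

lemma DD_rf (U : ES) (a : ℝ) : DD (rf U) a = DD U (-a) := by
  unfold DD
  rw [XX_rf, BB_rf, AA_rf, mul_neg, Real.sin_neg, Real.cos_neg]
  ring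

lemma F1_rf (U : ES) (a : ℝ) : F1 (rf U) a = F1 U (-a) := by
  unfold F1
  rw [DD_rf]

lemma F2_rf (U : ES) (a : ℝ) : F2 (rf U) a = -F2 U (-a) := by
  unfold F2
  rw [EE_rf, rf3, rf1]
  ring

lemma Dat.deriv_odd (h : Dat q w) (a : ℝ) : deriv q (-a) = -deriv q a := by
  have e : q = fun a => q (-a) := by
    funext a
    rw [h.eq]
  have h1 : deriv q a = -deriv q (-a) := by
    conv_lhs => rw [e]
    rw [deriv_comp_neg]
  linarith

lemma Dat.F3_rf (h : Dat q w) (U : ES) (a : ℝ) : F3 q (rf U) a = -F3 q U (-a) := by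
  unfold F3 QQ PP
  rw [XX_rf, rf2, rf1, Real.sin_neg, Real.cos_neg, h.eq, h.deriv_odd]
  ring

variable {h : Dat q w} {δ T : ℝ} {U : ℝ → ES}

/-- Boundedness on compact time intervals. -/
lemma LSol.bdd (H : LSol h δ T U) {T' : ℝ} (hT' : T' < T) :
    ∃ R : ℝ, 0 ≤ R ∧ ∀ t ∈ Icc 0 T', ‖U t‖ ≤ R := by
  obtain ⟨R, hR⟩ := isCompact_Icc.exists_bound_of_continuousOn (s := Icc 0 T')
    (H.cont.mono fun t ht => ⟨by linarith [H.hδ, ht.1], ht.2.trans_lt hT'⟩)
  exact ⟨max R 0, le_max_right _ _, fun t ht => (hR t ht).trans (le_max_left _ _)⟩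

/-- The solution is symmetric. -/
theorem LSol.sym (H : LSol h δ T U) {t : ℝ} (ht : t ∈ Ico 0 T) : rf (U t) = U t := by
  obtain ⟨R, hR0, hR⟩ := H.bdd ht.2
  obtain ⟨C1, hC1, b1⟩ := pF1.bl R
  obtain ⟨C2, hC2, b2⟩ := pF2.bl R
  obtain ⟨C3, hC3, b3⟩ := h.pF3.bl R
  have hI : ∀ s ∈ Icc 0 t, s ∈ Ioo (-δ) T := fun s hs =>
    ⟨by linarith [H.hδ, hs.1], hs.2.trans_lt ht.2⟩
  have hrf : ∀ s ∈ Icc 0 t, ‖rf (U s)‖ ≤ R := fun s hs => (rf_norm _).trans (hR s hs)
  obtain ⟨u, hu⟩ : ∃ u : Fin 3 × ℝ → ℝ → ℝ, u = fun p s => match p.1 with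
    | 0 => (rf (U s)).1 p.2 - (U s).1 p.2
    | 1 => (rf (U s)).2.1 p.2 - (U s).2.1 p.2
    | 2 => (rf (U s)).2.2 p.2 - (U s).2.2 p.2 := ⟨_, rfl⟩
  obtain ⟨u', hu'⟩ : ∃ u' : Fin 3 × ℝ → ℝ → ℝ, u' = fun p s => match p.1 with
    | 0 => F1 (rf (U s)) p.2 - F1 (U s) p.2
    | 1 => F2 (rf (U s)) p.2 - F2 (U s) p.2
    | 2 => F3 q (rf (U s)) p.2 - F3 q (U s) p.2 := ⟨_, rfl⟩
  have key := volterra_abs (ι := Fin 3 × ℝ) (T := t) (C := C1 + C2 + C3) (M := 2 * R) (u := u)
    (u' := u') (by positivity) (by positivity) ?_ ?_ ?_ ?_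
  · have htt : t ∈ Icc 0 t := ⟨ht.1, le_rfl⟩
    refine Prod.ext ?_ (Prod.ext ?_ ?_)
    · ext a
      have := key (0, a) t htt
      rw [hu] at this
      simp only at this
      linarith
    · ext a
      have := key (1, a) t htt
      rw [hu] at this
      simp only at this
      linarith
    · ext a
      have := key (2, a) t htt
      rw [hu] at this
      simp only at this
      linarith
  · rintro ⟨k, a⟩ s hs
    rw [hu, hu']
    fin_cases k
    · have h1 := (H.d1 (hI s hs) (-a)).sub (H.d1 (hI s hs) a)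
      simp only [rf1, F1_rf]
      exact h1
    · have h1 := (H.d2 (hI s hs) (-a)).neg.sub (H.d2 (hI s hs) a)
      simp only [rf2, F2_rf]
      exact h1
    · have h1 := (H.d3 (hI s hs) (-a)).neg.sub (H.d3 (hI s hs) a)
      simp only [rf3, h.F3_rf]
      exact h1
  · rintro ⟨k, a⟩
    rw [hu]
    fin_cases k
    · simp only [rf1, H.ini1, sub_self]
    · simp only [rf2, H.ini2]
      norm_num
    · simp only [rf3, H.ini3, h.ow]
      norm_num
  · rintro ⟨k, a⟩ s hs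
    have e1 := hR s hs
    have e2 := hrf s hs
    have hab : ∀ x y : ℝ, |x| ≤ R → |y| ≤ R → |x - y| ≤ 2 * R := fun x y hx hy => by
      have := abs_sub x y
      linarith
    rw [hu]
    fin_cases k
    · exact hab _ _ ((le1 _ _).trans e2) ((le1 _ _).trans e1)
    · exact hab _ _ ((le2 _ _).trans e2) ((le2 _ _).trans e1)
    · exact hab _ _ ((le3 _ _).trans e2) ((le3 _ _).trans e1)
  · rintro s hs m hm hall ⟨k, a⟩
    have hn : ‖rf (U s) - U s‖ ≤ m := by
      refine es_norm_le hm (fun a => ?_) (fun a => ?_) fun a => ?_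
      · have := hall (0, a)
        rw [hu] at this
        exact this
      · have := hall (1, a)
        rw [hu] at this
        exact this
      · have := hall (2, a)
        rw [hu] at this
        exact this
    have hk : ∀ C c : ℝ, 0 ≤ C → C ≤ C1 + C2 + C3 → c ≤ C * ‖rf (U s) - U s‖ →
        c ≤ (C1 + C2 + C3) * m := by
      intro C c hC hCC hc
      have h1 : C * ‖rf (U s) - U s‖ ≤ (C1 + C2 + C3) * m :=
        mul_le_mul hCC hn (norm_nonneg _) (by positivity)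
      linarith
    rw [hu']
    fin_cases k
    · exact hk C1 _ hC1 (by linarith) (b1 _ _ (hrf s hs) (hR s hs) a).2
    · exact hk C2 _ hC2 (by linarith) (b2 _ _ (hrf s hs) (hR s hs) a).2
    · exact hk C3 _ hC3 (by linarith) (b3 _ _ (hrf s hs) (hR s hs) a).2

end Pool.Agent.TH305.BQ
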