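import Pool.Agent.TH305.BQ.Mix

/-!
The scale-invariant Boussinesq system (helper305): the gradient of the vorticity and the second
derivative of the density have a sign near the axis of symmetry.
-/

set_option autoImplicit false

open MeasureTheory Set Filter Topology
open scoped ContDiff BoundedContinuousFunction

namespace Pool.Agent.TH305.BQ

variable {q w : ℝ → ℝ} {h : Dat q w} {δ T : ℝ} {U : ℝ → ES}

lemma QQ_nn (h : Dat q w) (V : ES) (a : ℝ) : 0 ≤ QQ q V a := mul_nonneg (h.qn a) (Real.exp_pos _).le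

namespace LSol

lemma Z_ini (H : LSol h δ T U) (a : ℝ) : Zf (U 0) a = deriv w a := by
  unfold Zf
  have e : ((U 0).2.2 : ℝ → ℝ) = w := by
    funext b
    exact H.ini3 b
  rw [e, H.ini1]
  simp

lemma Y_ini (H : LSol h δ T U) (a : ℝ) : Yf q (U 0) a = -(deriv (deriv q) a + q a) := by
  unfold Yf
  have e : PP q (U 0) = deriv q := by
    funext b
    unfold PP
    rw [H.ini1, H.ini2]
    simp
  rw [e, H.ini1]
  unfold QQ
  rw [H.ini1]
  simp

lemma mem_of_ico (H : LSol h δ T U) {t : ℝ} (ht : t ∈ Ico 0 T) : t ∈ Ioo (-δ) T :=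
  ⟨by linarith [H.hδ, ht.1], ht.2⟩

lemma ZY_t (H : LSol h δ T U) {a t : ℝ} (ha : a ∈ Ioo (-1 : ℝ) 1) (ht : t ∈ Ioo (-δ) T) :
    HasDerivAt (fun s => Zf (U s) a * Yf q (U s) a)
      (-5 * DD (U t) a * (Zf (U t) a * Yf q (U t) a)
        + (Real.cos (XX (U t) a) * Yf q (U t) a ^ 2 + QQ q (U t) a * Zf (U t) a ^ 2)) t := by
  refine ((H.Z_t ha ht).mul (H.Y_t ha ht)).congr_deriv ?_
  ring

/-- Positivity. -/
theorem zy_pos (H : LSol h δ T U) {a t : ℝ} (ha : a ∈ Icc (0 : ℝ) (1 / 4)) (ht : t ∈ Ico 0 T) :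
    0 < Zf (U t) a ∧ 0 < Yf q (U t) a := by
  have ha' : a ∈ Ioo (-1 : ℝ) 1 := ⟨by linarith [ha.1], by linarith [ha.2]⟩
  have ha4 : a ∈ Icc 0 (Real.pi / 4) := ⟨ha.1, by linarith [ha.2, pi4_lo]⟩
  have hprod : ∀ r ∈ Ico 0 T, 0 < Zf (U r) a * Yf q (U r) a := by
    intro r hr
    have hI : ∀ s ∈ Icc 0 r, s ∈ Ico 0 T := fun s hs => ⟨hs.1, hs.2.trans_lt hr.2⟩
    have hd : ∀ s ∈ Icc 0 r, HasDerivAt
        (fun s => Zf (U s) a * Yf q (U s) a * Real.exp (5 / 2 * (U s).1 a))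
        ((Real.cos (XX (U s) a) * Yf q (U s) a ^ 2 + QQ q (U s) a * Zf (U s) a ^ 2)
          * Real.exp (5 / 2 * (U s).1 a)) s := by
      intro s hs
      have hs' := H.mem_of_ico (hI s hs)
      refine ((H.ZY_t ha' hs').mul ((H.d1 hs' a).const_mul (5 / 2 : ℝ)).exp).congr_deriv ?_
      unfold F1
      ring
    have hmono : MonotoneOn
        (fun s => Zf (U s) a * Yf q (U s) a * Real.exp (5 / 2 * (U s).1 a)) (Icc 0 r) := by
      refine monotoneOn_of_deriv_nonneg (convex_Icc 0 r)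
        (fun s hs => (hd s hs).continuousAt.continuousWithinAt)
        (fun s hs => (hd s (interior_subset hs)).differentiableAt.differentiableWithinAt)
        fun s hs => ?_
      have hs' := interior_subset hs
      rw [(hd s hs').deriv]
      have h1 := cos_half ((H.good (hI s hs')).XX_mem ha4)
      have h2 := QQ_nn h (U s) a
      have h3 : 0 ≤ Real.cos (XX (U s) a) := by linarith
      positivity
    have h0 : (0 : ℝ) ∈ Icc 0 r := ⟨le_rfl, hr.1⟩
    have hrr : r ∈ Icc 0 r := ⟨hr.1, le_rfl⟩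
    have h1 := hmono h0 hrr hr.1
    simp only at h1
    have h2 : 0 < Zf (U 0) a * Yf q (U 0) a * Real.exp (5 / 2 * (U 0).1 a) := by
      rw [H.Z_ini, H.Y_ini]
      exact mul_pos (mul_pos (h.wp a ha) (h.np a ha)) (Real.exp_pos _)
    have h3 := h2.trans_le h1
    by_contra h4
    push Not at h4
    have h5 := mul_nonpos_of_nonpos_of_nonneg h4 (Real.exp_pos (5 / 2 * (U r).1 a)).le
    linarith
  have hZ : 0 < Zf (U t) a := by
    by_contra hcon
    push Not at hcon
    have hc : ContinuousOn (fun s => Zf (U s) a) (Icc 0 t) := fun s hs =>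
      (H.Z_t ha' (H.mem_of_ico ⟨hs.1, hs.2.trans_lt ht.2⟩)).continuousAt.continuousWithinAt
    have h0 : 0 < Zf (U 0) a := by
      rw [H.Z_ini]
      exact h.wp a ha
    obtain ⟨s, hs, hs0⟩ := intermediate_value_Icc' ht.1 hc ⟨hcon, h0.le⟩
    have := hprod s ⟨hs.1, hs.2.trans_lt ht.2⟩
    simp only at hs0
    rw [hs0, zero_mul] at this
    exact lt_irrefl _ this
  exact ⟨hZ, (pos_iff_pos_of_mul_pos (hprod t ht)).1 hZ⟩

/-- The vorticity increases in the label. -/
lemma W_mono (H : LSol h δ T U) {t : ℝ} (ht : t ∈ Ico 0 T) :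
    MonotoneOn (fun a => (U t).2.2 a) (Icc 0 (1 / 4)) := by
  have hI : ∀ a ∈ Icc (0 : ℝ) (1 / 4), a ∈ Ioo (-1 : ℝ) 1 := fun a ha =>
    ⟨by linarith [ha.1], by linarith [ha.2]⟩
  refine monotoneOn_of_deriv_nonneg (convex_Icc _ _)
    (fun a ha => (H.W_a (hI a ha) (H.mem_of_ico ht)).continuousAt.continuousWithinAt)
    (fun a ha => (H.W_a (hI a (interior_subset ha))
      (H.mem_of_ico ht)).differentiableAt.differentiableWithinAt) fun a ha => ?_
  have h1 := (H.zy_pos (interior_subset ha) ht).1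
  unfold Zf at h1
  by_contra h2
  push Not at h2
  have h3 : deriv (U t).2.2 a < 0 := h2
  have := mul_neg_of_neg_of_pos h3 (Real.exp_pos (-(U t).1 a))
  linarith

end LSol

end Pool.Agent.TH305.BQ
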